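import Pool.Agent.K1H11.NS4.Exist

/-!
# Forced solutions with explicit majorants
-/

open MeasureTheory Set Filter Topology
open scoped ENNReal NNReal

namespace Pool.Agent.K1H11.NS

/-- Forced solutions with the majorant `b`. -/
structure SolB (c : ℝ) (F : Fam) (b : K → ℝ) (V : K → C3) (u : Fam) : Prop where
  cf : CF u
  z : ∀ t, u 0 t = 0
  sym : SymF u
  bd : ∀ k t, ‖u k t‖ ≤ b k
  l2 : ∀ k, LN (fun t => ‖u k t‖ₑ) ≤ ENNReal.ofReal (b k)
  eq : ∀ k t, u k t = Real.exp (-(c * sq k * max t 0)) • V k + Duh c (Bt u - F) k t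

/-- rapidly decreasing majorants -/
structure RM (b : K → ℝ) : Prop where
  nn : ∀ k, 0 ≤ b k
  rr : RR b

lemma SolB.toSolF {c : ℝ} {F : Fam} {b : K → ℝ} (hb : RM b) {V : K → C3} {u : Fam} (h : SolB c F b V u) :
    ∃ a : Wt, Sup a ∧ SolF c F a V u := by
  obtain ⟨a, ha, -, hs, -⟩ := exists_weight hb.nn hb.rr one_pos
  refine ⟨a, ha, h.cf, h.z, h.sym, ⟨b, hs, h.bd⟩, ?_, h.eq⟩
  have h1 : LN (fun t => NW (Wa a) (at' u t)) ≤ ∑' k, ENNReal.ofReal (om a k * b k) := by
    unfold NW
    refine (LN_tsum fun k => ((h.cf k).enorm.measurable).const_mul (Wa a k)).trans ?_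
    refine ENNReal.tsum_le_tsum fun k => ?_
    rw [LN_const_mul _ (h.cf k).enorm.measurable, ENNReal.ofReal_mul (om_pos a k).le]
    exact mul_le_mul' le_rfl (h.l2 k)
  refine ne_top_of_le_ne_top ?_ h1
  rw [← ENNReal.ofReal_tsum_of_nonneg (fun k => mul_nonneg (om_pos a k).le (hb.nn k)) hs]
  exact ENNReal.ofReal_ne_top

lemma SolB.dom {c : ℝ} {F : Fam} {b : K → ℝ} (hb : RM b) {V : K → C3} {u : Fam} (h : SolB c F b V u) : Dom u :=
  ⟨b, hb.rr.summ, h.bd⟩

lemma rr_inv_om {a : Wt} (ha : Sup a) (n : ℕ) : RR fun k => pw k ^ n / om a k := by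
  intro m
  obtain ⟨C, hC, hC'⟩ := ha.sup (m + n + 6)
  refine (summ_pw.mul_left C).of_nonneg_of_le (fun k => ?_) fun k => ?_
  · have := om_pos a k
    have := pw_pos k
    positivity
  · have h1 := om_pos a k
    have h2 := pw_pos k
    rw [mul_div_assoc', mul_one_div, div_le_div_iff₀ h1 (by positivity), ← pow_add, ← pow_add]
    exact hC' k

/-- Approximate solutions with small residual are close to exact solutions, uniformly for all approximate
solutions with common majorants. -/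
theorem approxB {c D τ : ℝ} (hc : 0 < c) (hD : 0 < D) (hτ : 0 < τ) : ∃ η : ℝ, 0 < η ∧
    ∀ b eb : K → ℝ, RM b → RM eb → ∃ b' : K → ℝ, RM b' ∧
      ∀ F : Fam, CF F → ∀ (V : K → C3) (U FE : Fam) (e : K → ℝ), CF U → SymF U → (∀ t, U 0 t = 0) →
      (∀ k t, ‖U k t‖ ≤ b k) →
      (∀ k, LN (fun t => ‖U k t‖ₑ) ≤ ENNReal.ofReal (b k)) → XN U ≤ ENNReal.ofReal D →
      CF FE → SymF FE → (∀ t, FE 0 t = 0) → (∀ k, 0 ≤ e k) → (∀ k, e k ≤ eb k) →
      (∀ k, ∫⁻ t in Ioi 0, ‖FE k t‖ₑ ≤ ENNReal.ofReal (e k)) → ∑' k, e k / nk k ≤ η →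
      (∀ k t, U k t = Real.exp (-(c * sq k * max t 0)) • V k + Duh c (Bt U - F - FE) k t) →
      ∃ u : Fam, SolB c F b' V u ∧ XN (u - U) ≤ ENNReal.ofReal τ := by
  have hD1 : 0 < D + 1 := by linarith
  obtain ⟨Lam, ρ0, hp0⟩ := exists_par hc hD1
  have hρ0 := hp0.hρ
  set ρ := min ρ0 (Real.exp (-(Lam * (D + 1) ^ 2)) * τ)
  have hρ : 0 < ρ := lt_min hρ0 (by positivity)
  have hp : Par c (D + 1) Lam ρ := hp0.mono hρ (min_le_left _ _)
  have hρτ : Real.exp (Lam * (D + 1) ^ 2) * ρ ≤ τ := by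
    have h1 : ρ ≤ Real.exp (-(Lam * (D + 1) ^ 2)) * τ := min_le_right _ _
    calc Real.exp (Lam * (D + 1) ^ 2) * ρ
        ≤ Real.exp (Lam * (D + 1) ^ 2) * (Real.exp (-(Lam * (D + 1) ^ 2)) * τ) :=
          mul_le_mul_of_nonneg_left h1 (Real.exp_pos _).le
      _ = _ := by rw [← mul_assoc, ← Real.exp_add]; simp
  set sc := Real.sqrt c
  have hsc : 0 < sc := Real.sqrt_pos.2 hc
  have hsc2 : sc ^ 2 = c := Real.sq_sqrt hc.le
  set η := sc * (ρ / 2) / 2 with hη
  have hη0 : 0 < η := by positivity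
  have hη2 : (2 * η) ^ 2 ≤ c * (ρ / 2) ^ 2 := by
    apply le_of_eq
    rw [← hsc2, hη]; ring
  have hC := C0_pos
  refine ⟨η, hη0, fun b eb hb heb => ?_⟩
  have hb0 := hb.nn
  have heb0 := heb.nn
  -- the weight
  set f : K → ℝ := fun k => b k + eb k
  have hf0 : ∀ k, 0 ≤ f k := fun k => add_nonneg (hb0 k) (heb0 k)
  have hfr : RR f := hb.rr.add heb.rr
  obtain ⟨a, ha, -, hs2, hsum⟩ := exists_weight hf0 hfr (lt_min one_pos hη0)
  have hfs : Summable f := hfr.summ
  have hom : ∀ k, 1 ≤ om a k := fun k => a.one_le k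
  have hsub : Summable fun k => (om a k - 1) * f k := (hs2.sub hfs).congr fun k => by ring
  have hsub' : ∑' k, (om a k - 1) * f k ≤ min 1 η := by
    have : ∑' k, (om a k - 1) * f k = ∑' k, om a k * f k - ∑' k, f k := by
      rw [← hs2.tsum_sub hfs]
      exact tsum_congr fun k => by ring
    rw [this]; linarith
  have hb1 : Summable fun k => (om a k - 1) * b k := hsub.of_nonneg_of_le
    (fun k => mul_nonneg (by linarith [hom k]) (hb0 k))
    fun k => mul_le_mul_of_nonneg_left (by simp only [f]; linarith [heb0 k]) (by linarith [hom k])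
  have hb2 : ∑' k, (om a k - 1) * b k ≤ 1 := (hb1.tsum_le_tsum (fun k =>
    mul_le_mul_of_nonneg_left (by simp only [f]; linarith [heb0 k]) (by linarith [hom k])) hsub).trans
      (hsub'.trans (min_le_left _ _))
  have hob : Summable fun k => om a k * b k := hs2.of_nonneg_of_le
    (fun k => mul_nonneg (om_pos a k).le (hb0 k))
    fun k => mul_le_mul_of_nonneg_left (by simp only [f]; linarith [heb0 k]) (om_pos a k).le
  set M := 2 * (2 * η + Real.exp (Lam * (D + 1) ^ 2) * (3 * C0 * (D + 1)) * ρ) with hMdef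
  have hM : 0 ≤ M := by positivity
  set L1 := Real.exp (Lam * (D + 1) ^ 2) * ρ with hL1
  have hL10 : 0 ≤ L1 := by positivity
  set b' : K → ℝ := fun k => b k + M * (nk k / om a k) + L1 * (1 / om a k) with hb'def
  have r1 : RR fun k => nk k / om a k := (rr_inv_om ha 1).mono
    (fun k => div_nonneg (nk_nonneg k) (om_pos a k).le)
    fun k => by rw [pow_one]; exact div_le_div_of_nonneg_right (nk_le_pw k) (om_pos a k).le
  have r2 : RR fun k => 1 / om a k := (rr_inv_om ha 0).mono
    (fun k => div_nonneg zero_le_one (om_pos a k).le) fun k => by rw [pow_zero]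
  have p1 : ∀ k, 0 ≤ M * (nk k / om a k) := fun k => mul_nonneg hM (div_nonneg (nk_nonneg k) (om_pos a k).le)
  have p2 : ∀ k, 0 ≤ L1 * (1 / om a k) := fun k => mul_nonneg hL10 (div_nonneg zero_le_one (om_pos a k).le)
  refine ⟨b', ⟨fun k => by have := hb0 k; have := p1 k; have := p2 k; simp only [hb'def]; linarith,
    (hb.rr.add (r1.mul M)).add (r2.mul L1)⟩, ?_⟩
  intro F hCF V U FE e hU hUs hU0 hUb hUL hUX hF hFs hF0 he0 hee hFe hesum heq
  have her : RR e := heb.rr.mono he0 hee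
  -- the function A
  set A : ℝ → ℝ := fun t => ∑' k, om a k * ‖U k t‖
  have hAs : ∀ t, Summable fun k => om a k * ‖U k t‖ := fun t =>
    hob.of_nonneg_of_le (fun k => mul_nonneg (om_pos a k).le (norm_nonneg _))
      fun k => mul_le_mul_of_nonneg_left (hUb k t) (om_pos a k).le
  have hAc : Continuous A := by
    refine continuous_tsum (fun k => continuous_const.mul (hU k).norm) hob fun k t => ?_
    rw [Real.norm_of_nonneg (mul_nonneg (om_pos a k).le (norm_nonneg _))]
    exact mul_le_mul_of_nonneg_left (hUb k t) (om_pos a k).le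
  have hA0 : ∀ t, 0 ≤ A t := fun t => tsum_nonneg fun k => mul_nonneg (om_pos a k).le (norm_nonneg _)
  have hNA : ∀ t, NW (Wa a) (at' U t) = ENNReal.ofReal (A t) := by
    intro t
    simp only [A]
    rw [ENNReal.ofReal_tsum_of_nonneg (fun k => mul_nonneg (om_pos a k).le (norm_nonneg _)) (hAs t)]
    unfold NW Wa
    refine tsum_congr fun k => ?_
    rw [← ofReal_norm, ← ENNReal.ofReal_mul (om_pos a k).le]
    rfl
  have hAi : LN (fun t => ENNReal.ofReal (A t)) ≤ ENNReal.ofReal (D + 1) := by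
    simp_rw [← hNA]
    refine (LN_weight hU hb0 hUL hb1).trans ?_
    rw [ENNReal.ofReal_add hD.le zero_le_one]
    exact add_le_add hUX (ENNReal.ofReal_le_ofReal hb2)
  have hUd : Dom U := ⟨b, hb.rr.summ, hUb⟩
  -- the residual
  have hen : ∀ k, e k / nk k ≤ e k := by
    intro k
    by_cases hk : k = 0
    · subst hk; simp [nk_zero, he0]
    · exact div_le_self (he0 k) (one_le_nk hk)
  have hes : Summable fun k => e k / nk k :=
    her.summ.of_nonneg_of_le (fun k => div_nonneg (he0 k) (nk_nonneg k)) hen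
  have hef : ∀ k, e k ≤ f k := fun k => (hee k).trans (by simp only [f]; linarith [hb0 k])
  have he1 : Summable fun k => (om a k - 1) * (e k / nk k) := hsub.of_nonneg_of_le
    (fun k => mul_nonneg (by linarith [hom k]) (div_nonneg (he0 k) (nk_nonneg k)))
    fun k => mul_le_mul_of_nonneg_left ((hen k).trans (hef k))
      (by linarith [hom k])
  have he2 : ∑' k, (om a k - 1) * (e k / nk k) ≤ η := (he1.tsum_le_tsum (fun k =>
    mul_le_mul_of_nonneg_left ((hen k).trans (hef k))
      (by linarith [hom k])) hsub).trans (hsub'.trans (min_le_right _ _))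
  have hFi : ∫⁻ s in Ioi 0, NW (Wm a) (at' FE s) ≤ ENNReal.ofReal (2 * η) := by
    unfold NW
    have m0 : ∀ k, AEMeasurable (fun s => Wm a k * ‖at' FE s k‖ₑ) (volume.restrict (Ioi 0)) := fun k =>
      (((hF k).enorm.measurable).const_mul (Wm a k)).aemeasurable
    rw [lintegral_tsum m0]
    calc ∑' k, ∫⁻ s in Ioi 0, Wm a k * ‖at' FE s k‖ₑ
        ≤ ∑' k, ENNReal.ofReal (om a k * (e k / nk k)) := by
          refine ENNReal.tsum_le_tsum fun k => ?_
          have m1 : Measurable fun s => ‖at' FE s k‖ₑ := (hF k).enorm.measurable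
          rw [lintegral_const_mul _ m1]
          have h1 : om a k * (e k / nk k) = (om a k / nk k) * e k := by ring
          rw [h1, ENNReal.ofReal_mul (div_nonneg (om_pos a k).le (nk_nonneg k))]
          exact mul_le_mul' le_rfl (hFe k)
      _ = ENNReal.ofReal (∑' k, om a k * (e k / nk k)) := by
          rw [ENNReal.ofReal_tsum_of_nonneg (fun k => mul_nonneg (om_pos a k).le
            (div_nonneg (he0 k) (nk_nonneg k)))]
          exact (he1.add hes).congr fun k => by ring
      _ ≤ _ := by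
          apply ENNReal.ofReal_le_ofReal
          have h1 : ∑' k, om a k * (e k / nk k) = ∑' k, (om a k - 1) * (e k / nk k) + ∑' k, e k / nk k := by
            rw [← he1.tsum_add hes]
            exact tsum_congr fun k => by ring
          rw [h1]; linarith
  obtain ⟨r, hrc, hr0, hrM, hrL, hrfix, hrs⟩ := existM hp ha hAc hA0 hAi hU hUd hUs
    (fun t _ => (hNA t).le) hF hFs hF0 (by positivity) hη2 hFi
  have hrb : ∀ k t, ‖r k t‖ ≤ M * (nk k / om a k) := fun k t => norm_le_of_NWm hM (hr0 t) (hrM t) k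
  have hrd : Dom r := ⟨_, (summ_nk ha).mul_left M, hrb⟩
  have hUrc : CF (U + r) := fun k => (hU k).add (hrc k)
  have hBU : CF (Bt U) := Bt_cont hU hUd
  have hBUr : CF (Bt (U + r)) := Bt_cont hUrc (hUd.add hrd)
  have hone : ∀ k, om Wt.one k ≤ om a k := fun k => a.one_le k
  have hLr : LN (fun t => NW (Wa a) (at' r t)) ≤ ENNReal.ofReal L1 := by
    refine (LN_le_LF hp.hL.le hD1.le hAc hA0 hAi (fun k => le_rfl) hrc).trans
      ((mul_le_mul' le_rfl hrL).trans (le_of_eq ?_))
    rw [← ENNReal.ofReal_mul (Real.exp_pos _).le]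
  refine ⟨U + r, ⟨hUrc, ?_, fun t => (hUs t).add (hrs t), ?_, ?_, ?_⟩, ?_⟩
  · intro t
    show U 0 t + r 0 t = 0
    rw [hr0, hU0, add_zero]
  · intro k t
    have h1 := (norm_add_le (U k t) (r k t)).trans (add_le_add (hUb k t) (hrb k t))
    have h2 := p2 k
    show ‖U k t + r k t‖ ≤ b' k
    simp only [hb'def]; linarith
  · intro k
    have hopos := om_pos a k
    have h2 : ENNReal.ofReal (om a k) * LN (fun t => ‖r k t‖ₑ) ≤ ENNReal.ofReal L1 := by
      rw [← LN_const_mul _ (hrc k).enorm.measurable]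
      exact (LN_mono fun t _ => ENNReal.le_tsum (f := fun k => Wa a k * ‖at' r t k‖ₑ) k).trans hLr
    have h3 : LN (fun t => ‖r k t‖ₑ) ≤ ENNReal.ofReal (L1 * (1 / om a k)) := by
      rw [ENNReal.ofReal_mul hL10, one_div,
        ENNReal.ofReal_inv_of_pos hopos]
      rw [← div_eq_mul_inv, ENNReal.le_div_iff_mul_le (Or.inl (by simpa using hopos))
        (Or.inl ENNReal.ofReal_ne_top), mul_comm]
      exact h2
    calc LN (fun t => ‖(U + r) k t‖ₑ) ≤ LN (fun t => ‖U k t‖ₑ + ‖r k t‖ₑ) :=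
          LN_mono fun t _ => enorm_add_le _ _
      _ ≤ LN (fun t => ‖U k t‖ₑ) + LN (fun t => ‖r k t‖ₑ) :=
          LN_add_le (hU k).enorm.measurable (hrc k).enorm.measurable
      _ ≤ ENNReal.ofReal (b k) + ENNReal.ofReal (L1 * (1 / om a k)) := add_le_add (hUL k) h3
      _ ≤ ENNReal.ofReal (b' k) := by
          rw [← ENNReal.ofReal_add (hb0 k) (p2 k)]
          apply ENNReal.ofReal_le_ofReal
          have := p1 k
          simp only [hb'def]; linarith
  · intro k t
    have h1 : CF (Bt U - F - FE) := fun k => ((hBU k).sub (hCF k)).sub (hF k)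
    have h2 : CF (FE + (Bt (U + r) - Bt U)) := fun k => (hF k).add ((hBUr k).sub (hBU k))
    have h3 : Duh c (Bt (U + r) - F) = Duh c (Bt U - F - FE) + Duh c (FE + (Bt (U + r) - Bt U)) := by
      rw [← Duh_add h1 h2]
      congr 1
      abel
    rw [h3, ← hrfix]
    show U k t + r k t = _ + (Duh c (Bt U - F - FE) k t + r k t)
    rw [heq k t, add_assoc]
  · have h1 : U + r - U = r := by abel
    rw [h1]
    unfold XN
    refine (LN_le_LF hp.hL.le hD1.le hAc hA0 hAi hone hrc).trans ((mul_le_mul' le_rfl hrL).trans ?_)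
    rw [← ENNReal.ofReal_mul (Real.exp_pos _).le]
    exact ENNReal.ofReal_le_ofReal hρτ

end Pool.Agent.K1H11.NS
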