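import Pool.Agent.K1H11.NS4.FlowB

/-!
# Families of data: shadowing and the zero-one law
-/

open MeasureTheory Set Filter Topology
open scoped ENNReal NNReal ContDiff

namespace Pool.Agent.K1H11.NS

open H459R3.NS (ee fr cube S SP Per D Rap IsSol)
open Pool.Agent.H356R3.NS (AdmissiblePeriodic R3 shellSum critNorm leiLin)

/-- Distance of two fields in the weighted Wiener norm of order `n`. -/
noncomputable def wd (n : ℕ) (u v : E3 → E3) : ℝ≥0∞ :=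
  ∑' k : K, ENNReal.ofReal ((1 + ∑ i, |(k i : ℝ)|) ^ n) *
    ‖Pool.Agent.H356R3.NS.fc u k - Pool.Agent.H356R3.NS.fc v k‖ₑ

section
variable {Θ : Type} [TopologicalSpace Θ]

lemma fc_maj {v : Θ → E3 → E3} (hv : ∀ i, UC fun θ x => v θ x i) :
    ∃ b : K → ℝ, RM b ∧ ∀ θ k, ‖Pool.Agent.H356R3.NS.fc (v θ) k‖ ≤ b k := by
  obtain ⟨b, hb, hb'⟩ := UC.maj3 (B := fun θ i x => v θ x i) hv
  refine ⟨b, hb, fun θ k => ?_⟩
  rw [pi_norm_le_iff_of_nonneg (hb.nn k)]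
  intro i
  rw [fc_eq_fr]
  exact hb' θ i k

/-- Families in the sense of `UC` are continuous in the `C^∞` topology. -/
lemma wd_of_UC {v : Θ → E3 → E3} (hv : ∀ i, UC fun θ x => v θ x i) (n : ℕ) (θ₀ : Θ) :
    Tendsto (fun θ => wd n (v θ) (v θ₀)) (𝓝 θ₀) (𝓝 0) := by
  obtain ⟨b, rb, hb⟩ := fc_maj hv
  have hpn : ∀ k : K, 0 ≤ pw k ^ n := fun k => (pow_pos (pw_pos k) n).le
  set F : Θ → K → ℝ := fun θ k => pw k ^ n *
    ‖Pool.Agent.H356R3.NS.fc (v θ) k - Pool.Agent.H356R3.NS.fc (v θ₀) k‖ with hF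
  have hF0 : ∀ θ k, 0 ≤ F θ k := fun θ k => mul_nonneg (hpn k) (norm_nonneg _)
  have hFb : ∀ θ k, F θ k ≤ pw k ^ n * (2 * b k) := fun θ k => by
    refine mul_le_mul_of_nonneg_left ((norm_sub_le _ _).trans ?_) (hpn k)
    have := hb θ k
    have := hb θ₀ k
    linarith
  have hbs : Summable fun k => pw k ^ n * (2 * b k) := (rb.mul zero_le_two).rr n
  have hcont : ∀ k, Continuous fun θ => F θ k := by
    intro k
    refine continuous_const.mul (Continuous.norm ?_)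
    refine Continuous.sub (continuous_pi fun i => ?_) continuous_const
    simp_rw [fc_eq_fr]
    exact (hv i).cont k
  have h := tendsto_tsum_of_dominated_convergence (f := F) (g := fun _ => (0 : ℝ)) (𝓕 := 𝓝 θ₀) hbs
    (fun k => by
      have h2 := (hcont k).tendsto θ₀
      have e : F θ₀ k = 0 := by simp [hF]
      rwa [e] at h2)
    (Eventually.of_forall fun θ k => by
      rw [Real.norm_of_nonneg (hF0 θ k)]
      exact hFb θ k)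
  rw [tsum_zero] at h
  have e : ∀ θ, wd n (v θ) (v θ₀) = ENNReal.ofReal (∑' k, F θ k) := by
    intro θ
    rw [ENNReal.ofReal_tsum_of_nonneg (hF0 θ) (hbs.of_nonneg_of_le (hF0 θ) (hFb θ))]
    unfold wd
    refine tsum_congr fun k => ?_
    rw [ENNReal.ofReal_mul (hpn k), ofReal_norm]
    rfl
  simp_rw [e]
  have h5 := (ENNReal.continuous_ofReal.tendsto 0).comp h
  rw [ENNReal.ofReal_zero] at h5
  exact h5

/-- Continuity in the `C^∞` topology on a compact space gives a common majorant. -/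
lemma UC_of_wd [CompactSpace Θ] {v : Θ → E3 → E3} (hs : ∀ θ i, SP fun x => v θ x i)
    (hc : ∀ (n : ℕ) (θ₀ : Θ), Tendsto (fun θ => wd n (v θ) (v θ₀)) (𝓝 θ₀) (𝓝 0)) (i : Fin 3) :
    UC fun θ x => v θ x i := by
  set N : ℕ → Θ → ℝ≥0∞ := fun n θ => ∑' k : K, ENNReal.ofReal (pw k ^ n) * ‖Pool.Agent.H356R3.NS.fc (v θ) k‖ₑ
    with hN
  have hpn : ∀ (n : ℕ) (k : K), 0 ≤ pw k ^ n := fun n k => (pow_pos (pw_pos k) n).le
  have hfin : ∀ n θ, N n θ ≠ ⊤ := by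
    intro n θ
    obtain ⟨b, rb, hb⟩ := fc_maj (Θ := Unit) (v := fun _ => v θ) fun i => UC.const (hs θ i)
    have h1 : N n θ ≤ ∑' k, ENNReal.ofReal (pw k ^ n * b k) := by
      refine ENNReal.tsum_le_tsum fun k => ?_
      rw [ENNReal.ofReal_mul (hpn n k), ← ofReal_norm]
      exact mul_le_mul' le_rfl (ENNReal.ofReal_le_ofReal (hb () k))
    refine ne_top_of_le_ne_top ?_ h1
    rw [← ENNReal.ofReal_tsum_of_nonneg (fun k => mul_nonneg (hpn n k) (rb.nn k)) (rb.rr n)]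
    exact ENNReal.ofReal_ne_top
  have hbd : ∀ n, ∃ C : ℝ, 0 ≤ C ∧ ∀ θ k, pw k ^ n * ‖Pool.Agent.H356R3.NS.fc (v θ) k‖ ≤ C := by
    intro n
    have hev : ∀ θ₀, {θ | wd n (v θ) (v θ₀) < 1} ∈ 𝓝 θ₀ := fun θ₀ =>
      (hc n θ₀).eventually (gt_mem_nhds one_pos)
    obtain ⟨t, -, ht⟩ := (isCompact_univ : IsCompact (univ : Set Θ)).elim_nhds_subcover
      (fun θ₀ => {θ | wd n (v θ) (v θ₀) < 1}) (fun θ₀ _ => hev θ₀)
    set S := ∑ θ₀ ∈ t, N n θ₀ + 1 with hS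
    have hSfin : S ≠ ⊤ := ENNReal.add_ne_top.2 ⟨ENNReal.sum_ne_top.2 fun θ₀ _ => hfin n θ₀, ENNReal.one_ne_top⟩
    refine ⟨S.toReal, ENNReal.toReal_nonneg, fun θ k => ?_⟩
    have h := ht (mem_univ θ)
    simp only [mem_iUnion, mem_setOf_eq, exists_prop] at h
    obtain ⟨θ₀, hθ₀, hlt⟩ := h
    have h1 : N n θ ≤ N n θ₀ + wd n (v θ) (v θ₀) := by
      simp only [hN]
      unfold wd
      rw [← ENNReal.tsum_add]
      refine ENNReal.tsum_le_tsum fun k => ?_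
      show ENNReal.ofReal (pw k ^ n) * ‖Pool.Agent.H356R3.NS.fc (v θ) k‖ₑ ≤
        ENNReal.ofReal (pw k ^ n) * ‖Pool.Agent.H356R3.NS.fc (v θ₀) k‖ₑ + ENNReal.ofReal (pw k ^ n) *
          ‖Pool.Agent.H356R3.NS.fc (v θ) k - Pool.Agent.H356R3.NS.fc (v θ₀) k‖ₑ
      rw [← mul_add]
      refine mul_le_mul' le_rfl ?_
      have e : Pool.Agent.H356R3.NS.fc (v θ) k = Pool.Agent.H356R3.NS.fc (v θ₀) k +
        (Pool.Agent.H356R3.NS.fc (v θ) k - Pool.Agent.H356R3.NS.fc (v θ₀) k) := by abel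
      calc ‖Pool.Agent.H356R3.NS.fc (v θ) k‖ₑ = ‖Pool.Agent.H356R3.NS.fc (v θ₀) k +
        (Pool.Agent.H356R3.NS.fc (v θ) k - Pool.Agent.H356R3.NS.fc (v θ₀) k)‖ₑ := by rw [← e]
        _ ≤ _ := enorm_add_le _ _
    have h2 : N n θ ≤ S := h1.trans (add_le_add (Finset.single_le_sum (f := fun θ₀ => N n θ₀)
      (fun _ _ => zero_le) hθ₀) hlt.le)
    have h3 : ENNReal.ofReal (pw k ^ n * ‖Pool.Agent.H356R3.NS.fc (v θ) k‖) ≤ S := by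
      refine le_trans ?_ h2
      rw [ENNReal.ofReal_mul (hpn n k), ofReal_norm]
      exact ENNReal.le_tsum (f := fun k : K => ENNReal.ofReal (pw k ^ n) * ‖Pool.Agent.H356R3.NS.fc (v θ) k‖ₑ) k
    exact (ENNReal.ofReal_le_iff_le_toReal hSfin).1 h3
  choose C hC0 hC using hbd
  have hle : ∀ θ k, ‖Pool.Agent.H356R3.NS.fc (v θ) k‖ ≤ C 0 := fun θ k => by simpa using hC 0 θ k
  refine ⟨fun θ => hs θ i, ⟨fun k => ⨆ θ, ‖Pool.Agent.H356R3.NS.fc (v θ) k‖, ⟨fun k => Real.iSup_nonneg fun θ =>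
    norm_nonneg _, fun n => ?_⟩, fun θ k => ?_⟩, fun k => ?_⟩
  · have hb : ∀ k, pw k ^ n * (⨆ θ, ‖Pool.Agent.H356R3.NS.fc (v θ) k‖) ≤ C (n + 6) * (1 / pw k ^ 6) := by
      intro k
      have hp := pw_pos k
      have h1 : (⨆ θ, ‖Pool.Agent.H356R3.NS.fc (v θ) k‖) ≤ C (n + 6) / pw k ^ (n + 6) := by
        refine Real.iSup_le (fun θ => ?_) (div_nonneg (hC0 _) (hpn _ k))
        rw [le_div_iff₀ (pow_pos hp _), mul_comm]
        exact hC (n + 6) θ k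
      calc pw k ^ n * (⨆ θ, ‖Pool.Agent.H356R3.NS.fc (v θ) k‖) ≤ pw k ^ n * (C (n + 6) / pw k ^ (n + 6)) :=
            mul_le_mul_of_nonneg_left h1 (hpn n k)
        _ = _ := by rw [pow_add]; field_simp
    exact (summ_pw.mul_left (C (n + 6))).of_nonneg_of_le
      (fun k => mul_nonneg (hpn n k) (Real.iSup_nonneg fun θ => norm_nonneg _)) hb
  · have h1 : ‖fr (fun x => v θ x i) k‖ ≤ ‖Pool.Agent.H356R3.NS.fc (v θ) k‖ := by
      rw [← fc_eq_fr]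
      exact norm_le_pi_norm _ i
    refine h1.trans ?_
    exact le_ciSup (f := fun θ => ‖Pool.Agent.H356R3.NS.fc (v θ) k‖)
      ⟨C 0, by rintro _ ⟨θ, rfl⟩; exact hle θ k⟩ θ
  · rw [continuous_iff_continuousAt]
    intro θ₀
    rw [ContinuousAt, Metric.tendsto_nhds]
    intro ε hε
    filter_upwards [(hc 0 θ₀).eventually (gt_mem_nhds (ENNReal.ofReal_pos.2 hε))] with θ hθ
    have h1 : ENNReal.ofReal ‖fr (fun x => v θ x i) k - fr (fun x => v θ₀ x i) k‖ ≤ wd 0 (v θ) (v θ₀) := by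
      rw [← fc_eq_fr, ← fc_eq_fr]
      have h2 : ‖Pool.Agent.H356R3.NS.fc (v θ) k i - Pool.Agent.H356R3.NS.fc (v θ₀) k i‖ ≤
          ‖Pool.Agent.H356R3.NS.fc (v θ) k - Pool.Agent.H356R3.NS.fc (v θ₀) k‖ :=
        norm_le_pi_norm (Pool.Agent.H356R3.NS.fc (v θ) k - Pool.Agent.H356R3.NS.fc (v θ₀) k) i
      refine (ENNReal.ofReal_le_ofReal h2).trans ?_
      unfold wd
      refine le_trans ?_ (ENNReal.le_tsum k)
      rw [pow_zero, ENNReal.ofReal_one, one_mul, ofReal_norm]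
    have h3 := h1.trans_lt hθ
    rw [ENNReal.ofReal_lt_ofReal_iff hε] at h3
    rw [dist_eq_norm]
    exact h3

end

/-- Families of data can be shadowed by families of good data which follow a given family of solutions. -/
theorem famA_main : ∃ C : ℝ, 0 < C ∧ ∀ (ν : ℝ), 0 < ν → ∀ (Θ : Type) [TopologicalSpace Θ] [CompactSpace Θ]
    (u₀ w₀ : Θ → E3 → E3) (w : Θ → ℝ → E3 → E3) (q : Θ → ℝ → E3 → ℝ),
    (∀ i, UC fun θ x => u₀ θ x i) → (∀ θ x, ∑ i, H459R3.NS.pd i (fun y => u₀ θ y i) x = 0) →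
    (∀ i, UC fun θ x => w₀ θ x i) → (∀ θ x, ∑ i, H459R3.NS.pd i (fun y => w₀ θ y i) x = 0) →
    ∀ m : E3, (∀ θ i, ∫ x in cube, u₀ θ x i = m i) → (∀ θ i, ∫ x in cube, w₀ θ x i = m i) →
    (∀ θ, AdmissiblePeriodic ν (w₀ θ) (w θ) (q θ)) →
    ∀ (η ε : ℝ), 0 < η → η ≤ 1 → 0 < ε → ∀ (J K0 : ℕ), 1 ≤ J →
    ∃ (v₀ : Θ → E3 → E3),
      (∀ i, UC fun θ x => v₀ θ x i) ∧ (∀ θ x, ∑ i, H459R3.NS.pd i (fun y => v₀ θ y i) x = 0) ∧
      (∀ θ i, ∫ x in cube, v₀ θ x i = m i) ∧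
      volume {x | x ∈ Icc (0 : E3) 1 ∧ ∃ θ, v₀ θ x ≠ u₀ θ x} ≤ ENNReal.ofReal η ∧
      (∀ θ, leiLin (fun k => Pool.Agent.H356R3.NS.fc (v₀ θ) k - Pool.Agent.H356R3.NS.fc (u₀ θ) k) ≤
        ENNReal.ofReal (C * ν * Real.sqrt J / η)) ∧
      (∀ θ (r : ℝ), 1 ≤ r →
        critNorm r (fun k => Pool.Agent.H356R3.NS.fc (v₀ θ) k - Pool.Agent.H356R3.NS.fc (u₀ θ) k) ≤
        ENNReal.ofReal (C * ν * (J : ℝ) ^ (1 / r - 1 / 2) / η)) ∧
      (∀ θ (k : Fin 3 → ℤ), (∀ i, |k i| ≤ K0) →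
        ‖Pool.Agent.H356R3.NS.fc (v₀ θ) k - Pool.Agent.H356R3.NS.fc (u₀ θ) k‖ ≤ ε) ∧
      ∃ δ : ℝ, 0 < δ ∧ ∀ θ (z₀ : E3 → E3), (∀ i, SP fun x => z₀ x i) →
        (∀ x, ∑ i, H459R3.NS.pd i (fun y => z₀ y i) x = 0) →
        (∀ i, ∫ x in cube, z₀ x i = m i) →
        leiLin (fun k => Pool.Agent.H356R3.NS.fc z₀ k - Pool.Agent.H356R3.NS.fc (v₀ θ) k) ≤ ENNReal.ofReal δ →
        ∃ (u : ℝ → E3 → E3) (p : ℝ → E3 → ℝ), AdmissiblePeriodic ν z₀ u p ∧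
          ∀ t, ε ≤ t → ∀ x i, |u t x i - w θ t x i| ≤ ε := by
  obtain ⟨Cg, hCg, hcut⟩ := exists_cut2
  refine ⟨8 * (225 * (4 * Cg + 1) ^ 2 * 12) * (4 * Real.pi ^ 2), by positivity,
    fun ν hν Θ _ _ u₀ w₀ w q hu hdiv hw hdw m hmu hmw hadm η ε h0 h1 hε J K0 hJ => ?_⟩
  have hpi := Real.pi_pos
  have hc : 0 < 4 * Real.pi ^ 2 * ν := by positivity
  have hη : 0 < η / 12 := by positivity
  have hη1 : η / 12 ≤ 1 / 4 := by linarith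
  obtain ⟨g, hg, hA⟩ := hcut (η / 12) hη hη1
  have hg2 : ContDiff ℝ ∞ (fun y => g y ^ 2 - 1) := (hg.smooth.pow 2).sub contDiff_const
  obtain ⟨Q, -, hQ⟩ := gM_norm hg2 (fun y => by rw [hg.per])
  obtain ⟨b, rb, W, hW⟩ := good_majorant hν hw fun θ => ⟨_, _, hadm θ⟩
  obtain ⟨τ, hτ, hlate⟩ := late2B hc (dl := ε / 2) (by positivity) hε rb
  obtain ⟨v₀, δ, hδ, b1, b2, b3, b4, b5, b6, b7, b8⟩ :=
    physB (Fo := fun _ => 0) (fun _ _ => continuous_const) hν hu hdiv hw hdw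
      (fun θ i => (hmw θ i).trans (hmu θ i).symm) rb hW hη hη1 hg hA hQ hJ (dl := ε / 2)
      (τ := τ) (by positivity) hτ (R := 2 * K0) (ρ := ε) hε
  have hs : 0 < Real.sqrt (η / 12) := Real.sqrt_pos.2 hη
  have hs2 : Real.sqrt (η / 12) ^ 2 = η / 12 := Real.sq_sqrt hη.le
  have hs1 : Real.sqrt (η / 12) ≤ 1 := by
    rw [Real.sqrt_le_left one_pos.le]; linarith
  have hP : PP (Cg / Real.sqrt (η / 12)) ^ 2 ≤ 225 * (4 * Cg + 1) ^ 2 * 12 / η := by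
    have h2 : PP (Cg / Real.sqrt (η / 12)) ≤ 15 * (4 * Cg + 1) / Real.sqrt (η / 12) := by
      unfold PP
      rw [le_div_iff₀ hs]
      have : 15 * (4 * (Cg / Real.sqrt (η / 12)) + 1) * Real.sqrt (η / 12)
          = 15 * (4 * Cg + Real.sqrt (η / 12)) := by field_simp
      rw [this]
      linarith
    have h3 : 0 ≤ PP (Cg / Real.sqrt (η / 12)) := by unfold PP; positivity
    calc _ ≤ (15 * (4 * Cg + 1) / Real.sqrt (η / 12)) ^ 2 := pow_le_pow_left₀ h3 h2 2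
      _ = 225 * (4 * Cg + 1) ^ 2 * 12 / η := by
          rw [div_pow, hs2]; field_simp; ring
  refine ⟨v₀, b1, b2, fun θ i => (b3 θ i).trans (hmu θ i), ?_, ?_, ?_, fun θ k hk => b7 θ k (nk_le_box hk), δ, hδ,
    ?_⟩
  · refine b4.trans (ENNReal.ofReal_le_ofReal (le_of_eq (by ring)))
  · intro θ
    refine (b5 θ).trans (ENNReal.ofReal_le_ofReal ?_)
    have hJ0 := Real.sqrt_nonneg (J : ℝ)
    calc 2 * PP (Cg / Real.sqrt (η / 12)) ^ 2 * (4 * Real.pi ^ 2 * ν) * Real.sqrt J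
        ≤ 8 * (225 * (4 * Cg + 1) ^ 2 * 12 / η) * (4 * Real.pi ^ 2 * ν) * Real.sqrt J := by
          gcongr; norm_num
      _ = _ := by ring
  · intro θ r hr
    refine (b6 θ r hr).trans (ENNReal.ofReal_le_ofReal ?_)
    calc 8 * PP (Cg / Real.sqrt (η / 12)) ^ 2 * (4 * Real.pi ^ 2 * ν) * (J : ℝ) ^ (1 / r - 1 / 2)
        ≤ 8 * (225 * (4 * Cg + 1) ^ 2 * 12 / η) * (4 * Real.pi ^ 2 * ν) * (J : ℝ) ^ (1 / r - 1 / 2) := by
          gcongr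
      _ = _ := by ring
  · intro θ z₀ hz hdz hmz hle
    obtain ⟨a2, ha2, U2, hU2, hL⟩ := b8 θ z₀ hz hdz (fun i => (hmz i).trans (hmu θ i).symm) hle
    obtain ⟨p, hp⟩ := adm_of_sol hz hdz (m := m) (fun i => (hmz i).symm) ha2 hU2.toSol
    refine ⟨_, p, hp, fun t ht x i => ?_⟩
    have ht0 : 0 ≤ t := hε.le.trans ht
    have hz0 : ∀ (k : K) (s : ℝ), s ≤ t → (0 : Fam) k s = 0 := fun _ _ _ => rfl
    have hA2 := hlate t 0 hz0 _ (W θ) (hW θ) a2 ha2 _ U2 hU2 hL t (by linarith) le_rfl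
    obtain ⟨a', ha', W', hW', hphys⟩ := conv_sol hν (hadm θ)
    obtain ⟨b', rb', hWB'⟩ := hW'.toSolB ha'
    obtain ⟨a1, ha1, hW1⟩ := (hW θ).toSolF rb
    obtain ⟨a3, ha3, hW3⟩ := hWB'.toSolF rb'
    have huni : ∀ k, W θ k t = W' k t := fun k => hW1.unique hc ha1 ha3 hW3 ht0 k
    have h3 := hphys t ht0 x i
    have e : (fun i => ∫ y in cube, w₀ θ y i) = m := funext fun i => hmw θ i
    rw [e, hmw θ i] at h3
    have e2 : GS m (cf' (W θ) i) t x = GS m (cf' W' i) t x := by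
      unfold GS SF cf'
      simp only [huni]
    rw [← h3, ← e2]
    exact (GS_diff (hU2.dom' ha2) ((hW θ).dom rb) m i t x).trans hA2

/-- The zero-one law for families. -/
theorem famB_main : ∃ C : ℝ, 0 < C ∧ ∀ (ν : ℝ), 0 < ν → ∀ (Θ : Type) [TopologicalSpace Θ] [CompactSpace Θ]
    (m : E3) (b₀ : Θ → E3 → E3),
    (∀ i, UC fun θ x => b₀ θ x i) → (∀ θ x, ∑ i, H459R3.NS.pd i (fun y => b₀ θ y i) x = 0) →
    (∀ θ i, ∫ x in cube, b₀ θ x i = m i) →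
    ∀ ε' : ℝ, 0 < ε' →
    (∀ g : Θ → E3 → E3, (∀ i, UC fun θ x => g θ x i) → (∀ θ x, ∑ i, H459R3.NS.pd i (fun y => g θ y i) x = 0) →
      (∀ θ i, ∫ x in cube, g θ x i = m i) →
      (∀ θ, leiLin (fun k => Pool.Agent.H356R3.NS.fc (g θ) k - Pool.Agent.H356R3.NS.fc (b₀ θ) k) ≤
        ENNReal.ofReal ε') →
      ∃ θ, ¬ ∃ (u : ℝ → E3 → E3) (p : ℝ → E3 → ℝ), AdmissiblePeriodic ν (g θ) u p) →
    ∀ u₀ : Θ → E3 → E3, (∀ i, UC fun θ x => u₀ θ x i) →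
      (∀ θ x, ∑ i, H459R3.NS.pd i (fun y => u₀ θ y i) x = 0) → (∀ θ i, ∫ x in cube, u₀ θ x i = m i) →
    ∀ (η ε : ℝ), 0 < η → η ≤ 1 → 0 < ε → ∀ (J K0 : ℕ), 1 ≤ J →
    ∃ (v₀ : Θ → E3 → E3),
      (∀ i, UC fun θ x => v₀ θ x i) ∧ (∀ θ x, ∑ i, H459R3.NS.pd i (fun y => v₀ θ y i) x = 0) ∧
      (∀ θ i, ∫ x in cube, v₀ θ x i = m i) ∧
      volume {x | x ∈ Icc (0 : E3) 1 ∧ ∃ θ, v₀ θ x ≠ u₀ θ x} ≤ ENNReal.ofReal η ∧
      (∀ θ, leiLin (fun k => Pool.Agent.H356R3.NS.fc (v₀ θ) k - Pool.Agent.H356R3.NS.fc (u₀ θ) k) ≤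
        ENNReal.ofReal (C * ν * Real.sqrt J / η)) ∧
      (∀ θ (r : ℝ), 1 ≤ r →
        critNorm r (fun k => Pool.Agent.H356R3.NS.fc (v₀ θ) k - Pool.Agent.H356R3.NS.fc (u₀ θ) k) ≤
        ENNReal.ofReal (C * ν * (J : ℝ) ^ (1 / r - 1 / 2) / η)) ∧
      (∀ θ (k : Fin 3 → ℤ), (∀ i, |k i| ≤ K0) →
        ‖Pool.Agent.H356R3.NS.fc (v₀ θ) k - Pool.Agent.H356R3.NS.fc (u₀ θ) k‖ ≤ ε) ∧
      ∃ δ : ℝ, 0 < δ ∧ ∀ z₀ : Θ → E3 → E3, (∀ i, UC fun θ x => z₀ θ x i) →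
        (∀ θ x, ∑ i, H459R3.NS.pd i (fun y => z₀ θ y i) x = 0) → (∀ θ i, ∫ x in cube, z₀ θ x i = m i) →
        (∀ θ, leiLin (fun k => Pool.Agent.H356R3.NS.fc (z₀ θ) k - Pool.Agent.H356R3.NS.fc (v₀ θ) k) ≤
          ENNReal.ofReal δ) →
        ∃ θ, ¬ ∃ (u : ℝ → E3 → E3) (p : ℝ → E3 → ℝ), AdmissiblePeriodic ν (z₀ θ) u p := by
  obtain ⟨C, hC, hmain⟩ := pass_B
  refine ⟨C, hC, fun ν hν Θ _ _ m b₀ hb hdb hmb ε' hε' hbad u₀ hu hdu hmu η ε h0 h1 hε J K0 hJ => ?_⟩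
  obtain ⟨v₀, a1, a2, a3, a4, a5, a6, a7, δ, T, hδ, hT, -, a8⟩ :=
    hmain ν hν Θ u₀ b₀ hu hdu hb hdb m hmu hmb η ε ε' h0 h1 hε hε' J K0 hJ
  refine ⟨v₀, a1, a2, a3, a4, a5, a6, a7, δ, hδ, fun z₀ hz hdz hmz hle => ?_⟩
  by_contra hcon
  push Not at hcon
  choose u p hup using hcon
  have hI : ∀ θ, IsSol ν (T + 1) (u θ) (p θ) := fun θ => adm_isSol (hup θ) (T + 1)
  have hTI : T ∈ Ico 0 (T + 1) := ⟨hT.le, by linarith⟩
  obtain ⟨θ, hθ⟩ := hbad (fun θ => u θ T) (fun i => flow_UC hν hz hmz hup hT i)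
    (fun θ x => (hup θ).divFree T hT.le x) (fun θ i => by
      have h2 := WH_mean (hI θ) hTI i
      unfold WH at h2
      rw [fr_zero, fr_zero, (hup θ).initial, hmz θ i] at h2
      exact_mod_cast h2)
    (fun θ => ((a8 θ (z₀ θ) (fun i => (hz i).sp θ) (hdz θ) (hmz θ) (hle θ)).2 (T + 1) (u θ) (p θ) (hI θ)
      (hup θ).initial T (by linarith) le_rfl (by linarith)).1)
  exact hθ ⟨_, _, adm_shift (hup θ) hT⟩

/-- Compact families of good data are robustly good. -/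
theorem good_open_fam {ν : ℝ} (hν : 0 < ν) {Θ : Type} [TopologicalSpace Θ] [CompactSpace Θ] {g : Θ → E3 → E3}
    (hg : ∀ i, UC fun θ x => g θ x i) {m : E3} (hm : ∀ θ i, ∫ x in cube, g θ x i = m i)
    (hgood : ∀ θ, ∃ (u : ℝ → E3 → E3) (p : ℝ → E3 → ℝ), AdmissiblePeriodic ν (g θ) u p) :
    ∃ δ : ℝ, 0 < δ ∧ ∀ θ (z₀ : E3 → E3), (∀ i, SP fun x => z₀ x i) →
      (∀ x, ∑ i, H459R3.NS.pd i (fun y => z₀ y i) x = 0) → (∀ i, ∫ x in cube, z₀ x i = m i) →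
      leiLin (fun k => Pool.Agent.H356R3.NS.fc z₀ k - Pool.Agent.H356R3.NS.fc (g θ) k) ≤ ENNReal.ofReal δ →
      ∃ (u : ℝ → E3 → E3) (p : ℝ → E3 → ℝ), AdmissiblePeriodic ν z₀ u p := by
  have hpi := Real.pi_pos
  have hc : 0 < 4 * Real.pi ^ 2 * ν := by positivity
  obtain ⟨b, rb, W, hW⟩ := good_majorant hν hg hgood
  obtain ⟨δ, hδ, hopen⟩ := openB hc rb one_pos
  refine ⟨δ, hδ, fun θ z₀ hz hdz hmz hle => ?_⟩
  have hs : ∀ i, SP fun x => g θ x i := fun i => (hg i).sp θ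
  set h : K → C3 := FV z₀ - FV (g θ) with hh
  have hrr : RR fun k => ‖h k‖ := ((FV_rr hz).add (FV_rr hs)).mono (fun _ => norm_nonneg _)
    fun k => norm_sub_le _ _
  have hle2 : ∑' k, ‖h k‖ / nk k ≤ δ := by
    have e1 : leiLin (fun k => Pool.Agent.H356R3.NS.fc z₀ k - Pool.Agent.H356R3.NS.fc (g θ) k) = leiLin h := by
      refine leiLin_congr fun k hk => ?_
      show _ = FV z₀ k - FV (g θ) k
      rw [FV_eq_fc hz hk, FV_eq_fc hs hk]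
    rw [e1, leiLin_eq hrr.summ] at hle
    exact (ENNReal.ofReal_le_ofReal_iff hδ.le).1 hle
  obtain ⟨a2, ha2, U2, hU2, -⟩ := hopen 0 (fun _ => continuous_const) _ (W θ) (hW θ) h
    ((FV_sym z₀).sub (FV_sym (g θ))) (by
      funext i
      show FV z₀ 0 i - FV (g θ) 0 i = 0
      rw [FV_zero hz, FV_zero hs, sub_zero]) hrr hle2
  have e2 : FV (g θ) + h = FV z₀ := by rw [hh]; abel
  rw [e2] at hU2
  obtain ⟨p, hp⟩ := adm_of_sol hz hdz (m := m) (fun i => (hmz i).symm) ha2 hU2.toSol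
  exact ⟨_, p, hp⟩

end Pool.Agent.K1H11.NS
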