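import Pool.Agent.K1H11.NS4.Galilei

/-!
# The zero-one law for families does not depend on the viscosity and on the mean
-/

open MeasureTheory Set Filter Topology
open scoped ENNReal NNReal ContDiff

namespace Pool.Agent.K1H11.NS

open H459R3.NS (ee fr cube S SP Per D Rap IsSol)
open Pool.Agent.H356R3.NS (AdmissiblePeriodic R3 shellSum critNorm leiLin)

/-- The affine change of a field. -/
def aff (κ : ℝ) (a : E3) (v : E3 → E3) : E3 → E3 := fun x i => κ * v x i + a i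

lemma aff_SP {v : E3 → E3} (hv : ∀ i, SP fun x => v x i) (κ : ℝ) (a : E3) (i : Fin 3) : SP fun x => aff κ a v x i :=
  (SP.cmul (hv i) κ).add (SP.const (a i))

lemma aff_UC {Θ : Type} [TopologicalSpace Θ] {v : Θ → E3 → E3} (hv : ∀ i, UC fun θ x => v θ x i) (κ : ℝ) (a : E3)
    (i : Fin 3) : UC fun θ x => aff κ a (v θ) x i :=
  ((hv i).cmul κ).add (UC.const (SP.const (a i)))

lemma aff_div {v : E3 → E3} (hv : ∀ i, SP fun x => v x i) (hd : ∀ x, ∑ i, H459R3.NS.pd i (fun y => v y i) x = 0)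
    (κ : ℝ) (a : E3) (x : E3) : ∑ i, H459R3.NS.pd i (fun y => aff κ a v y i) x = 0 := by
  have e : ∀ i, H459R3.NS.pd i (fun y => aff κ a v y i) x = κ * H459R3.NS.pd i (fun y => v y i) x := by
    intro i
    have h1 : HasFDerivAt (fun y => κ * v y i + a i) (κ • fderiv ℝ (fun y => v y i) x) x :=
      (((hv i).diff x).hasFDerivAt.const_mul κ).add_const (a i)
    unfold H459R3.NS.pd
    show fderiv ℝ (fun y => κ * v y i + a i) x _ = _
    rw [h1.fderiv]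
    rfl
  simp_rw [e]
  rw [← Finset.mul_sum, hd, mul_zero]

lemma aff_mean {v : E3 → E3} (hv : ∀ i, SP fun x => v x i) {m : E3} (hm : ∀ i, ∫ x in cube, v x i = m i)
    (κ : ℝ) (a : E3) (i : Fin 3) : ∫ x in cube, aff κ a v x i = aff κ a (fun _ => m) 0 i := by
  have h1 : ((∫ x in cube, aff κ a v x i : ℝ) : ℂ) = ((κ * m i + a i : ℝ) : ℂ) := by
    rw [← fr_zero]
    show fr (fun x => κ * v x i + a i) 0 = _
    rw [fr_add (SP.cmul (hv i) κ) (SP.const (a i)), fr_cmul, fr_const, if_pos rfl, fr_zero, hm]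
    push_cast
    ring
  exact_mod_cast h1

lemma aff_fc {v : E3 → E3} (hv : ∀ i, SP fun x => v x i) (κ : ℝ) (a : E3) {k : K} (hk : k ≠ 0) :
    Pool.Agent.H356R3.NS.fc (aff κ a v) k = (κ : ℂ) • Pool.Agent.H356R3.NS.fc v k := by
  funext i
  rw [fc_eq_fr]
  show fr (fun x => κ * v x i + a i) k = (κ : ℂ) * _
  rw [fr_add (SP.cmul (hv i) κ) (SP.const (a i)), fr_cmul, fr_const, if_neg hk, add_zero, fc_eq_fr]

lemma aff_LL {v w : E3 → E3} (hv : ∀ i, SP fun x => v x i) (hw : ∀ i, SP fun x => w x i) {κ : ℝ} (hκ : 0 ≤ κ)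
    (a : E3) : leiLin (fun k => Pool.Agent.H356R3.NS.fc (aff κ a v) k - Pool.Agent.H356R3.NS.fc (aff κ a w) k) =
      ENNReal.ofReal κ * leiLin (fun k => Pool.Agent.H356R3.NS.fc v k - Pool.Agent.H356R3.NS.fc w k) := by
  unfold leiLin
  rw [← ENNReal.tsum_mul_left]
  refine tsum_congr fun k => ?_
  by_cases hk : k = 0
  · rw [if_pos hk, if_pos hk, mul_zero]
  · rw [if_neg hk, if_neg hk]
    show ‖Pool.Agent.H356R3.NS.fc (aff κ a v) k - Pool.Agent.H356R3.NS.fc (aff κ a w) k‖ₑ / _ = _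
    rw [aff_fc hv κ a hk, aff_fc hw κ a hk, ← smul_sub, enorm_smul, mul_div_assoc]
    congr 1
    rw [← ofReal_norm, Complex.norm_real, Real.norm_eq_abs, abs_of_nonneg hκ]

lemma aff_aff (κ κ' : ℝ) (a a' : E3) (v : E3 → E3) :
    aff κ a (aff κ' a' v) = aff (κ * κ') (fun i => κ * a' i + a i) v := by
  funext x i
  simp only [aff]
  ring

lemma aff_one (v : E3 → E3) : aff 1 0 v = v := by
  funext x i
  simp [aff]

lemma aff_inv {κ : ℝ} (hκ : 0 < κ) (a : E3) (v : E3 → E3) : aff κ⁻¹ (fun i => -(κ⁻¹ * a i)) (aff κ a v) = v := by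
  funext x i
  simp only [aff]
  field_simp
  ring

lemma aff_inv' {κ : ℝ} (hκ : 0 < κ) (a : E3) (v : E3 → E3) : aff κ a (aff κ⁻¹ (fun i => -(κ⁻¹ * a i)) v) = v := by
  funext x i
  simp only [aff]
  field_simp
  ring

lemma aff_good {ν κ : ℝ} (hκ : 0 < κ) (a : E3) {v : E3 → E3}
    (h : ∃ (u : ℝ → E3 → E3) (p : ℝ → E3 → ℝ), AdmissiblePeriodic ν v u p) :
    ∃ (u : ℝ → E3 → E3) (p : ℝ → E3 → ℝ), AdmissiblePeriodic (κ * ν) (aff κ a v) u p := by
  obtain ⟨u, p, hup⟩ := h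
  exact ⟨_, _, adm_transform hκ a hup⟩

/-- The property: every family of data can be approximated by families of good data (in the metric of Lei and
Lin), for a given viscosity and mean. -/
def Approx (Θ : Type) [TopologicalSpace Θ] (ν : ℝ) (m : E3) : Prop :=
  ∀ b : Θ → E3 → E3, (∀ i, UC fun θ x => b θ x i) → (∀ θ x, ∑ i, H459R3.NS.pd i (fun y => b θ y i) x = 0) →
    (∀ θ i, ∫ x in cube, b θ x i = m i) → ∀ ε : ℝ, 0 < ε →
    ∃ g : Θ → E3 → E3, (∀ i, UC fun θ x => g θ x i) ∧ (∀ θ x, ∑ i, H459R3.NS.pd i (fun y => g θ y i) x = 0) ∧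
      (∀ θ i, ∫ x in cube, g θ x i = m i) ∧
      (∀ θ, leiLin (fun k => Pool.Agent.H356R3.NS.fc (g θ) k - Pool.Agent.H356R3.NS.fc (b θ) k) ≤
        ENNReal.ofReal ε) ∧
      ∀ θ, ∃ (u : ℝ → E3 → E3) (p : ℝ → E3 → ℝ), AdmissiblePeriodic ν (g θ) u p

theorem Approx.aff {Θ : Type} [TopologicalSpace Θ] {ν : ℝ} {m : E3} (h : Approx Θ ν m) {κ : ℝ} (hκ : 0 < κ)
    (a : E3) : Approx Θ (κ * ν) (aff κ a (fun _ => m) 0) := by
  intro b hb hdb hmb ε hε
  have hκi : 0 < κ⁻¹ := inv_pos.2 hκ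
  obtain ⟨g, hg, hdg, hmg, hle, hgood⟩ := h (fun θ => NS.aff κ⁻¹ (fun i => -(κ⁻¹ * a i)) (b θ)) (aff_UC hb _ _)
    (fun θ x => aff_div (fun i => (hb i).sp θ) (hdb θ) _ _ x) (fun θ i => by
      rw [aff_mean (fun i => (hb i).sp θ) (hmb θ)]
      simp only [NS.aff]
      field_simp
      ring) (ε / κ) (by positivity)
  refine ⟨fun θ => NS.aff κ a (g θ), aff_UC hg _ _, fun θ x => aff_div (fun i => (hg i).sp θ) (hdg θ) _ _ x,
    fun θ i => aff_mean (fun i => (hg i).sp θ) (hmg θ) _ _ i, fun θ => ?_, fun θ => aff_good hκ a (hgood θ)⟩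
  have e : b θ = NS.aff κ a (NS.aff κ⁻¹ (fun i => -(κ⁻¹ * a i)) (b θ)) := (aff_inv' hκ a (b θ)).symm
  rw [e]
  rw [aff_LL (fun i => (hg i).sp θ) (fun i => aff_SP (fun i => (hb i).sp θ) _ _ i) hκ.le]
  refine (mul_le_mul' le_rfl (hle θ)).trans (le_of_eq ?_)
  rw [← ENNReal.ofReal_mul hκ.le]
  congr 1
  field_simp

theorem Approx.all {Θ : Type} [TopologicalSpace Θ] {ν : ℝ} (hν : 0 < ν) {m : E3} (h : Approx Θ ν m) {ν' : ℝ}
    (hν' : 0 < ν') (m' : E3) : Approx Θ ν' m' := by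
  have h1 := h.aff (κ := ν' / ν) (by positivity) (fun i => m' i - ν' / ν * m i)
  have e1 : ν' / ν * ν = ν' := by field_simp
  have e2 : NS.aff (ν' / ν) (fun i => m' i - ν' / ν * m i) (fun _ => m) 0 = m' := by
    funext i
    simp only [NS.aff]
    ring
  rwa [e1, e2] at h1

end Pool.Agent.K1H11.NS
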