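import Pool.Agent.K1H11.NS4.PassB

/-!
# The flow of a family of good data
-/

open MeasureTheory Set Filter Topology
open scoped ENNReal NNReal ContDiff

namespace Pool.Agent.K1H11.NS

open H459R3.NS (ee fr cube S SP Per D Rap IsSol)
open Pool.Agent.H356R3.NS (AdmissiblePeriodic R3 shellSum critNorm leiLin)

/-- Small changes of the datum in the Lei-Lin norm, uniformly, with a common majorant. -/
theorem openBm {c : ℝ} (hc : 0 < c) {bu hb : K → ℝ} (rbu : RM bu) (rhb : RM hb) {τ : ℝ} (hτ : 0 < τ) :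
    ∃ (δ : ℝ) (b' : K → ℝ), 0 < δ ∧ RM b' ∧
    ∀ (F : Fam), CF F → ∀ (V : K → C3) (u : Fam), SolB c F bu V u → ∀ h : K → C3, Sym h → h 0 = 0 →
      (∀ k, ‖h k‖ ≤ hb k) →
      ∑' k, ‖h k‖ / nk k ≤ δ → ∃ u' : Fam, SolB c F b' (V + h) u' ∧
        XN (u' - u) ≤ ENNReal.ofReal τ := by
  have hC := C0_pos
  have bu0 := rbu.nn
  have bur := rbu.rr
  set B := ∑' k, bu k
  have hB0 : 0 ≤ B := tsum_nonneg bu0
  set D := B + 1 with hD
  have hD0 : 0 < D := by positivity
  obtain ⟨η, hη, happ⟩ := approxB (c := c) (D := D) (τ := τ / 2) hc hD0 (half_pos hτ)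
  set s := 1 / Real.sqrt (2 * c) with hs
  have hs0 : 0 < s := by positivity
  set δ := min 1 (min (τ / 2) (η / (C0 * (2 * B + 1)))) / s with hδ
  have hδ0 : 0 < δ := div_pos (lt_min one_pos (lt_min (half_pos hτ) (by positivity))) hs0
  have rl : RM fun k => s * hb k := rhb.mul hs0.le
  have rb1 : RM fun k => bu k + s * hb k + hb k := (rbu.add rl).add rhb
  have reb : RM fun k => C0 * nk k * conv (fun k => s * hb k) (fun k => bu k + s * hb k) k +
      C0 * nk k * conv bu (fun k => s * hb k) k := (rl.q (rbu.add rl)).add (rbu.q rl)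
  obtain ⟨b', rb', happ⟩ := happ _ _ rb1 reb
  refine ⟨δ, b', hδ0, rb', fun F hCF V u hu h hsym h0 hhb hle => ?_⟩
  have hr : RR fun k => ‖h k‖ := rhb.rr.mono (fun _ => norm_nonneg _) hhb
  have hud := hu.dom rbu
  have bub := hu.bd
  have buL := hu.l2
  set hl : K → ℝ := fun k => ‖h k‖ / nk k * s with hhl
  have hl0 : ∀ k, 0 ≤ hl k := fun k => mul_nonneg (div_nonneg (norm_nonneg _) (nk_nonneg k)) hs0.le
  have hdn : ∀ k, ‖h k‖ / nk k ≤ ‖h k‖ := fun k => by
    by_cases hk : k = 0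
    · subst hk; rw [nk_zero, div_zero]; exact norm_nonneg _
    · exact div_le_self (norm_nonneg _) (one_le_nk hk)
  have hlr : RR hl := (hr.mul s).mono hl0 fun k => by
    simp only [hhl]; rw [mul_comm]; exact mul_le_mul_of_nonneg_left (hdn k) hs0.le
  have hlb : ∀ k, hl k ≤ s * hb k := fun k => by
    simp only [hhl]; rw [mul_comm]; exact mul_le_mul_of_nonneg_left ((hdn k).trans (hhb k)) hs0.le
  set H := ∑' k, hl k with hH
  have hH0 : 0 ≤ H := tsum_nonneg hl0
  have hHle : H ≤ min 1 (min (τ / 2) (η / (C0 * (2 * B + 1)))) := by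
    rw [hH, hhl, tsum_mul_right]
    calc _ ≤ δ * s := mul_le_mul_of_nonneg_right hle hs0.le
      _ = _ := by rw [hδ, div_mul_cancel₀ _ hs0.ne']
  have hH1 : H ≤ 1 := hHle.trans (min_le_left _ _)
  have hH2 : H ≤ τ / 2 := hHle.trans ((min_le_right _ _).trans (min_le_left _ _))
  have hH3 : H ≤ η / (C0 * (2 * B + 1)) := hHle.trans ((min_le_right _ _).trans (min_le_right _ _))
  set Ht := Heat c h with hHt
  have Htcf : CF Ht := Heat_cf c h
  have Htsym : SymF Ht := Heat_sym hsym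
  have HtL : ∀ k, LN (fun t => ‖Ht k t‖ₑ) ≤ ENNReal.ofReal (hl k) := LN_Heat hc h0
  have Htd : Dom Ht := ⟨fun k => ‖h k‖, hr.summ, fun k t => Heat_norm hc h k t⟩
  have Ht0 : ∀ t, Ht 0 t = 0 := fun t => by simp [hHt, Heat, h0]
  have HtX : XN Ht ≤ ENNReal.ofReal H := by
    unfold XN
    have h1 : ∀ t, NW (Wa Wt.one) (at' Ht t) = ∑' k, ‖Ht k t‖ₑ := fun t => NW_Wa_zero _
    simp_rw [h1]
    refine (LN_tsum fun k => (Htcf k).enorm.measurable).trans ?_
    rw [hH, ENNReal.ofReal_tsum_of_nonneg hl0 hlr.summ]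
    exact ENNReal.tsum_le_tsum HtL
  set U := u + Ht with hU
  have Ucf : CF U := fun k => (hu.cf k).add (Htcf k)
  have Ud : Dom U := hud.add Htd
  set FE : Fam := Bt U - Bt u with hFE
  have BU := Bt_cont Ucf Ud
  have Bu := Bt_cont hu.cf hud
  have UL : ∀ k, LN (fun t => ‖U k t‖ₑ) ≤ ENNReal.ofReal (bu k + hl k) := by
    intro k
    rw [ENNReal.ofReal_add (bu0 k) (hl0 k)]
    refine (LN_mono fun t _ => enorm_add_le (u k t) (Ht k t)).trans ?_
    exact (LN_add_le (hu.cf k).enorm.measurable (Htcf k).enorm.measurable).trans (add_le_add (buL k) (HtL k))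
  set e : K → ℝ := fun k => C0 * nk k * conv hl (fun k => bu k + hl k) k + C0 * nk k * conv bu hl k with he
  have bh0 : ∀ k, 0 ≤ bu k + hl k := fun k => add_nonneg (bu0 k) (hl0 k)
  have bhr : RR fun k => bu k + hl k := bur.add hlr
  have q : ∀ {x y : K → ℝ}, (∀ k, 0 ≤ x k) → (∀ k, 0 ≤ y k) → RR x → RR y →
      RR (fun k => C0 * nk k * conv x y k) := by
    intro x y hx hy rx ry
    have := ((RR.conv hx hy rx ry).nk (conv_nonneg hx hy)).mul C0
    exact fun m => (this m).congr fun k => by ring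
  have e0 : ∀ k, 0 ≤ e k := fun k => by
    have c1 := conv_nonneg hl0 bh0 k
    have c2 := conv_nonneg bu0 hl0 k
    have := nk_nonneg k
    simp only [he]; positivity
  have er : RR e := (q hl0 bh0 hlr bhr).add (q bu0 hl0 bur hlr)
  have eL : ∀ k, ∫⁻ t in Ioi 0, ‖FE k t‖ₑ ≤ ENNReal.ofReal (e k) := by
    intro k
    have c1 := conv_nonneg hl0 bh0 k
    have c2 := conv_nonneg bu0 hl0 k
    have hn := nk_nonneg k
    have e1 : ∀ t, FE k t = Bf (at' Ht t) (at' U t) k + Bf (at' u t) (at' Ht t) k := by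
      intro t
      have := congrFun (Bf_diff (Ud.sn t) (hud.sn t)) k
      have e2 : at' U t - at' u t = at' Ht t := by
        funext l; show u l t + Ht l t - u l t = Ht l t; abel
      rw [e2] at this
      exact this
    have m1 : Measurable fun t => ‖Bf (at' Ht t) (at' U t) k‖ₑ := (BB_cont Htcf Ucf Htd Ud k).enorm.measurable
    calc ∫⁻ t in Ioi 0, ‖FE k t‖ₑ ≤ ∫⁻ t in Ioi 0, (‖Bf (at' Ht t) (at' U t) k‖ₑ + ‖Bf (at' u t) (at' Ht t) k‖ₑ) := by
          refine lintegral_mono fun t => ?_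
          show ‖FE k t‖ₑ ≤ _
          rw [e1 t]
          exact enorm_add_le _ _
      _ = (∫⁻ t in Ioi 0, ‖Bf (at' Ht t) (at' U t) k‖ₑ) + ∫⁻ t in Ioi 0, ‖Bf (at' u t) (at' Ht t) k‖ₑ :=
          lintegral_add_left m1 _
      _ ≤ ENNReal.ofReal (C0 * nk k * conv hl (fun k => bu k + hl k) k) + ENNReal.ofReal (C0 * nk k * conv bu hl k) :=
          add_le_add (lint_Bf Htcf Ucf hl0 bh0 hlr.summ bhr.summ HtL UL k)
            (lint_Bf hu.cf Htcf bu0 hl0 bur.summ hlr.summ buL HtL k)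
      _ = _ := by rw [← ENNReal.ofReal_add (by positivity) (by positivity)]
  have esum : ∑' k, e k / nk k ≤ η := by
    obtain ⟨s1, t1⟩ := summable_conv hl0 bh0 hlr.summ bhr.summ
    obtain ⟨s2, t2⟩ := summable_conv bu0 hl0 bur.summ hlr.summ
    have hle' : ∀ k, e k / nk k ≤ C0 * (conv hl (fun k => bu k + hl k) k + conv bu hl k) := by
      intro k
      have c1 := conv_nonneg hl0 bh0 k
      have c2 := conv_nonneg bu0 hl0 k
      have e3 : e k / nk k = nk k * (C0 * (conv hl (fun k => bu k + hl k) k + conv bu hl k)) / nk k := by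
        simp only [he]; ring
      rw [e3]
      exact div_nk_le (by positivity) k
    have s3 : Summable fun k => C0 * (conv hl (fun k => bu k + hl k) k + conv bu hl k) := (s1.add s2).mul_left C0
    have s0 : Summable fun k => e k / nk k := s3.of_nonneg_of_le (fun k => div_nonneg (e0 k) (nk_nonneg k)) hle'
    refine (s0.tsum_le_tsum hle' s3).trans ?_
    rw [tsum_mul_left, s1.tsum_add s2, t1, t2, bur.summ.tsum_add hlr.summ]
    have h1 : C0 * (H * (B + H) + B * H) ≤ C0 * (2 * B + 1) * H := by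
      have : H * H ≤ 1 * H := mul_le_mul_of_nonneg_right hH1 hH0
      nlinarith
    refine h1.trans ?_
    rw [le_div_iff₀ (by positivity)] at hH3
    linarith
  have XU : XN U ≤ ENNReal.ofReal D := by
    refine (XN_add hu.cf Htcf).trans ?_
    rw [hD, ENNReal.ofReal_add hB0 zero_le_one]
    exact add_le_add (hu.XN_le rbu) (HtX.trans (ENNReal.ofReal_le_ofReal hH1))
  obtain ⟨u', hu', hX'⟩ := happ F hCF (V + h) U FE e Ucf
    (fun t => (hu.sym t).add (Htsym t)) (fun t => by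
      show u 0 t + Ht 0 t = 0
      rw [hu.z, Ht0, add_zero])
    (fun k t => by
      have h1 := bub k t
      have h2 := Heat_norm hc h k t
      have h3 := hl0 k
      have h4 : ‖U k t‖ ≤ ‖u k t‖ + ‖Ht k t‖ := norm_add_le _ _
      have h5 := hhb k
      have h6 := rl.nn k
      linarith)
    (fun k => (UL k).trans (ENNReal.ofReal_le_ofReal (by
      have h5 := rhb.nn k
      have h6 := hlb k
      linarith))) XU (fun k => (BU k).sub (Bu k)) (fun t => (Bt_sym (fun t => (hu.sym t).add (Htsym t)) t).sub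
        (Bt_sym hu.sym t))
    (fun t => by
      show Bt U 0 t - Bt u 0 t = 0
      simp [Bt, Bf_zero]) e0 (fun k => by
      have hn := nk_nonneg k
      have c1 := conv_le hl0 bh0 hlb (fun k => add_le_add le_rfl (hlb k)) rl.rr.summ (rbu.add rl).rr.summ k
      have c2 := conv_le bu0 hl0 (fun k => le_rfl) hlb bur.summ rl.rr.summ k
      simp only [he]
      gcongr) eL esum
    (fun k t => by
      have e4 : Bt U - F - FE = Bt u - F := by rw [hFE]; abel
      rw [e4]
      show u k t + Ht k t = _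
      rw [hu.eq k t]
      show _ + _ + Real.exp (-(c * sq k * max t 0)) • h k = Real.exp (-(c * sq k * max t 0)) • (V k + h k) + _
      rw [smul_add]
      abel)
  refine ⟨u', hu', ?_⟩
  have e5 : u' - u = (u' - U) + Ht := by rw [hU]; abel
  rw [e5]
  have c1 : CF (u' - U) := fun k => (hu'.cf k).sub (Ucf k)
  refine (XN_add c1 Htcf).trans ((add_le_add hX' (HtX.trans (ENNReal.ofReal_le_ofReal hH2))).trans (le_of_eq ?_))
  rw [← ENNReal.ofReal_add (by positivity) (by positivity)]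
  congr 1; ring


lemma Sol.toSolB {c : ℝ} {a : Wt} (ha : Sup a) {V : K → C3} {u : Fam} (h : Sol c a V u) :
    ∃ b : K → ℝ, RM b ∧ SolB c 0 b V u := by
  obtain ⟨b, b0, br, bb, bl⟩ := h.rap ha
  exact ⟨b, ⟨b0, br⟩, h.cf, h.z, h.sym, bb, bl, fun k t => by rw [sub_zero]; exact h.eq k t⟩

lemma SolF.toSol {c : ℝ} {a : Wt} {V : K → C3} {u : Fam} (h : SolF c 0 a V u) : Sol c a V u :=
  ⟨h.cf, h.z, h.sym, h.dom, h.l2, fun k t => by have := h.eq k t; rwa [sub_zero] at this⟩

lemma SolB.mono {c : ℝ} {F : Fam} {b b' : K → ℝ} {V : K → C3} {u : Fam} (h : SolB c F b V u) (hb : ∀ k, b k ≤ b' k) :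
    SolB c F b' V u :=
  ⟨h.cf, h.z, h.sym, fun k t => (h.bd k t).trans (hb k), fun k => (h.l2 k).trans (ENNReal.ofReal_le_ofReal (hb k)),
    h.eq⟩

/-- Unforced solutions with the same datum agree. -/
lemma SolF.unique {c : ℝ} (hc : 0 < c) {a a' : Wt} (ha : Sup a) (ha' : Sup a') {V : K → C3} {u u' : Fam}
    (h : SolF c 0 a V u) (h' : SolF c 0 a' V u') {t : ℝ} (ht : 0 ≤ t) (k : K) : u k t = u' k t := by
  have hz : ∀ (k : K) (s : ℝ), s ≤ t → (0 : Fam) k s = 0 := fun _ _ _ => rfl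
  exact DS_unique hc h.cf (h.dom' ha) h'.cf (h'.dom' ha') (h.DS ha hz) (h'.DS ha' hz)
    (fun k => by rw [h.at_zero, h'.at_zero]) ht le_rfl k

section
variable {Θ : Type} [TopologicalSpace Θ]

lemma FV_cont {z : Θ → E3 → E3} (hz : ∀ i, UC fun θ x => z θ x i) (k : K) : Continuous fun θ => FV (z θ) k := by
  have hs : ∀ θ i, SP fun x => z θ x i := fun θ i => (hz i).sp θ
  refine continuous_pi fun i => ?_
  by_cases hk : k = 0
  · subst hk
    simp_rw [fun θ => FV_zero (hs θ) i]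
    exact continuous_const
  · simp_rw [fun θ => FV_eq (hs θ) hk i]
    exact (hz i).cont k

/-- Families are continuous in the Lei-Lin norm. -/
lemma FV_tendsto {z : Θ → E3 → E3} (hz : ∀ i, UC fun θ x => z θ x i) (θ₀ : Θ) :
    Tendsto (fun θ => ∑' k, ‖(FV (z θ) - FV (z θ₀)) k‖ / nk k) (𝓝 θ₀) (𝓝 0) := by
  obtain ⟨v, rv, hv⟩ := FV_maj hz
  have h := tendsto_tsum_of_dominated_convergence (f := fun θ k => ‖(FV (z θ) - FV (z θ₀)) k‖ / nk k)
    (g := fun _ => (0 : ℝ)) (𝓕 := 𝓝 θ₀) (bound := fun k => 2 * v k) (rv.mul zero_le_two).rr.summ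
    (fun k => by
      have h1 : Continuous fun θ => ‖(FV (z θ) - FV (z θ₀)) k‖ / nk k :=
        ((FV_cont hz k).sub continuous_const).norm.div_const _
      have h2 := h1.tendsto θ₀
      have e : ‖(FV (z θ₀) - FV (z θ₀)) k‖ / nk k = 0 := by
        rw [sub_self]; simp
      rwa [e] at h2)
    (Eventually.of_forall fun θ k => by
      rw [Real.norm_of_nonneg (div_nonneg (norm_nonneg _) (nk_nonneg k))]
      have h1 : ‖(FV (z θ) - FV (z θ₀)) k‖ ≤ 2 * v k := (norm_sub_le _ _).trans (by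
        have := hv θ k
        have := hv θ₀ k
        linarith)
      by_cases hk : k = 0
      · subst hk; rw [nk_zero, div_zero]; exact (mul_nonneg zero_le_two (rv.nn 0))
      · exact (div_le_self (norm_nonneg _) (one_le_nk hk)).trans h1)
  simpa using h

/-- Compact families of good data have solutions with a common majorant. -/
theorem good_majorant [CompactSpace Θ] {ν : ℝ} (hν : 0 < ν) {z : Θ → E3 → E3} (hz : ∀ i, UC fun θ x => z θ x i)
    (hg : ∀ θ, ∃ (u : ℝ → E3 → E3) (p : ℝ → E3 → ℝ), AdmissiblePeriodic ν (z θ) u p) :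
    ∃ (b : K → ℝ), RM b ∧ ∃ W : Θ → Fam, ∀ θ, SolB (4 * Real.pi ^ 2 * ν) 0 b (FV (z θ)) (W θ) := by
  have hpi := Real.pi_pos
  have hc : 0 < 4 * Real.pi ^ 2 * ν := by positivity
  have hs : ∀ θ i, SP fun x => z θ x i := fun θ i => (hz i).sp θ
  obtain ⟨v, rv, hv⟩ := FV_maj hz
  have hloc : ∀ θ₀, ∃ (b : K → ℝ), RM b ∧ ∀ᶠ θ in 𝓝 θ₀, ∃ W : Fam,
      SolB (4 * Real.pi ^ 2 * ν) 0 b (FV (z θ)) W := by
    intro θ₀
    obtain ⟨u, p, hup⟩ := hg θ₀
    obtain ⟨a, ha, W, hW, -⟩ := conv_sol hν hup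
    obtain ⟨b0, rb0, hW0⟩ := hW.toSolB ha
    obtain ⟨δ, b', hδ, rb', hopen⟩ := openBm hc rb0 (rv.mul (zero_le_two : (0 : ℝ) ≤ 2)) one_pos
    refine ⟨b', rb', ?_⟩
    filter_upwards [(FV_tendsto hz θ₀).eventually (gt_mem_nhds hδ)] with θ hθ
    obtain ⟨u', hu', -⟩ := hopen 0 (fun k => continuous_const) (FV (z θ₀)) W hW0 (FV (z θ) - FV (z θ₀))
      ((FV_sym _).sub (FV_sym _)) (by
        funext i
        show FV (z θ) 0 i - FV (z θ₀) 0 i = 0
        rw [FV_zero (hs θ), FV_zero (hs θ₀), sub_zero])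
      (fun k => (norm_sub_le _ _).trans (by
        have := hv θ k
        have := hv θ₀ k
        linarith)) hθ.le
    have e : FV (z θ₀) + (FV (z θ) - FV (z θ₀)) = FV (z θ) := by abel
    rw [e] at hu'
    exact ⟨u', hu'⟩
  choose b rb hb using hloc
  obtain ⟨t, -, ht⟩ := (isCompact_univ : IsCompact (univ : Set Θ)).elim_nhds_subcover
    (fun θ₀ => {θ | ∃ W : Fam, SolB (4 * Real.pi ^ 2 * ν) 0 (b θ₀) (FV (z θ)) W}) (fun θ₀ _ => hb θ₀)
  have hB : RM fun k => ∑ θ₀ ∈ t, b θ₀ k := by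
    clear ht
    classical
    induction t using Finset.induction_on with
    | empty => exact ⟨fun k => by simp, fun m => by simpa using summable_zero⟩
    | insert i s hi ih =>
      refine ((rb i).add ih).congr fun k => ?_
      rw [Finset.sum_insert hi]
  have key : ∀ θ, ∃ W : Fam, SolB (4 * Real.pi ^ 2 * ν) 0 (fun k => ∑ θ₀ ∈ t, b θ₀ k) (FV (z θ)) W := by
    intro θ
    have h := ht (mem_univ θ)
    simp only [mem_iUnion, mem_setOf_eq, exists_prop] at h
    obtain ⟨θ₀, hθ₀, W, hW⟩ := h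
    exact ⟨W, hW.mono fun k => Finset.single_le_sum (f := fun θ₀ => b θ₀ k) (fun i _ => (rb i).nn k) hθ₀⟩
  choose W hW using key
  exact ⟨_, hB, W, hW⟩

/-- The solutions of a family depend continuously on the parameter. -/
theorem good_cont {c : ℝ} (hc : 0 < c) {z : Θ → E3 → E3} (hz : ∀ i, UC fun θ x => z θ x i) {b : K → ℝ} (rb : RM b)
    {W : Θ → Fam} (hW : ∀ θ, SolB c 0 b (FV (z θ)) (W θ)) {t : ℝ} (ht : 0 < t) (k : K) :
    Continuous fun θ => W θ k t := by
  have hs : ∀ θ i, SP fun x => z θ x i := fun θ i => (hz i).sp θ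
  rw [continuous_iff_continuousAt]
  intro θ₀
  rw [ContinuousAt, Metric.tendsto_nhds]
  intro ε hε
  obtain ⟨ε', hε', hlate⟩ := late2B hc (dl := t / 2) (by positivity) (half_pos hε) rb
  obtain ⟨δ, hδ, hopen⟩ := openB hc rb hε'
  filter_upwards [(FV_tendsto hz θ₀).eventually (gt_mem_nhds hδ)] with θ hθ
  have hrr : RR fun k => ‖(FV (z θ) - FV (z θ₀)) k‖ := ((FV_rr (hs θ)).add (FV_rr (hs θ₀))).mono
    (fun _ => norm_nonneg _) fun k => norm_sub_le _ _
  obtain ⟨a', ha', u', hu', hX⟩ := hopen 0 (fun k => continuous_const) (FV (z θ₀)) (W θ₀) (hW θ₀)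
    (FV (z θ) - FV (z θ₀)) ((FV_sym _).sub (FV_sym _)) (by
      funext i
      show FV (z θ) 0 i - FV (z θ₀) 0 i = 0
      rw [FV_zero (hs θ), FV_zero (hs θ₀), sub_zero]) hrr hθ.le
  have e : FV (z θ₀) + (FV (z θ) - FV (z θ₀)) = FV (z θ) := by abel
  rw [e] at hu'
  have hz0 : ∀ (k : K) (s : ℝ), s ≤ t → (0 : Fam) k s = 0 := fun _ _ _ => rfl
  have hA := hlate t 0 hz0 _ (W θ₀) (hW θ₀) a' ha' _ u' hu' ((LNd_le_XN _ _).trans hX) t (by linarith) le_rfl
  obtain ⟨aθ, haθ, hWθ⟩ := (hW θ).toSolF rb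
  have heq : W θ k t = u' k t := hWθ.unique hc haθ ha' hu' ht.le k
  rw [dist_eq_norm, heq]
  have hd : Dom (u' - W θ₀) := (hu'.dom' ha').sub ((hW θ₀).dom rb)
  have h1 : ‖(u' - W θ₀) k t‖ ≤ An (u' - W θ₀) t := (hd.sn t).le_tsum k fun _ _ => norm_nonneg _
  calc ‖u' k t - W θ₀ k t‖ = ‖(u' - W θ₀) k t‖ := rfl
    _ ≤ ε / 2 := h1.trans hA
    _ < ε := by linarith

lemma RM_single (C : ℝ) (hC : 0 ≤ C) : RM fun k : K => if k = 0 then C else 0 :=
  ⟨fun k => by split_ifs <;> simp [hC], fun m => by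
    refine summable_of_ne_finset_zero (s := {0}) fun k hk => ?_
    rw [Finset.mem_singleton] at hk
    rw [if_neg hk, mul_zero]⟩

/-- The states of the solutions of a family of good data at a positive time form a family. -/
theorem flow_UC [CompactSpace Θ] {ν : ℝ} (hν : 0 < ν) {z : Θ → E3 → E3} (hz : ∀ i, UC fun θ x => z θ x i) {m : E3}
    (hm : ∀ θ i, ∫ x in cube, z θ x i = m i) {u : Θ → ℝ → E3 → E3} {p : Θ → ℝ → E3 → ℝ}
    (hup : ∀ θ, AdmissiblePeriodic ν (z θ) (u θ) (p θ)) {T : ℝ} (hT : 0 < T) (i : Fin 3) :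
    UC fun θ x => u θ T x i := by
  have hpi := Real.pi_pos
  have hc : 0 < 4 * Real.pi ^ 2 * ν := by positivity
  obtain ⟨b, rb, W, hW⟩ := good_majorant hν hz fun θ => ⟨_, _, hup θ⟩
  have hI : ∀ θ, IsSol ν (T + 1) (u θ) (p θ) := fun θ => adm_isSol (hup θ) (T + 1)
  have hTI : T ∈ Ico 0 (T + 1) := ⟨hT.le, by linarith⟩
  have hsp : ∀ θ i, SP fun x => u θ T x i := fun θ i => (hI θ).sp hTI i
  have hz0 : ∀ (k : K) (s : ℝ), s ≤ T → (0 : Fam) k s = 0 := fun _ _ _ => rfl
  have hval : ∀ θ k, W θ k T = YY m (WH (u θ)) T k := by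
    intro θ k
    obtain ⟨a, ha, hWF⟩ := (hW θ).toSolF rb
    exact val_eq hν hz0 ha hWF (hI θ) (hup θ).initial (m := m) (fun i => (hm θ i).symm) hT.le le_rfl (by linarith) k
  have hk0 : ∀ θ, fr (fun x => u θ T x i) 0 = ((m i : ℝ) : ℂ) := by
    intro θ
    have h2 := WH_mean (hI θ) hTI i
    unfold WH at h2
    rw [h2, fr_zero, (hup θ).initial, hm]
  have hk : ∀ θ k, k ≠ 0 → fr (fun x => u θ T x i) k = star (ex k (T • m)) * W θ k T i := by
    intro θ k hk
    rw [hval θ k]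
    unfold YY
    rw [if_neg hk]
    show _ = star (ex k (T • m)) * (ex k (T • m) * WH (u θ) T k i)
    rw [← mul_assoc]
    have : star (ex k (T • m)) * ex k (T • m) = 1 := by
      have h1 := Complex.conj_mul' (ex k (T • m))
      rw [norm_ex] at h1
      simpa using h1
    rw [this, one_mul]
    rfl
  refine ⟨fun θ => hsp θ i, ⟨fun k => b k + (if k = 0 then |m i| else 0), rb.add (RM_single _ (abs_nonneg _)),
    fun θ k => ?_⟩, fun k => ?_⟩
  · show _ ≤ b k + (if k = 0 then |m i| else 0)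
    by_cases h : k = 0
    · subst h
      rw [hk0, if_pos rfl, Complex.norm_real, Real.norm_eq_abs]
      have := rb.nn 0
      linarith
    · rw [hk θ k h, if_neg h, add_zero, norm_mul, norm_star, norm_ex, one_mul]
      exact (norm_le_pi_norm _ i).trans ((hW θ).bd k T)
  · by_cases h : k = 0
    · subst h
      simp_rw [hk0]
      exact continuous_const
    · simp_rw [fun θ => hk θ k h]
      exact continuous_const.mul ((continuous_apply i).comp (good_cont hc hz rb hW hT k))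

end

end Pool.Agent.K1H11.NS
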