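import Pool.Agent.K1H11.NS4.FamB

/-!
# Scaling and Galilean invariance
-/

open MeasureTheory Set Filter Topology
open scoped ENNReal NNReal ContDiff

namespace Pool.Agent.K1H11.NS

open H459R3.NS (ee fr cube S SP Per D Rap IsSol)
open Pool.Agent.H356R3.NS (AdmissiblePeriodic R3 shellSum critNorm leiLin)

/-- Scaling of the velocity and of the viscosity, and Galilean invariance. -/
theorem adm_transform {ν κ : ℝ} (hκ : 0 < κ) (a : E3) {v : E3 → E3} {u : ℝ → E3 → E3} {p : ℝ → E3 → ℝ}
    (h : AdmissiblePeriodic ν v u p) :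
    AdmissiblePeriodic (κ * ν) (fun x i => κ * v x i + a i) (fun t x i => κ * u (κ * t) (x - t • a) i + a i)
      (fun t x => κ ^ 2 * p (κ * t) (x - t • a)) := by
  have hA : ContDiff ℝ ∞ fun z : ℝ × E3 => ((κ * z.1, z.2 - z.1 • a) : ℝ × E3) :=
    (contDiff_const.mul contDiff_fst).prodMk (contDiff_snd.sub (contDiff_fst.smul contDiff_const))
  have hmaps : MapsTo (fun z : ℝ × E3 => ((κ * z.1, z.2 - z.1 • a) : ℝ × E3)) (Ici 0 ×ˢ univ) (Ici 0 ×ˢ univ) := by
    intro z hz
    have h1 : (0 : ℝ) ≤ z.1 := hz.1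
    exact ⟨show (0 : ℝ) ≤ κ * z.1 by positivity, mem_univ _⟩
  have hui : ∀ i, ContDiffOn ℝ ∞ (fun z : ℝ × E3 => u z.1 z.2 i) (Ici 0 ×ˢ univ) := fun i =>
    (contDiffOn_pi.1 h.smooth_u) i
  have hsu : ∀ t, 0 ≤ t → ∀ i, ContDiff ℝ ∞ fun y => u t y i := by
    intro t ht i
    rw [← contDiffOn_univ]
    exact (hui i).comp (contDiff_prodMk_right t).contDiffOn fun y _ => ⟨ht, mem_univ _⟩
  have hsp : ∀ t, 0 ≤ t → ContDiff ℝ ∞ (p t) := by
    intro t ht
    rw [← contDiffOn_univ]
    exact h.smooth_p.comp (contDiff_prodMk_right t).contDiffOn fun y _ => ⟨ht, mem_univ _⟩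
  -- space derivatives
  have hpd : ∀ (f : E3 → ℝ), ContDiff ℝ ∞ f → ∀ (r c : ℝ) (b : E3) (j : Fin 3) (x : E3),
      Pool.Agent.H356R3.NS.pd j (fun y => r * f (y - b) + c) x = r * Pool.Agent.H356R3.NS.pd j f (x - b) := by
    intro f hf r c b j x
    have hd : DifferentiableAt ℝ f (x - b) := hf.differentiable (by simp) _
    have h1 : HasFDerivAt (fun y => r * f (y - b) + c) (r • fderiv ℝ f (x - b)) x := by
      have h2 : HasFDerivAt (fun y : E3 => y - b) (ContinuousLinearMap.id ℝ E3) x := (hasFDerivAt_id x).sub_const b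
      have h3 := hd.hasFDerivAt.comp x h2
      rw [ContinuousLinearMap.comp_id] at h3
      exact (h3.const_mul r).add_const c
    unfold Pool.Agent.H356R3.NS.pd
    rw [h1.fderiv]
    rfl
  refine ⟨?_, ?_, ?_, ?_, ?_, ?_, ?_⟩
  · rw [contDiffOn_pi]
    intro i
    exact (contDiffOn_const.mul ((hui i).comp hA.contDiffOn hmaps)).add contDiffOn_const
  · exact contDiffOn_const.mul (h.smooth_p.comp hA.contDiffOn hmaps)
  · intro t ht x j
    funext i
    have h1 : x + Pi.single j 1 - t • a = (x - t • a) + Pi.single j 1 := by abel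
    show κ * u (κ * t) (x + Pi.single j 1 - t • a) i + a i = κ * u (κ * t) (x - t • a) i + a i
    rw [h1, h.periodic_u (κ * t) (by positivity)]
  · intro t ht x j
    have h1 : x + Pi.single j 1 - t • a = (x - t • a) + Pi.single j 1 := by abel
    show κ ^ 2 * p (κ * t) (x + Pi.single j 1 - t • a) = κ ^ 2 * p (κ * t) (x - t • a)
    rw [h1, h.periodic_p (κ * t) (by positivity)]
  · intro t ht x i
    have hκt : 0 ≤ κ * t := by positivity
    set y := x - t • a with hy
    -- the time derivative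
    have hF : HasFDerivWithinAt (fun z : ℝ × E3 => u z.1 z.2 i)
        (fderivWithin ℝ (fun z : ℝ × E3 => u z.1 z.2 i) (Ici 0 ×ˢ univ) (κ * t, y)) (Ici 0 ×ˢ univ) (κ * t, y) :=
      (((hui i).differentiableOn (by simp)) (κ * t, y) ⟨hκt, mem_univ _⟩).hasFDerivWithinAt
    set F' := fderivWithin ℝ (fun z : ℝ × E3 => u z.1 z.2 i) (Ici 0 ×ˢ univ) (κ * t, y)
    have hpath : HasDerivWithinAt (fun s : ℝ => ((κ * s, x - s • a) : ℝ × E3)) (κ, -a) (Ici 0) t := by
      have h1 : HasDerivAt (fun s : ℝ => κ * s) κ t := by simpa using (hasDerivAt_id t).const_mul κ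
      have h2 : HasDerivAt (fun s : ℝ => x - s • a) (-a) t := by
        have := ((hasDerivAt_id t).smul_const a).const_sub x
        simpa using this
      exact (h1.prodMk h2).hasDerivWithinAt
    have hd1 : HasDerivWithinAt (fun s => u (κ * s) (x - s • a) i) (F' (κ, -a)) (Ici 0) t := by
      have := HasFDerivWithinAt.comp_hasDerivWithinAt (t := Ici 0 ×ˢ univ) t
        (f := fun s : ℝ => ((κ * s, x - s • a) : ℝ × E3)) hF hpath fun s hs =>
          ⟨mul_nonneg hκ.le hs, mem_univ _⟩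
      exact this
    have hd2 : HasDerivWithinAt (fun s => u s y i) (F' (1, 0)) (Ici 0) (κ * t) := by
      have h1 : HasDerivWithinAt (fun s : ℝ => ((s, y) : ℝ × E3)) (1, 0) (Ici 0) (κ * t) :=
        ((hasDerivAt_id (κ * t)).prodMk (hasDerivAt_const _ y)).hasDerivWithinAt
      have := HasFDerivWithinAt.comp_hasDerivWithinAt (t := Ici 0 ×ˢ univ) (κ * t)
        (f := fun s : ℝ => ((s, y) : ℝ × E3)) hF h1 fun s hs => ⟨hs, mem_univ _⟩
      exact this
    have hd3 : ∀ e : E3, F' (0, e) = fderiv ℝ (fun z => u (κ * t) z i) y e := by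
      intro e
      have h1 : HasFDerivAt (fun z : E3 => ((κ * t, z) : ℝ × E3)) (ContinuousLinearMap.inr ℝ ℝ E3) y :=
        hasFDerivAt_prodMk_right (κ * t) y
      have h2 : HasFDerivWithinAt (fun z => u (κ * t) z i) (F'.comp (ContinuousLinearMap.inr ℝ ℝ E3)) univ y := by
        have := HasFDerivWithinAt.comp (t := Ici 0 ×ˢ univ) y (f := fun z : E3 => ((κ * t, z) : ℝ × E3)) hF
          h1.hasFDerivWithinAt (s := univ) fun z _ => ⟨hκt, mem_univ _⟩
        exact this
      rw [hasFDerivWithinAt_univ] at h2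
      rw [h2.fderiv]
      rfl
    have hsplit : F' (κ, -a) = κ * F' (1, 0) - ∑ j, a j * Pool.Agent.H356R3.NS.pd j (fun z => u (κ * t) z i) y := by
      have e1 : ((κ, -a) : ℝ × E3) = κ • ((1, 0) : ℝ × E3) - (0, a) := by
        ext <;> simp
      rw [e1, map_sub, map_smul, smul_eq_mul, hd3 a]
      congr 1
      unfold Pool.Agent.H356R3.NS.pd
      have e2 : a = ∑ j, a j • (Pi.single j 1 : E3) := by
        funext l
        simp [Finset.sum_apply, Pi.single_apply]
      conv_lhs => rw [e2]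
      rw [map_sum]
      exact Finset.sum_congr rfl fun j _ => by rw [map_smul, smul_eq_mul]
    have hdt : derivWithin (fun s => κ * u (κ * s) (x - s • a) i + a i) (Ici 0) t =
        κ * (κ * derivWithin (fun s => u s y i) (Ici 0) (κ * t) -
          ∑ j, a j * Pool.Agent.H356R3.NS.pd j (fun z => u (κ * t) z i) y) := by
      rw [((hd1.const_mul κ).add_const (a i)).derivWithin (uniqueDiffOn_Ici (0 : ℝ) t ht), hsplit,
        hd2.derivWithin (uniqueDiffOn_Ici (0 : ℝ) (κ * t) hκt)]
    have hP1 : ∀ j i, Pool.Agent.H356R3.NS.pd j (fun z => κ * u (κ * t) (z - t • a) i + a i) =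
        fun z => κ * Pool.Agent.H356R3.NS.pd j (fun z => u (κ * t) z i) (z - t • a) + 0 := by
      intro j i
      funext z
      rw [hpd _ (hsu (κ * t) hκt i), add_zero]
    have hPsm : ∀ j i, ContDiff ℝ ∞ (Pool.Agent.H356R3.NS.pd j (fun z => u (κ * t) z i)) := by
      intro j i
      unfold Pool.Agent.H356R3.NS.pd
      exact ((hsu (κ * t) hκt i).fderiv_right (m := ∞) (by simp)).clm_apply contDiff_const
    have hP2 : ∀ j, Pool.Agent.H356R3.NS.pd j (Pool.Agent.H356R3.NS.pd j
        (fun z => κ * u (κ * t) (z - t • a) i + a i)) x =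
        κ * Pool.Agent.H356R3.NS.pd j (Pool.Agent.H356R3.NS.pd j (fun z => u (κ * t) z i)) y := by
      intro j
      rw [hP1 j i, hpd _ (hPsm j i)]
    have hPp : Pool.Agent.H356R3.NS.pd i (fun z => κ ^ 2 * p (κ * t) (z - t • a)) x =
        κ ^ 2 * Pool.Agent.H356R3.NS.pd i (p (κ * t)) y := by
      have := hpd _ (hsp (κ * t) hκt) (κ ^ 2) 0 (t • a) i x
      simp only [add_zero] at this
      exact this
    have hm := h.momentum (κ * t) hκt y i
    rw [hdt, hPp]
    simp only [hP2]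
    have e3 : ∀ j, Pool.Agent.H356R3.NS.pd j (fun z => κ * u (κ * t) (z - t • a) i + a i) x =
        κ * Pool.Agent.H356R3.NS.pd j (fun z => u (κ * t) z i) y := fun j =>
      hpd _ (hsu (κ * t) hκt i) _ _ _ _ _
    simp only [e3]
    rw [← Finset.mul_sum]
    have e4 : ∑ j, (κ * u (κ * t) y j + a j) * (κ * Pool.Agent.H356R3.NS.pd j (fun z => u (κ * t) z i) y) =
        κ ^ 2 * ∑ j, u (κ * t) y j * Pool.Agent.H356R3.NS.pd j (fun z => u (κ * t) z i) y +
        κ * ∑ j, a j * Pool.Agent.H356R3.NS.pd j (fun z => u (κ * t) z i) y := by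
      rw [Finset.mul_sum, Finset.mul_sum, ← Finset.sum_add_distrib]
      exact Finset.sum_congr rfl fun j _ => by ring
    rw [e4]
    linear_combination κ ^ 2 * hm
  · intro t ht x
    have hκt : 0 ≤ κ * t := by positivity
    have h1 := h.divFree (κ * t) hκt (x - t • a)
    have e : ∀ i, Pool.Agent.H356R3.NS.pd i (fun z => κ * u (κ * t) (z - t • a) i + a i) x =
        κ * Pool.Agent.H356R3.NS.pd i (fun z => u (κ * t) z i) (x - t • a) := fun i =>
      hpd _ (hsu (κ * t) hκt i) _ _ _ _ _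
    simp only [e]
    rw [← Finset.mul_sum, h1, mul_zero]
  · funext x i
    show κ * u (κ * 0) (x - (0 : ℝ) • a) i + a i = κ * v x i + a i
    rw [mul_zero, zero_smul, sub_zero, h.initial]

end Pool.Agent.K1H11.NS
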