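import Pool.Agent.K1H11.NS4.StepB
import Pool.Agent.K1H11.NS3.LocalF
import Pool.Agent.K1H11.NS3.HitF
import Pool.Agent.K1H11.NS3.OpenF

/-!
# Local solutions of a family of data
-/

open MeasureTheory Set Filter Topology
open scoped ENNReal NNReal

namespace Pool.Agent.K1H11.NS

/-- Every family of data has a family of local solutions. -/
theorem local_solB {c : ℝ} (hc : 0 < c) {Θ : Type} {V : Θ → K → C3} {v : K → ℝ} (rv : RM v)
    (hVs : ∀ θ, Sym (V θ)) (hV0 : ∀ θ, V θ 0 = 0) (hV : ∀ θ k, ‖V θ k‖ ≤ v k) :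
    ∃ (T : ℝ) (b : K → ℝ), 0 < T ∧ RM b ∧ ∃ F W : Θ → Fam, ∀ θ, CF (F θ) ∧ (∀ k t, t ≤ T → F θ k t = 0) ∧
      SolB c (F θ) b (V θ) (W θ) := by
  have hC := C0_pos
  have v0 := rv.nn
  have vs : Summable v := rv.rr.summ
  set D := ∑' k, v k + 1 with hD
  have hD0 : 0 < D := by have : 0 ≤ ∑' k, v k := tsum_nonneg v0; positivity
  obtain ⟨η, hη, happ⟩ := approxB hc hD0 one_pos
  set g : K → ℝ := fun k => C0 * nk k * conv v v k + (c * (sq k * v k) + v k) with hg
  have rg : RM g := (rv.q rv).add ((rv.sq.mul hc.le).add rv)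
  have g0 := rg.nn
  set Sg := ∑' k, g k with hSg
  have hSg0 : 0 ≤ Sg := tsum_nonneg g0
  set T := η / (2 * (Sg + 1)) with hT
  have hT0 : 0 < T := by positivity
  have hTS : 2 * T * Sg ≤ η := by
    have : 2 * T * (Sg + 1) = η := by rw [hT]; field_simp
    nlinarith
  have reb : RM fun k => 2 * T * g k := rg.mul (by positivity)
  obtain ⟨b', rb', happ'⟩ := happ v (fun k => 2 * T * g k) rv reb
  have key : ∀ θ, ∃ F W : Fam, CF F ∧ (∀ k t, t ≤ T → F k t = 0) ∧ SolB c F b' (V θ) W := by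
    intro θ
    set U : Fam := Ex 1 (V θ) with hU
    have hUcf : CF U := Ex_cf 1 (V θ)
    have hUn : ∀ k t, ‖U k t‖ ≤ v k := fun k t => (Ex_norm zero_le_one (V θ) k t).trans (hV θ k)
    have hUd : Dom U := ⟨v, vs, hUn⟩
    have hUs : SymF U := Ex_sym (hVs θ)
    have hU0 : ∀ t, U 0 t = 0 := fun t => by simp [hU, Ex, hV0 θ]
    have hs1 : Real.sqrt (1 / (2 * 1)) ≤ 1 := by
      rw [Real.sqrt_le_left one_pos.le]; norm_num
    have hUL : ∀ k, LN (fun t => ‖U k t‖ₑ) ≤ ENNReal.ofReal (v k) := by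
      intro k
      rw [hU, LN_Ex one_pos]
      apply ENNReal.ofReal_le_ofReal
      exact (mul_le_of_le_one_right (norm_nonneg _) hs1).trans (hV θ k)
    have sV : SN (V θ) := vs.of_nonneg_of_le (fun _ => norm_nonneg _) (hV θ)
    have hUX : XN U ≤ ENNReal.ofReal D := by
      refine (XN_Ex one_pos sV).trans (ENNReal.ofReal_le_ofReal ?_)
      have h1 : 0 ≤ ∑' k, ‖V θ k‖ := tsum_nonneg fun _ => norm_nonneg _
      have h2 : (∑' k, ‖V θ k‖) * Real.sqrt (1 / (2 * 1)) ≤ ∑' k, ‖V θ k‖ := mul_le_of_le_one_right h1 hs1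
      have h3 : ∑' k, ‖V θ k‖ ≤ ∑' k, v k := sV.tsum_le_tsum (hV θ) vs
      linarith
    set G : Fam := Bt U - fun k s => (c * sq k - 1) • Ex 1 (V θ) k s with hG
    have hBU : CF (Bt U) := Bt_cont hUcf hUd
    have hGcf : CF G := fun k => (hBU k).sub (smul_cf (Ex_cf 1 (V θ)) (fun k => c * sq k - 1) k)
    have hGs : SymF G := by
      intro t
      refine (Bt_sym hUs t).sub ?_
      intro k i
      show ((c * sq (-k) - 1) • Ex 1 (V θ) (-k) t) i = star (((c * sq k - 1) • Ex 1 (V θ) k t) i)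
      rw [sq_neg]
      exact smul_sym (Ex_sym (hVs θ) t) _ k i
    have hG0 : ∀ t, G 0 t = 0 := by
      intro t
      show Bt U 0 t - (c * sq 0 - 1) • Ex 1 (V θ) 0 t = 0
      simp [Ex, hV0 θ, Bt, Bf_zero]
    have hGn : ∀ k t, ‖G k t‖ ≤ g k := by
      intro k t
      have h1 : ‖Bt U k t‖ ≤ C0 * nk k * conv v v k := norm_Bf_conv vs vs (fun k => hUn k t) (fun k => hUn k t) k
      have h2 : ‖(c * sq k - 1) • Ex 1 (V θ) k t‖ ≤ c * (sq k * v k) + v k := by
        rw [norm_smul, Real.norm_eq_abs]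
        have h3 : |c * sq k - 1| ≤ c * sq k + 1 := by
          refine (abs_sub _ _).trans ?_
          rw [abs_of_nonneg (mul_nonneg hc.le (sq_nonneg' k)), abs_one]
        refine (mul_le_mul h3 (hUn k t) (norm_nonneg _) ((abs_nonneg _).trans h3)).trans (le_of_eq ?_)
        ring
      exact (norm_sub_le _ _).trans (add_le_add h1 h2)
    set F : Fam := fun k t => chi T t • G k t with hF
    have hFcf : CF F := fun k => (chi_cont T).smul (hGcf k)
    set FE : Fam := fun k t => (1 - chi T t) • G k t with hFE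
    have hFEcf : CF FE := fun k => (continuous_const.sub (chi_cont T)).smul (hGcf k)
    have hsum : F + FE = G := by
      funext k t
      show chi T t • G k t + (1 - chi T t) • G k t = G k t
      rw [← add_smul]; simp
    obtain ⟨W, hW, -⟩ := happ' F hFcf (V θ) U FE (fun k => 2 * T * g k) hUcf hUs hU0 hUn hUL hUX hFEcf
      (fun t k i => smul_sym (hGs t) _ k i) (fun t => by
        show (1 - chi T t) • G 0 t = 0
        rw [hG0, smul_zero]) reb.nn (fun k => le_rfl)
      (fun k => by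
        have h1 : ∀ t ∈ Ioi (0 : ℝ), ‖FE k t‖ₑ ≤ (Ioc 0 (2 * T)).indicator (fun _ => ENNReal.ofReal (g k)) t := by
          intro t ht
          by_cases h2 : t ≤ 2 * T
          · rw [indicator_of_mem (show t ∈ Ioc 0 (2 * T) from ⟨ht, h2⟩)]
            show ‖(1 - chi T t) • G k t‖ₑ ≤ _
            rw [enorm_smul, ← ofReal_norm (G k t), Real.enorm_of_nonneg (by linarith [chi_le_one T t]),
              ← ENNReal.ofReal_mul (by linarith [chi_le_one T t])]
            apply ENNReal.ofReal_le_ofReal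
            have h3 : 1 - chi T t ≤ 1 := by linarith [chi_nonneg T t]
            calc (1 - chi T t) * ‖G k t‖ ≤ 1 * ‖G k t‖ := mul_le_mul_of_nonneg_right h3 (norm_nonneg _)
              _ ≤ _ := by rw [one_mul]; exact hGn k t
          · push Not at h2
            have h3 : FE k t = 0 := by
              show (1 - chi T t) • G k t = 0
              rw [chi_one hT0 h2.le]; simp
            rw [h3]; simp
        calc ∫⁻ t in Ioi 0, ‖FE k t‖ₑ
            ≤ ∫⁻ t in Ioi 0, (Ioc 0 (2 * T)).indicator (fun _ => ENNReal.ofReal (g k)) t :=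
              setLIntegral_mono' measurableSet_Ioi h1
          _ ≤ ∫⁻ t, (Ioc 0 (2 * T)).indicator (fun _ => ENNReal.ofReal (g k)) t := setLIntegral_le_lintegral _ _
          _ = ENNReal.ofReal (2 * T * g k) := by
              rw [lintegral_indicator measurableSet_Ioc, setLIntegral_const, Real.volume_Ioc, sub_zero,
                ← ENNReal.ofReal_mul (g0 k)]
              congr 1; ring)
      (by
        have h1 : ∀ k, 2 * T * g k / nk k ≤ 2 * T * g k := by
          intro k
          have h2 : 0 ≤ 2 * T * g k := mul_nonneg (by positivity) (g0 k)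
          by_cases hk : k = 0
          · subst hk; rw [nk_zero, div_zero]; exact h2
          · exact div_le_self h2 (one_le_nk hk)
        have s2 : Summable fun k => 2 * T * g k := rg.rr.summ.mul_left _
        have s1 : Summable fun k => 2 * T * g k / nk k := s2.of_nonneg_of_le
          (fun k => div_nonneg (mul_nonneg (by positivity) (g0 k)) (nk_nonneg k)) h1
        refine (s1.tsum_le_tsum h1 s2).trans ?_
        rw [tsum_mul_left]
        exact hTS)
      (fun k t => by
        have e1 : Bt U - F - FE = fun k s => (c * sq k - 1) • Ex 1 (V θ) k s := by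
          rw [sub_sub, hsum, hG]; abel
        rw [e1]
        exact Ex_duh c 1 (V θ) k t)
    refine ⟨F, W, hFcf, fun k t ht => ?_, hW⟩
    show chi T t • G k t = 0
    rw [chi_zero hT0 ht, zero_smul]
  choose F W h1 h2 h3 using key
  exact ⟨T, b', hT0, rb', F, W, fun θ => ⟨h1 θ, h2 θ, h3 θ⟩⟩

lemma norm_ex_sub_one (k : K) (x : E3) : ‖ex k x - 1‖ ≤ 2 * Real.pi * ((∑ i, |x i|) * nk k) := by
  have hpi := Real.pi_pos
  have e : ex k x = Complex.exp (Complex.I * ((2 * Real.pi * ∑ j, (k j : ℝ) * x j : ℝ) : ℂ)) := by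
    unfold ex
    congr 1
    push_cast
    ring
  rw [e]
  refine (Real.norm_exp_I_mul_ofReal_sub_one_le).trans ?_
  rw [Real.norm_eq_abs, abs_mul, abs_of_pos (by positivity : 0 < 2 * Real.pi)]
  apply mul_le_mul_of_nonneg_left _ (by positivity)
  refine (Finset.abs_sum_le_sum_abs _ _).trans ?_
  rw [Finset.sum_mul]
  refine Finset.sum_le_sum fun i _ => ?_
  rw [abs_mul, mul_comm]
  exact mul_le_mul_of_nonneg_left (abs_le_nk k i) (abs_nonneg _)

/-- Local solutions stay near their data, with a common bound. -/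
lemma SolB.near {c T : ℝ} (hc : 0 < c) {F : Fam} (hF : ∀ k t, t ≤ T → F k t = 0) {b v : K → ℝ} (rb : RM b)
    (rv : RM v) {V : K → C3} (hV : ∀ k, ‖V k‖ ≤ v k) {W : Fam} (h : SolB c F b V W) (m : E3) {t : ℝ} (h0 : 0 ≤ t)
    (hT : t ≤ T) : An (W - PH m V) t ≤ t * ∑' k, (c * (sq k * v k) + C0 * nk k * conv b b k +
      2 * Real.pi * (∑ i, |m i|) * (nk k * v k)) := by
  have hpi := Real.pi_pos
  have hm0 : 0 ≤ ∑ i, |m i| := Finset.sum_nonneg fun _ _ => abs_nonneg _
  have rs : RM fun k => c * (sq k * v k) + C0 * nk k * conv b b k + 2 * Real.pi * (∑ i, |m i|) * (nk k * v k) :=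
    ((rv.sq.mul hc.le).add (rb.q rb)).add (rv.nk.mul (by positivity))
  obtain ⟨a, ha, hS⟩ := h.toSolF rb
  have hterm : ∀ k, ‖(W - PH m V) k t‖ ≤ t * (c * (sq k * v k) + C0 * nk k * conv b b k +
      2 * Real.pi * (∑ i, |m i|) * (nk k * v k)) := by
    intro k
    have hsq := sq_nonneg' k
    have hn := nk_nonneg k
    have e1 := hS.eq' hF k h0 hT
    have e2 : (W - PH m V) k t = ((Real.exp (-(c * sq k * t)) - 1) • V k) +
        (Real.exp (-(c * sq k * t)) • ∫ s in (0 : ℝ)..t, Real.exp (c * sq k * s) • Bt W k s) -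
        (ex k (t • m) - 1) • V k := by
      show W k t - ex k (t • m) • V k = _
      rw [e1, sub_smul, sub_smul, one_smul, one_smul]
      abel
    rw [e2]
    have hx : 0 ≤ c * sq k * t := by positivity
    have n1 : ‖(Real.exp (-(c * sq k * t)) - 1) • V k‖ ≤ t * (c * (sq k * v k)) := by
      rw [norm_smul, Real.norm_eq_abs]
      have h1 : |Real.exp (-(c * sq k * t)) - 1| ≤ c * sq k * t := by
        rw [abs_sub_comm, abs_of_nonneg (by
          rw [sub_nonneg, Real.exp_le_one_iff]; linarith)]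
        have := Real.add_one_le_exp (-(c * sq k * t))
        linarith
      calc _ ≤ (c * sq k * t) * v k := mul_le_mul h1 (hV k) (norm_nonneg _) hx
        _ = _ := by ring
    have n2 : ‖Real.exp (-(c * sq k * t)) • ∫ s in (0 : ℝ)..t, Real.exp (c * sq k * s) • Bt W k s‖ ≤
        t * (C0 * nk k * conv b b k) := by
      rw [← intervalIntegral.integral_smul]
      have h1 : ∀ s ∈ uIoc (0 : ℝ) t, ‖Real.exp (-(c * sq k * t)) • Real.exp (c * sq k * s) • Bt W k s‖ ≤
          C0 * nk k * conv b b k := by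
        intro s hs
        rw [uIoc_of_le h0] at hs
        rw [smul_smul, ← Real.exp_add, norm_smul, Real.norm_of_nonneg (Real.exp_pos _).le]
        have h2 : Real.exp (-(c * sq k * t) + c * sq k * s) ≤ 1 := by
          rw [Real.exp_le_one_iff]
          have : c * sq k * s ≤ c * sq k * t := mul_le_mul_of_nonneg_left hs.2 (by positivity)
          linarith
        have h3 : ‖Bt W k s‖ ≤ C0 * nk k * conv b b k :=
          norm_Bf_conv rb.rr.summ rb.rr.summ (fun k => h.bd k s) (fun k => h.bd k s) k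
        calc _ ≤ 1 * ‖Bt W k s‖ := mul_le_mul_of_nonneg_right h2 (norm_nonneg _)
          _ ≤ _ := by rw [one_mul]; exact h3
      refine (intervalIntegral.norm_integral_le_of_norm_le_const h1).trans (le_of_eq ?_)
      rw [sub_zero, abs_of_nonneg h0]; ring
    have n3 : ‖(ex k (t • m) - 1) • V k‖ ≤ t * (2 * Real.pi * (∑ i, |m i|) * (nk k * v k)) := by
      rw [norm_smul]
      have h1 : ‖ex k (t • m) - 1‖ ≤ 2 * Real.pi * ((∑ i, |m i|) * t * nk k) := by
        refine (norm_ex_sub_one k (t • m)).trans (le_of_eq ?_)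
        have : ∑ i, |(t • m) i| = (∑ i, |m i|) * t := by
          rw [Finset.sum_mul]
          refine Finset.sum_congr rfl fun i _ => ?_
          rw [Pi.smul_apply, smul_eq_mul, abs_mul, abs_of_nonneg h0, mul_comm]
        rw [this]
      calc _ ≤ (2 * Real.pi * ((∑ i, |m i|) * t * nk k)) * v k := mul_le_mul h1 (hV k) (norm_nonneg _)
            (by positivity)
        _ = _ := by ring
    refine (norm_sub_le _ _).trans ((add_le_add ((norm_add_le _ _).trans (add_le_add n1 n2)) n3).trans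
      (le_of_eq ?_))
    ring
  unfold An
  rw [← tsum_mul_left]
  have hs2 : Summable fun k => t * (c * (sq k * v k) + C0 * nk k * conv b b k +
      2 * Real.pi * (∑ i, |m i|) * (nk k * v k)) := rs.rr.summ.mul_left t
  exact (hs2.of_nonneg_of_le (fun _ => norm_nonneg _) hterm).tsum_le_tsum hterm hs2

/-- Uniform version of `late2F`. -/
lemma late2B {c : ℝ} (hc : 0 < c) {dl : ℝ} (hdl : 0 < dl) {ε : ℝ} (hε : 0 < ε) {bw : K → ℝ} (rbw : RM bw) :
    ∃ ε' : ℝ, 0 < ε' ∧ ∀ (T : ℝ) (F : Fam), (∀ k t, t ≤ T → F k t = 0) → ∀ (V : K → C3) (w : Fam),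
      SolB c F bw V w →
      ∀ (a : Wt), Sup a → ∀ (V : K → C3) (u : Fam), SolF c F a V u →
      LNd dl (u - w) ≤ ENNReal.ofReal ε' → ∀ t, 2 * dl ≤ t → t ≤ T → An (u - w) t ≤ ε := by
  have hb := rbw.rr.summ
  obtain ⟨hh, a1, a2, a3⟩ := exists_short hc (Mw := ∑' k, bw k) (b := dl) (tsum_nonneg rbw.nn) hdl
  set α := min (ε / 2) 1
  have hα : 0 < α := lt_min (by positivity) one_pos
  have hα1 : α ≤ 1 := min_le_right _ _
  have hα2 : α ≤ ε / 2 := min_le_left _ _
  have hsd : 0 < Real.sqrt hh := Real.sqrt_pos.2 a1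
  refine ⟨α * Real.sqrt hh / 2, by positivity, fun T F hF Vw w hw a ha V u hu hL t ht htT => ?_⟩
  have hMw : ∀ s, An w s ≤ ∑' k, bw k := fun s =>
    Summable.tsum_le_tsum (fun k => hw.bd k s)
      (hb.of_nonneg_of_le (fun _ => norm_nonneg _) fun k => hw.bd k s) hb
  have hwd : Dom w := hw.dom rbw
  obtain ⟨aw, haw, hwF⟩ := hw.toSolF rbw
  have hd : Dom u := hu.dom' ha
  have hdd := hd.sub hwd
  obtain ⟨t0, ht0, hA⟩ : ∃ t0 ∈ Ioo (t - hh) t, An (u - w) t0 ≤ α := by
    by_contra hcon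
    push Not at hcon
    have h1 : ENNReal.ofReal (α * Real.sqrt hh) ≤ LNd dl (u - w) := by
      unfold LNd LN
      have h2 : ENNReal.ofReal (α ^ 2 * hh) ≤
          ∫⁻ t in Ioi 0, ((Ioi dl).indicator (fun t => NW (Wa Wt.one) (at' (u - w) t)) t) ^ (2 : ℝ) := by
        calc ENNReal.ofReal (α ^ 2 * hh) = ∫⁻ t in Ioo (t - hh) t, ENNReal.ofReal (α ^ 2) := by
              rw [setLIntegral_const, Real.volume_Ioo, ← ENNReal.ofReal_mul (by positivity)]
              congr 1; ring
          _ ≤ ∫⁻ t in Ioo (t - hh) t,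
              ((Ioi dl).indicator (fun t => NW (Wa Wt.one) (at' (u - w) t)) t) ^ (2 : ℝ) := by
              refine setLIntegral_mono' measurableSet_Ioo fun s hs => ?_
              rw [indicator_of_mem (show s ∈ Ioi dl from by
                have := hs.1; simp only [mem_Ioi]; linarith), NW_Wa_zero]
              show _ ≤ (∑' k, ‖(u - w) k s‖ₑ) ^ (2 : ℝ)
              rw [An_eq hdd, ENNReal.rpow_two, ← ENNReal.ofReal_pow (An_nonneg _ s)]
              apply ENNReal.ofReal_le_ofReal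
              exact pow_le_pow_left₀ hα.le (hcon s hs).le 2
          _ ≤ _ := lintegral_mono_set fun s hs => by
              have := hs.1
              simp only [mem_Ioi]; linarith
      calc ENNReal.ofReal (α * Real.sqrt hh) = (ENNReal.ofReal (α ^ 2 * hh)) ^ (1 / 2 : ℝ) := by
            rw [ENNReal.ofReal_rpow_of_nonneg (by positivity) (by norm_num), ← Real.sqrt_eq_rpow,
              Real.sqrt_mul (by positivity), Real.sqrt_sq hα.le]
        _ ≤ _ := ENNReal.rpow_le_rpow h2 (by norm_num)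
    have h3 := h1.trans hL
    rw [ENNReal.ofReal_le_ofReal_iff (by positivity)] at h3
    have : 0 < α * Real.sqrt hh := by positivity
    linarith
  have := short hc hu.cf hd hw.cf hwd (hu.DS ha fun k s hs => hF k s (hs.trans htT))
    (hwF.DS haw fun k s hs => hF k s (hs.trans htT)) (fun s _ _ => hMw s) a3 hα hα1
    (by linarith [ht0.1] : 0 ≤ t0) hA ht0.2.le (by linarith [ht0.1]) le_rfl
  linarith

/-- Uniform version of `hit2`. -/
lemma hitB {c T : ℝ} (hT : 0 < T) (hc : 0 < c) {b v : K → ℝ} (rb : RM b) (rv : RM v) (m : E3) {ε bd : ℝ}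
    (hε : 0 < ε) (hbd : 0 < bd) : ∃ T1 τ : ℝ, 0 < T1 ∧ T1 ≤ bd ∧ T1 ≤ T ∧ 0 < τ ∧
      ∀ (F : Fam), (∀ k t, t ≤ T → F k t = 0) → ∀ (V : K → C3), (∀ k, ‖V k‖ ≤ v k) → ∀ (W : Fam), SolB c F b V W →
      ∀ (a' : Wt), Sup a' → ∀ (V' : K → C3) (U : Fam), SolF c F a' V' U → LNd (T1 / 4) (U - W) ≤ ENNReal.ofReal τ →
        ∀ t, T1 / 2 ≤ t → t ≤ T1 → An (U - PH m V) t ≤ ε := by
  have hpi := Real.pi_pos
  have hm0 : 0 ≤ ∑ i, |m i| := Finset.sum_nonneg fun _ _ => abs_nonneg _
  have rs : RM fun k => c * (sq k * v k) + C0 * nk k * conv b b k + 2 * Real.pi * (∑ i, |m i|) * (nk k * v k) :=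
    ((rv.sq.mul hc.le).add (rb.q rb)).add (rv.nk.mul (by positivity))
  set SS := ∑' k, (c * (sq k * v k) + C0 * nk k * conv b b k + 2 * Real.pi * (∑ i, |m i|) * (nk k * v k)) with hSS
  have hSS0 : 0 ≤ SS := tsum_nonneg rs.nn
  set T1 := min (ε / (2 * (SS + 1))) (min bd T) with hT1
  have hT10 : 0 < T1 := lt_min (by positivity) (lt_min hbd hT)
  have hT1r : T1 ≤ ε / (2 * (SS + 1)) := min_le_left _ _
  have hT1b : T1 ≤ bd := (min_le_right _ _).trans (min_le_left _ _)
  have hT1T : T1 ≤ T := (min_le_right _ _).trans (min_le_right _ _)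
  have hT1S : T1 * SS ≤ ε / 2 := by
    calc T1 * SS ≤ ε / (2 * (SS + 1)) * (SS + 1) := by
          apply mul_le_mul hT1r (by linarith) hSS0 (by positivity)
      _ = ε / 2 := by field_simp
  obtain ⟨τ, hτ, hlate⟩ := late2B hc (dl := T1 / 4) (by positivity) (half_pos hε) rb
  refine ⟨T1, τ, hT10, hT1b, hT1T, hτ, fun F hF V hV W hW a' ha' V' U hU hL t ht1 ht2 => ?_⟩
  have hWd := hW.dom rb
  have hVs : SN V := rv.rr.summ.of_nonneg_of_le (fun _ => norm_nonneg _) hV
  have hPd := PH_dom m hVs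
  have hA := hlate T F hF V W hW a' ha' V' U hU hL t (by linarith) (ht2.trans hT1T)
  have ht0 : 0 ≤ t := by linarith
  have h2 : An (W - PH m V) t ≤ ε / 2 := by
    refine (hW.near hc hF rb rv hV m ht0 (ht2.trans hT1T)).trans (le_trans ?_ hT1S)
    exact mul_le_mul_of_nonneg_right ht2 hSS0
  have h3 : An (U - PH m V) t ≤ An (W - PH m V) t + An (U - W) t := by
    have := An_sub_le (u := U - PH m V) (w := W - PH m V) ((hU.dom' ha').sub hPd) (hWd.sub hPd) t
    have e : U - PH m V - (W - PH m V) = U - W := by abel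
    rwa [e] at this
  linarith

/-- Small changes of the datum in the Lei-Lin norm, uniformly. -/
theorem openB {c : ℝ} (hc : 0 < c) {bu : K → ℝ} (rbu : RM bu) {τ : ℝ} (hτ : 0 < τ) : ∃ δ : ℝ, 0 < δ ∧
    ∀ (F : Fam), CF F → ∀ (V : K → C3) (u : Fam), SolB c F bu V u → ∀ h : K → C3, Sym h → h 0 = 0 →
      RR (fun k => ‖h k‖) →
      ∑' k, ‖h k‖ / nk k ≤ δ → ∃ a' : Wt, Sup a' ∧ ∃ u' : Fam, SolF c F a' (V + h) u' ∧
        XN (u' - u) ≤ ENNReal.ofReal τ := by
  have hC := C0_pos
  have bu0 := rbu.nn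
  have bur := rbu.rr
  set B := ∑' k, bu k
  have hB0 : 0 ≤ B := tsum_nonneg bu0
  set D := B + 1 with hD
  have hD0 : 0 < D := by positivity
  obtain ⟨η, hη, happ⟩ := approxF_gen (c := c) (D := D) (τ := τ / 2) hc hD0 (half_pos hτ)
  set s := 1 / Real.sqrt (2 * c) with hs
  have hs0 : 0 < s := by positivity
  set δ := min 1 (min (τ / 2) (η / (C0 * (2 * B + 1)))) / s with hδ
  have hδ0 : 0 < δ := div_pos (lt_min one_pos (lt_min (half_pos hτ) (by positivity))) hs0
  refine ⟨δ, hδ0, fun F hCF V u hu h hsym h0 hr hle => ?_⟩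
  have hud := hu.dom rbu
  have bub := hu.bd
  have buL := hu.l2
  set hl : K → ℝ := fun k => ‖h k‖ / nk k * s with hhl
  have hl0 : ∀ k, 0 ≤ hl k := fun k => mul_nonneg (div_nonneg (norm_nonneg _) (nk_nonneg k)) hs0.le
  have hdn : ∀ k, ‖h k‖ / nk k ≤ ‖h k‖ := fun k => by
    by_cases hk : k = 0
    · subst hk; rw [nk_zero, div_zero]; exact norm_nonneg _
    · exact div_le_self (norm_nonneg _) (one_le_nk hk)
  have hlr : RR hl := (hr.mul s).mono hl0 fun k => by
    simp only [hhl]; rw [mul_comm]; exact mul_le_mul_of_nonneg_left (hdn k) hs0.le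
  set H := ∑' k, hl k with hH
  have hH0 : 0 ≤ H := tsum_nonneg hl0
  have hHle : H ≤ min 1 (min (τ / 2) (η / (C0 * (2 * B + 1)))) := by
    rw [hH, hhl, tsum_mul_right]
    calc _ ≤ δ * s := mul_le_mul_of_nonneg_right hle hs0.le
      _ = _ := by rw [hδ, div_mul_cancel₀ _ hs0.ne']
  have hH1 : H ≤ 1 := hHle.trans (min_le_left _ _)
  have hH2 : H ≤ τ / 2 := hHle.trans ((min_le_right _ _).trans (min_le_left _ _))
  have hH3 : H ≤ η / (C0 * (2 * B + 1)) := hHle.trans ((min_le_right _ _).trans (min_le_right _ _))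
  set Ht := Heat c h with hHt
  have Htcf : CF Ht := Heat_cf c h
  have Htsym : SymF Ht := Heat_sym hsym
  have HtL : ∀ k, LN (fun t => ‖Ht k t‖ₑ) ≤ ENNReal.ofReal (hl k) := LN_Heat hc h0
  have Htd : Dom Ht := ⟨fun k => ‖h k‖, hr.summ, fun k t => Heat_norm hc h k t⟩
  have Ht0 : ∀ t, Ht 0 t = 0 := fun t => by simp [hHt, Heat, h0]
  have HtX : XN Ht ≤ ENNReal.ofReal H := by
    unfold XN
    have h1 : ∀ t, NW (Wa Wt.one) (at' Ht t) = ∑' k, ‖Ht k t‖ₑ := fun t => NW_Wa_zero _
    simp_rw [h1]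
    refine (LN_tsum fun k => (Htcf k).enorm.measurable).trans ?_
    rw [hH, ENNReal.ofReal_tsum_of_nonneg hl0 hlr.summ]
    exact ENNReal.tsum_le_tsum HtL
  set U := u + Ht with hU
  have Ucf : CF U := fun k => (hu.cf k).add (Htcf k)
  have Ud : Dom U := hud.add Htd
  set FE : Fam := Bt U - Bt u with hFE
  have BU := Bt_cont Ucf Ud
  have Bu := Bt_cont hu.cf hud
  have UL : ∀ k, LN (fun t => ‖U k t‖ₑ) ≤ ENNReal.ofReal (bu k + hl k) := by
    intro k
    rw [ENNReal.ofReal_add (bu0 k) (hl0 k)]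
    refine (LN_mono fun t _ => enorm_add_le (u k t) (Ht k t)).trans ?_
    exact (LN_add_le (hu.cf k).enorm.measurable (Htcf k).enorm.measurable).trans (add_le_add (buL k) (HtL k))
  set e : K → ℝ := fun k => C0 * nk k * conv hl (fun k => bu k + hl k) k + C0 * nk k * conv bu hl k with he
  have bh0 : ∀ k, 0 ≤ bu k + hl k := fun k => add_nonneg (bu0 k) (hl0 k)
  have bhr : RR fun k => bu k + hl k := bur.add hlr
  have q : ∀ {x y : K → ℝ}, (∀ k, 0 ≤ x k) → (∀ k, 0 ≤ y k) → RR x → RR y →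
      RR (fun k => C0 * nk k * conv x y k) := by
    intro x y hx hy rx ry
    have := ((RR.conv hx hy rx ry).nk (conv_nonneg hx hy)).mul C0
    exact fun m => (this m).congr fun k => by ring
  have e0 : ∀ k, 0 ≤ e k := fun k => by
    have c1 := conv_nonneg hl0 bh0 k
    have c2 := conv_nonneg bu0 hl0 k
    have := nk_nonneg k
    simp only [he]; positivity
  have er : RR e := (q hl0 bh0 hlr bhr).add (q bu0 hl0 bur hlr)
  have eL : ∀ k, ∫⁻ t in Ioi 0, ‖FE k t‖ₑ ≤ ENNReal.ofReal (e k) := by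
    intro k
    have c1 := conv_nonneg hl0 bh0 k
    have c2 := conv_nonneg bu0 hl0 k
    have hn := nk_nonneg k
    have e1 : ∀ t, FE k t = Bf (at' Ht t) (at' U t) k + Bf (at' u t) (at' Ht t) k := by
      intro t
      have := congrFun (Bf_diff (Ud.sn t) (hud.sn t)) k
      have e2 : at' U t - at' u t = at' Ht t := by
        funext l; show u l t + Ht l t - u l t = Ht l t; abel
      rw [e2] at this
      exact this
    have m1 : Measurable fun t => ‖Bf (at' Ht t) (at' U t) k‖ₑ := (BB_cont Htcf Ucf Htd Ud k).enorm.measurable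
    calc ∫⁻ t in Ioi 0, ‖FE k t‖ₑ ≤ ∫⁻ t in Ioi 0, (‖Bf (at' Ht t) (at' U t) k‖ₑ + ‖Bf (at' u t) (at' Ht t) k‖ₑ) := by
          refine lintegral_mono fun t => ?_
          show ‖FE k t‖ₑ ≤ _
          rw [e1 t]
          exact enorm_add_le _ _
      _ = (∫⁻ t in Ioi 0, ‖Bf (at' Ht t) (at' U t) k‖ₑ) + ∫⁻ t in Ioi 0, ‖Bf (at' u t) (at' Ht t) k‖ₑ :=
          lintegral_add_left m1 _
      _ ≤ ENNReal.ofReal (C0 * nk k * conv hl (fun k => bu k + hl k) k) + ENNReal.ofReal (C0 * nk k * conv bu hl k) :=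
          add_le_add (lint_Bf Htcf Ucf hl0 bh0 hlr.summ bhr.summ HtL UL k)
            (lint_Bf hu.cf Htcf bu0 hl0 bur.summ hlr.summ buL HtL k)
      _ = _ := by rw [← ENNReal.ofReal_add (by positivity) (by positivity)]
  have esum : ∑' k, e k / nk k ≤ η := by
    obtain ⟨s1, t1⟩ := summable_conv hl0 bh0 hlr.summ bhr.summ
    obtain ⟨s2, t2⟩ := summable_conv bu0 hl0 bur.summ hlr.summ
    have hle' : ∀ k, e k / nk k ≤ C0 * (conv hl (fun k => bu k + hl k) k + conv bu hl k) := by
      intro k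
      have c1 := conv_nonneg hl0 bh0 k
      have c2 := conv_nonneg bu0 hl0 k
      have e3 : e k / nk k = nk k * (C0 * (conv hl (fun k => bu k + hl k) k + conv bu hl k)) / nk k := by
        simp only [he]; ring
      rw [e3]
      exact div_nk_le (by positivity) k
    have s3 : Summable fun k => C0 * (conv hl (fun k => bu k + hl k) k + conv bu hl k) := (s1.add s2).mul_left C0
    have s0 : Summable fun k => e k / nk k := s3.of_nonneg_of_le (fun k => div_nonneg (e0 k) (nk_nonneg k)) hle'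
    refine (s0.tsum_le_tsum hle' s3).trans ?_
    rw [tsum_mul_left, s1.tsum_add s2, t1, t2, bur.summ.tsum_add hlr.summ]
    have h1 : C0 * (H * (B + H) + B * H) ≤ C0 * (2 * B + 1) * H := by
      have : H * H ≤ 1 * H := mul_le_mul_of_nonneg_right hH1 hH0
      nlinarith
    refine h1.trans ?_
    rw [le_div_iff₀ (by positivity)] at hH3
    linarith
  have XU : XN U ≤ ENNReal.ofReal D := by
    refine (XN_add hu.cf Htcf).trans ?_
    rw [hD, ENNReal.ofReal_add hB0 zero_le_one]
    exact add_le_add (hu.XN_le rbu) (HtX.trans (ENNReal.ofReal_le_ofReal hH1))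
  obtain ⟨a', ha', u', hu', hX'⟩ := happ F hCF (V + h) U FE (fun k => bu k + hl k + ‖h k‖) e Ucf
    (fun t => (hu.sym t).add (Htsym t)) (fun t => by
      show u 0 t + Ht 0 t = 0
      rw [hu.z, Ht0, add_zero])
    (fun k => add_nonneg (bh0 k) (norm_nonneg _)) (bhr.add hr)
    (fun k t => by
      have h1 := bub k t
      have h2 := Heat_norm hc h k t
      have h3 := hl0 k
      have h4 : ‖U k t‖ ≤ ‖u k t‖ + ‖Ht k t‖ := norm_add_le _ _
      show ‖U k t‖ ≤ bu k + hl k + ‖h k‖
      linarith)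
    (fun k => (UL k).trans (ENNReal.ofReal_le_ofReal (by
      have := norm_nonneg (h k)
      linarith))) XU (fun k => (BU k).sub (Bu k)) (fun t => (Bt_sym (fun t => (hu.sym t).add (Htsym t)) t).sub
        (Bt_sym hu.sym t))
    (fun t => by
      show Bt U 0 t - Bt u 0 t = 0
      simp [Bt, Bf_zero]) e0 er eL esum
    (fun k t => by
      have e4 : Bt U - F - FE = Bt u - F := by rw [hFE]; abel
      rw [e4]
      show u k t + Ht k t = _
      rw [hu.eq k t]
      show _ + _ + Real.exp (-(c * sq k * max t 0)) • h k = Real.exp (-(c * sq k * max t 0)) • (V k + h k) + _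
      rw [smul_add]
      abel)
  refine ⟨a', ha', u', hu', ?_⟩
  have e5 : u' - u = (u' - U) + Ht := by rw [hU]; abel
  rw [e5]
  have c1 : CF (u' - U) := fun k => (hu'.cf k).sub (Ucf k)
  refine (XN_add c1 Htcf).trans ((add_le_add hX' (HtX.trans (ENNReal.ofReal_le_ofReal hH2))).trans (le_of_eq ?_))
  rw [← ENNReal.ofReal_add (by positivity) (by positivity)]
  congr 1; ring

end Pool.Agent.K1H11.NS
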