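import Pool.Agent.K1H11.NS4.DescB
import Pool.Agent.K1H11.NS4.LocB
import Pool.Agent.K1H11.NS3.ZeroOne

/-!
# Steering to a family of data
-/

open MeasureTheory Set Filter Topology
open scoped ENNReal NNReal ContDiff

namespace Pool.Agent.K1H11.NS

open H459R3.NS (ee fr cube S SP Per D Rap IsSol)
open Pool.Agent.H356R3.NS (AdmissiblePeriodic R3 shellSum critNorm leiLin)

lemma FV_maj {Θ : Type} [TopologicalSpace Θ] {v : Θ → E3 → E3} (hv : ∀ i, UC fun θ x => v θ x i) :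
    ∃ b : K → ℝ, RM b ∧ ∀ θ k, ‖FV (v θ) k‖ ≤ b k := by
  obtain ⟨b, hb, hb'⟩ := UC.maj3 (B := fun θ i x => v θ x i) hv
  refine ⟨b, hb, fun θ k => ?_⟩
  have hs : ∀ i, SP fun x => v θ x i := fun i => (hv i).sp θ
  rw [pi_norm_le_iff_of_nonneg (hb.nn k)]
  intro i
  by_cases hk : k = 0
  · subst hk
    rw [FV_zero hs, norm_zero]; exact hb.nn 0
  · rw [FV_eq hs hk]
    exact hb' θ i k

theorem physB {Θ : Type} [TopologicalSpace Θ] {Fo : Θ → Fam} (hCF : ∀ θ, CF (Fo θ)) {ν : ℝ} (hν : 0 < ν)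
    {u₀ w₀ : Θ → E3 → E3} (hu : ∀ i, UC fun θ x => u₀ θ x i)
    (hdiv : ∀ θ x, ∑ i, H459R3.NS.pd i (fun y => u₀ θ y i) x = 0) (hw : ∀ i, UC fun θ x => w₀ θ x i)
    (hdivw : ∀ θ x, ∑ i, H459R3.NS.pd i (fun y => w₀ θ y i) x = 0)
    (hm : ∀ θ i, ∫ x in cube, w₀ θ x i = ∫ x in cube, u₀ θ x i) {bw : K → ℝ} (rbw : RM bw) {W : Θ → Fam}
    (hW : ∀ θ, SolB (4 * Real.pi ^ 2 * ν) (Fo θ) bw (FV (w₀ θ)) (W θ)) {η : ℝ} (h0 : 0 < η) (h1 : η ≤ 1 / 4)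
    {g : ℝ → ℝ} (hg : Cut η g) {A Q : ℝ} (hA : ∀ cc M, wn (gM g cc M) ≤ A)
    (hQ : ∀ cc M, wn (gM (fun y => g y ^ 2 - 1) cc M) ≤ Q) {J : ℕ} (hJ : 1 ≤ J) {dl τ : ℝ} (hdl : 0 < dl) (hτ : 0 < τ)
    {R ρ : ℝ} (hρ : 0 < ρ) :
    ∃ (v₀ : Θ → E3 → E3) (δ : ℝ), 0 < δ ∧ (∀ i, UC fun θ x => v₀ θ x i) ∧
      (∀ θ x, ∑ i, H459R3.NS.pd i (fun y => v₀ θ y i) x = 0) ∧
      (∀ θ i, ∫ x in cube, v₀ θ x i = ∫ x in cube, u₀ θ x i) ∧
      volume {x | x ∈ Icc (0 : E3) 1 ∧ ∃ θ, v₀ θ x ≠ u₀ θ x} ≤ ENNReal.ofReal (12 * η) ∧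
      (∀ θ, leiLin (fun k => Pool.Agent.H356R3.NS.fc (v₀ θ) k - Pool.Agent.H356R3.NS.fc (u₀ θ) k) ≤
        ENNReal.ofReal (2 * PP A ^ 2 * (4 * Real.pi ^ 2 * ν) * Real.sqrt J)) ∧
      (∀ θ (r : ℝ), 1 ≤ r → critNorm r (fun k => Pool.Agent.H356R3.NS.fc (v₀ θ) k - Pool.Agent.H356R3.NS.fc (u₀ θ) k) ≤
        ENNReal.ofReal (8 * PP A ^ 2 * (4 * Real.pi ^ 2 * ν) * (J : ℝ) ^ (1 / r - 1 / 2))) ∧
      (∀ θ k, nk k ≤ R → ‖Pool.Agent.H356R3.NS.fc (v₀ θ) k - Pool.Agent.H356R3.NS.fc (u₀ θ) k‖ ≤ ρ) ∧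
      ∀ θ (z₀ : E3 → E3), (∀ i, SP fun x => z₀ x i) → (∀ x, ∑ i, H459R3.NS.pd i (fun y => z₀ y i) x = 0) →
        (∀ i, ∫ x in cube, z₀ x i = ∫ x in cube, u₀ θ x i) →
        leiLin (fun k => Pool.Agent.H356R3.NS.fc z₀ k - Pool.Agent.H356R3.NS.fc (v₀ θ) k) ≤ ENNReal.ofReal δ →
        ∃ a2 : Wt, Sup a2 ∧ ∃ U2 : Fam, SolF (4 * Real.pi ^ 2 * ν) (Fo θ) a2 (FV z₀) U2 ∧
          LNd dl (U2 - W θ) ≤ ENNReal.ofReal τ := by
  set c := 4 * Real.pi ^ 2 * ν with hcdef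
  have hpi := Real.pi_pos
  have hc : 0 < c := by positivity
  have hws : ∀ θ i, SP fun x => w₀ θ x i := fun θ i => (hw i).sp θ
  have hus : ∀ θ i, SP fun x => u₀ θ x i := fun θ i => (hu i).sp θ
  have hGS : ∀ i, UC fun θ x => w₀ θ x i - u₀ θ x i := fun i => (hw i).sub (hu i)
  have hGf : ∀ θ i k, fr (fun x => w₀ θ x i - u₀ θ x i) k = fr (fun x => w₀ θ x i) k - fr (fun x => u₀ θ x i) k :=
    fun θ i k => fr_sub (hws θ i) (hus θ i) k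
  have hV : ∀ θ, FV (w₀ θ) = FV (u₀ θ) + fun k i => fr (fun x => w₀ θ x i - u₀ θ x i) k := by
    intro θ
    funext k i
    show FV (w₀ θ) k i = FV (u₀ θ) k i + fr (fun x => w₀ θ x i - u₀ θ x i) k
    rw [hGf]
    by_cases hk : k = 0
    · subst hk
      rw [FV_zero (hws θ), FV_zero (hus θ), fr_zero, fr_zero, hm]; ring
    · rw [FV_eq (hws θ) hk, FV_eq (hus θ) hk]; ring
  simp_rw [hV] at hW
  obtain ⟨M, B, hM, hB, hBz, hBl, hBn, hBc, b', rb', U, hU⟩ := reachB hCF hc hg hA hQ (V0 := fun θ => FV (u₀ θ))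
    (half_pos hτ) hdl (G := fun θ i x => w₀ θ x i - u₀ θ x i) hGS
    (fun θ k => by
      have e1 := fr_div (hws θ) (hdivw θ) k
      have e2 := fr_div (hus θ) (hdiv θ) k
      simp_rw [hGf, mul_sub]
      rw [Finset.sum_sub_distrib, e1, e2, sub_zero])
    (fun θ i => by rw [hGf, fr_zero, fr_zero, hm, sub_self]) rbw hW hJ (R := R) hρ
  have hBs : ∀ θ i, SP (B θ i) := fun θ i => (hB i).sp θ
  set v₀ : Θ → E3 → E3 := fun θ x i => u₀ θ x i + cu (B θ) i x with hv₀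
  have hvU : ∀ i, UC fun θ x => v₀ θ x i := fun i => (hu i).add (UC.cu hB i)
  have hvSP : ∀ θ i, SP fun x => v₀ θ x i := fun θ i => (hvU i).sp θ
  have hfv : ∀ θ i k, fr (fun x => v₀ θ x i) k = fr (fun x => u₀ θ x i) k + cF (fun i => fr (B θ i)) k i := by
    intro θ i k
    have := fr_add (hus θ i) (cu_SP (hBs θ) i) k
    rw [fr_cu (hBs θ)] at this
    exact this
  have hmv : ∀ θ i, ∫ x in cube, v₀ θ x i = ∫ x in cube, u₀ θ x i := by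
    intro θ i
    have h1 : ∫ x in cube, cu (B θ) i x = 0 := by
      have h2 := fr_cu (hBs θ) i 0
      rw [cF_zero, fr_zero, Pi.zero_apply] at h2
      exact_mod_cast h2
    show ∫ x in cube, (u₀ θ x i + cu (B θ) i x) = _
    rw [integral_add, h1, add_zero]
    · exact H459R3.NS.integrableOn_cube (hus θ i).smooth.continuous
    · exact H459R3.NS.integrableOn_cube (cu_SP (hBs θ) i).smooth.continuous
  have hVv : ∀ θ, FV (u₀ θ) + (cF fun i => fr (B θ i)) = FV (v₀ θ) := by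
    intro θ
    funext k i
    show FV (u₀ θ) k i + cF (fun i => fr (B θ i)) k i = FV (v₀ θ) k i
    by_cases hk : k = 0
    · subst hk; rw [FV_zero (hus θ), FV_zero (hvSP θ), cF_zero]; simp
    · rw [FV_eq (hus θ) hk, FV_eq (hvSP θ) hk, hfv]
  have hd : ∀ θ, (fun k => Pool.Agent.H356R3.NS.fc (v₀ θ) k - Pool.Agent.H356R3.NS.fc (u₀ θ) k) =
      cF fun i => fr (B θ i) := by
    intro θ
    funext k i
    show Pool.Agent.H356R3.NS.fc (v₀ θ) k i - Pool.Agent.H356R3.NS.fc (u₀ θ) k i = _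
    rw [fc_eq_fr, fc_eq_fr, hfv]; ring
  have hvdt : ∀ θ k, dt k (FV (v₀ θ) k) = 0 := by
    intro θ k
    have e1 := FV_dt (hus θ) (hdiv θ) k
    have e2 := cF_div (fun i => fr (B θ i)) k
    rw [← hVv]
    unfold dt at e1 e2 ⊢
    simp only [Pi.add_apply, mul_add, Finset.sum_add_distrib]
    rw [e1, e2, add_zero]
  have hvdiv : ∀ θ x, ∑ i, H459R3.NS.pd i (fun y => v₀ θ y i) x = 0 := fun θ => div_of_FV (hvSP θ) (hvdt θ)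
  obtain ⟨δ, hδ, hopen⟩ := openB hc rb' (half_pos hτ)
  refine ⟨v₀, δ, hδ, hvU, hvdiv, hmv, ?_, ?_, ?_, ?_, ?_⟩
  · have hsub : {x | x ∈ Icc (0 : E3) 1 ∧ ∃ θ, v₀ θ x ≠ u₀ θ x}
        ⊆ ⋃ j ∈ (Finset.univ : Finset (Fin 3)), {x : E3 | x ∈ cube ∧ x j ∈ Tb η M} := by
      rintro x ⟨hx, θ, hne⟩
      by_contra hcon
      simp only [Finset.mem_univ, iUnion_true, mem_iUnion, mem_setOf_eq, not_exists, not_and] at hcon
      apply hne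
      have hz : ∀ j, g (M * x j) = 0 := by
        intro j
        apply hg.supp
        intro n
        by_contra hn
        push Not at hn
        exact hcon j hx (mem_Tb h1 hM (hx.1 j) (hx.2 j) hn)
      funext i
      show u₀ θ x i + cu (B θ) i x = u₀ θ x i
      rw [hBz θ x hz i, add_zero]
    refine (measure_mono hsub).trans ((measure_biUnion_finset_le _ _).trans ?_)
    calc ∑ j : Fin 3, volume {x : E3 | x ∈ cube ∧ x j ∈ Tb η M} ≤ ∑ _j : Fin 3, ENNReal.ofReal (4 * η) :=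
          Finset.sum_le_sum fun j _ => vol_bad h0 hM j
      _ = ENNReal.ofReal (12 * η) := by
          rw [Finset.sum_const, Finset.card_univ, Fintype.card_fin, nsmul_eq_mul,
            show ((3 : ℕ) : ℝ≥0∞) = ENNReal.ofReal (3 : ℝ) by norm_num, ← ENNReal.ofReal_mul (by norm_num)]
          congr 1; ring
  · intro θ
    rw [hd, leiLin_eq (sn_cF (hBs θ))]
    exact ENNReal.ofReal_le_ofReal (hBn θ)
  · intro θ r hr
    rw [hd]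
    exact hBc θ r hr
  · intro θ k hk
    have := congrFun (hd θ) k
    rw [this]
    exact hBl θ k hk
  · intro θ z₀ hz hdz hmz hle
    set h : K → C3 := FV z₀ - FV (v₀ θ) with hh
    have hrr : RR fun k => ‖h k‖ := ((FV_rr hz).add (FV_rr (hvSP θ))).mono (fun _ => norm_nonneg _)
      fun k => norm_sub_le _ _
    have hle2 : ∑' k, ‖h k‖ / nk k ≤ δ := by
      have e1 : leiLin (fun k => Pool.Agent.H356R3.NS.fc z₀ k - Pool.Agent.H356R3.NS.fc (v₀ θ) k) = leiLin h := by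
        refine leiLin_congr fun k hk => ?_
        show _ = FV z₀ k - FV (v₀ θ) k
        rw [FV_eq_fc hz hk, FV_eq_fc (hvSP θ) hk]
      rw [e1, leiLin_eq hrr.summ] at hle
      exact (ENNReal.ofReal_le_ofReal_iff hδ.le).1 hle
    obtain ⟨a2, ha2, U2, hU2, hX2⟩ := hopen (Fo θ) (hCF θ) _ (U θ) (hU θ).1 h
      ((FV_sym z₀).sub (FV_sym (v₀ θ))) (by
      funext i
      show FV z₀ 0 i - FV (v₀ θ) 0 i = 0
      rw [FV_zero hz, FV_zero (hvSP θ), sub_zero]) hrr hle2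
    have e2 : FV (u₀ θ) + (cF fun i => fr (B θ i)) + h = FV z₀ := by rw [hVv, hh]; abel
    rw [e2] at hU2
    refine ⟨a2, ha2, U2, hU2, ?_⟩
    have e3 : U2 - W θ = (U2 - U θ) + (U θ - W θ) := by abel
    rw [e3]
    have c1 : CF (U2 - U θ) := fun k => (hU2.cf k).sub ((hU θ).1.cf k)
    have c2 : CF (U θ - W θ) := fun k => ((hU θ).1.cf k).sub ((hW θ).cf k)
    refine (LNd_add _ c1 c2).trans ((add_le_add ((LNd_le_XN _ _).trans hX2) (hU θ).2).trans (le_of_eq ?_))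
    rw [← ENNReal.ofReal_add (by positivity) (by positivity)]
    congr 1; ring

theorem fin_B : ∃ C : ℝ, 0 < C ∧ ∀ (ν : ℝ), 0 < ν → ∀ (Θ : Type) [TopologicalSpace Θ] (u₀ b₀ : Θ → E3 → E3),
    (∀ i, UC fun θ x => u₀ θ x i) → (∀ θ x, ∑ i, H459R3.NS.pd i (fun y => u₀ θ y i) x = 0) →
    (∀ i, UC fun θ x => b₀ θ x i) → (∀ θ x, ∑ i, H459R3.NS.pd i (fun y => b₀ θ y i) x = 0) →
    ∀ m : E3, (∀ θ i, ∫ x in cube, u₀ θ x i = m i) → (∀ θ i, ∫ x in cube, b₀ θ x i = m i) →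
    ∀ (η ε ε' : ℝ), 0 < η → η ≤ 1 → 0 < ε → 0 < ε' → ∀ (J K0 : ℕ), 1 ≤ J →
    ∃ (v₀ : Θ → E3 → E3),
      (∀ i, UC fun θ x => v₀ θ x i) ∧ (∀ θ x, ∑ i, H459R3.NS.pd i (fun y => v₀ θ y i) x = 0) ∧
      (∀ θ i, ∫ x in cube, v₀ θ x i = m i) ∧
      volume {x | x ∈ Icc (0 : E3) 1 ∧ ∃ θ, v₀ θ x ≠ u₀ θ x} ≤ ENNReal.ofReal η ∧
      (∀ θ, leiLin (fun k => Pool.Agent.H356R3.NS.fc (v₀ θ) k - Pool.Agent.H356R3.NS.fc (u₀ θ) k) ≤
        ENNReal.ofReal (C * ν * Real.sqrt J / η)) ∧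
      (∀ θ (r : ℝ), 1 ≤ r → critNorm r (fun k => Pool.Agent.H356R3.NS.fc (v₀ θ) k - Pool.Agent.H356R3.NS.fc (u₀ θ) k) ≤
        ENNReal.ofReal (C * ν * (J : ℝ) ^ (1 / r - 1 / 2) / η)) ∧
      (∀ θ (k : Fin 3 → ℤ), (∀ i, |k i| ≤ K0) →
        ‖Pool.Agent.H356R3.NS.fc (v₀ θ) k - Pool.Agent.H356R3.NS.fc (u₀ θ) k‖ ≤ ε) ∧
      ∃ δ T T1 : ℝ, 0 < δ ∧ 0 < T1 ∧ T1 ≤ ε' ∧ T1 < T ∧ ∀ θ, ∃ F : Fam, CF F ∧ (∀ k t, t ≤ T → F k t = 0) ∧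
        ∀ z₀ : E3 → E3, (∀ i, SP fun x => z₀ x i) →
        (∀ x, ∑ i, H459R3.NS.pd i (fun y => z₀ y i) x = 0) →
        (∀ i, ∫ x in cube, z₀ x i = m i) →
        leiLin (fun k => Pool.Agent.H356R3.NS.fc z₀ k - Pool.Agent.H356R3.NS.fc (v₀ θ) k) ≤ ENNReal.ofReal δ →
        ∃ a : Wt, Sup a ∧ ∃ U : Fam, SolF (4 * Real.pi ^ 2 * ν) F a (FV z₀) U ∧
          ∀ t, T1 / 2 ≤ t → t ≤ T1 → An (U - PH m (FV (b₀ θ))) t ≤ ε' := by
  obtain ⟨Cg, hCg, hcut⟩ := exists_cut2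
  refine ⟨8 * (225 * (4 * Cg + 1) ^ 2 * 12) * (4 * Real.pi ^ 2), by positivity,
    fun ν hν Θ _ u₀ b₀ hu hdiv hb hdb m hmu hmean η ε ε' h0 h1 hε hε' J K0 hJ => ?_⟩
  have hpi := Real.pi_pos
  have hc : 0 < 4 * Real.pi ^ 2 * ν := by positivity
  have hη : 0 < η / 12 := by positivity
  have hη1 : η / 12 ≤ 1 / 4 := by linarith
  obtain ⟨g, hg, hA⟩ := hcut (η / 12) hη hη1
  have hg2 : ContDiff ℝ ∞ (fun y => g y ^ 2 - 1) := (hg.smooth.pow 2).sub contDiff_const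
  obtain ⟨Q, -, hQ⟩ := gM_norm hg2 (fun y => by rw [hg.per])
  have hbs : ∀ θ i, SP fun x => b₀ θ x i := fun θ i => (hb i).sp θ
  obtain ⟨vb, rvb, hvb⟩ := FV_maj hb
  obtain ⟨T, bb, hT, rbb, F, W, hFW⟩ := local_solB hc (V := fun θ => FV (b₀ θ)) rvb (fun θ => FV_sym (b₀ θ))
    (fun θ => funext fun i => FV_zero (hbs θ) i) hvb
  obtain ⟨T1, τ, hT1, hT1b, hT1T, hτ, hhit⟩ := hitB hT hc rbb rvb
    m hε' (lt_min hε' (half_pos hT))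
  obtain ⟨v₀, δ, hδ, b1, b2, b3, b4, b5, b6, b7, b8⟩ :=
    physB (fun θ => (hFW θ).1) hν hu hdiv hb hdb (fun θ i => (hmean θ i).trans (hmu θ i).symm) rbb (fun θ => (hFW θ).2.2) hη hη1 hg hA hQ hJ (dl := T1 / 4)
      (τ := τ) (by positivity) hτ (R := 2 * K0) (ρ := ε) hε
  have hs : 0 < Real.sqrt (η / 12) := Real.sqrt_pos.2 hη
  have hs2 : Real.sqrt (η / 12) ^ 2 = η / 12 := Real.sq_sqrt hη.le
  have hs1 : Real.sqrt (η / 12) ≤ 1 := by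
    rw [Real.sqrt_le_left one_pos.le]; linarith
  have hP : PP (Cg / Real.sqrt (η / 12)) ^ 2 ≤ 225 * (4 * Cg + 1) ^ 2 * 12 / η := by
    have h2 : PP (Cg / Real.sqrt (η / 12)) ≤ 15 * (4 * Cg + 1) / Real.sqrt (η / 12) := by
      unfold PP
      rw [le_div_iff₀ hs]
      have : 15 * (4 * (Cg / Real.sqrt (η / 12)) + 1) * Real.sqrt (η / 12)
          = 15 * (4 * Cg + Real.sqrt (η / 12)) := by field_simp
      rw [this]
      linarith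
    have h3 : 0 ≤ PP (Cg / Real.sqrt (η / 12)) := by unfold PP; positivity
    calc _ ≤ (15 * (4 * Cg + 1) / Real.sqrt (η / 12)) ^ 2 := pow_le_pow_left₀ h3 h2 2
      _ = 225 * (4 * Cg + 1) ^ 2 * 12 / η := by
          rw [div_pow, hs2]; field_simp; ring
  have hTT : T1 ≤ T / 2 := hT1b.trans (min_le_right _ _)
  refine ⟨v₀, b1, b2, fun θ i => (b3 θ i).trans (hmu θ i), ?_, ?_, ?_, fun θ k hk => b7 θ k (nk_le_box hk), δ, T, T1, hδ, hT1,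
    hT1b.trans (min_le_left _ _), by linarith, fun θ => ⟨F θ, (hFW θ).1, (hFW θ).2.1, ?_⟩⟩
  · refine b4.trans (ENNReal.ofReal_le_ofReal (le_of_eq (by ring)))
  · intro θ
    refine (b5 θ).trans (ENNReal.ofReal_le_ofReal ?_)
    have hJ0 := Real.sqrt_nonneg (J : ℝ)
    calc 2 * PP (Cg / Real.sqrt (η / 12)) ^ 2 * (4 * Real.pi ^ 2 * ν) * Real.sqrt J
        ≤ 8 * (225 * (4 * Cg + 1) ^ 2 * 12 / η) * (4 * Real.pi ^ 2 * ν) * Real.sqrt J := by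
          gcongr; norm_num
      _ = _ := by ring
  · intro θ r hr
    refine (b6 θ r hr).trans (ENNReal.ofReal_le_ofReal ?_)
    calc 8 * PP (Cg / Real.sqrt (η / 12)) ^ 2 * (4 * Real.pi ^ 2 * ν) * (J : ℝ) ^ (1 / r - 1 / 2)
        ≤ 8 * (225 * (4 * Cg + 1) ^ 2 * 12 / η) * (4 * Real.pi ^ 2 * ν) * (J : ℝ) ^ (1 / r - 1 / 2) := by
          gcongr
      _ = _ := by ring
  · intro z₀ hz hdz hmz hle
    obtain ⟨a2, ha2, U2, hU2, hL⟩ := b8 θ z₀ hz hdz (fun i => (hmz i).trans (hmu θ i).symm) hle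
    exact ⟨a2, ha2, U2, hU2, fun t ht1 ht2 => hhit (F θ) (hFW θ).2.1 _ (hvb θ) (W θ) (hFW θ).2.2 a2 ha2 _ U2 hU2 hL
      t ht1 ht2⟩

/-- Global solutions with data near `v₀` pass near `b₀` at a small positive time. -/
theorem pass_B : ∃ C : ℝ, 0 < C ∧ ∀ (ν : ℝ), 0 < ν → ∀ (Θ : Type) [TopologicalSpace Θ] (u₀ b₀ : Θ → E3 → E3),
    (∀ i, UC fun θ x => u₀ θ x i) → (∀ θ x, ∑ i, H459R3.NS.pd i (fun y => u₀ θ y i) x = 0) →
    (∀ i, UC fun θ x => b₀ θ x i) → (∀ θ x, ∑ i, H459R3.NS.pd i (fun y => b₀ θ y i) x = 0) →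
    ∀ m : E3, (∀ θ i, ∫ x in cube, u₀ θ x i = m i) → (∀ θ i, ∫ x in cube, b₀ θ x i = m i) →
    ∀ (η ε ε' : ℝ), 0 < η → η ≤ 1 → 0 < ε → 0 < ε' → ∀ (J K0 : ℕ), 1 ≤ J →
    ∃ (v₀ : Θ → E3 → E3),
      (∀ i, UC fun θ x => v₀ θ x i) ∧ (∀ θ x, ∑ i, H459R3.NS.pd i (fun y => v₀ θ y i) x = 0) ∧
      (∀ θ i, ∫ x in cube, v₀ θ x i = m i) ∧
      volume {x | x ∈ Icc (0 : E3) 1 ∧ ∃ θ, v₀ θ x ≠ u₀ θ x} ≤ ENNReal.ofReal η ∧
      (∀ θ, leiLin (fun k => Pool.Agent.H356R3.NS.fc (v₀ θ) k - Pool.Agent.H356R3.NS.fc (u₀ θ) k) ≤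
        ENNReal.ofReal (C * ν * Real.sqrt J / η)) ∧
      (∀ θ (r : ℝ), 1 ≤ r → critNorm r (fun k => Pool.Agent.H356R3.NS.fc (v₀ θ) k - Pool.Agent.H356R3.NS.fc (u₀ θ) k) ≤
        ENNReal.ofReal (C * ν * (J : ℝ) ^ (1 / r - 1 / 2) / η)) ∧
      (∀ θ (k : Fin 3 → ℤ), (∀ i, |k i| ≤ K0) →
        ‖Pool.Agent.H356R3.NS.fc (v₀ θ) k - Pool.Agent.H356R3.NS.fc (u₀ θ) k‖ ≤ ε) ∧
      ∃ δ T : ℝ, 0 < δ ∧ 0 < T ∧ T ≤ ε' ∧
        ∀ θ (z₀ : E3 → E3), (∀ i, SP fun x => z₀ x i) →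
        (∀ x, ∑ i, H459R3.NS.pd i (fun y => z₀ y i) x = 0) →
        (∀ i, ∫ x in cube, z₀ x i = m i) →
        leiLin (fun k => Pool.Agent.H356R3.NS.fc z₀ k - Pool.Agent.H356R3.NS.fc (v₀ θ) k) ≤ ENNReal.ofReal δ →
        (∃ (w : ℝ → E3 → E3) (q : ℝ → E3 → ℝ), IsSol ν T w q ∧ w 0 = z₀) ∧
        ∀ (Ts : ℝ) (w : ℝ → E3 → E3) (q : ℝ → E3 → ℝ), IsSol ν Ts w q → w 0 = z₀ →
          ∀ t, T / 2 ≤ t → t ≤ T → t < Ts →
          leiLin (fun k => Pool.Agent.H356R3.NS.fc (w t) k - Pool.Agent.H356R3.NS.fc (b₀ θ) k) ≤ ENNReal.ofReal ε' ∧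
          ∀ x i, |w t x i - b₀ θ x i| ≤ ε' := by
  obtain ⟨C, hC, hmain⟩ := fin_B
  refine ⟨C, hC, fun ν hν Θ _ u₀ b₀ hu hdu hb hdb m hmu hmean η ε ε' h0 h1 hε hε' J K0 hJ => ?_⟩
  obtain ⟨v₀, a1, a2, a3, a4, a5, a6, a7, δ, T, T1, hδ, hT1, hT1b, hT1T, a8⟩ :=
    hmain ν hν Θ u₀ b₀ hu hdu hb hdb m hmu hmean η ε ε' h0 h1 hε hε' J K0 hJ
  refine ⟨v₀, a1, a2, a3, a4, a5, a6, a7, δ, T1, hδ, hT1, hT1b, fun θ z₀ hz hdz hmz hle => ?_⟩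
  have hbs : ∀ θ i, SP fun x => b₀ θ x i := fun θ i => (hb i).sp θ
  obtain ⟨F, hF, hF0, a8⟩ := a8 θ
  obtain ⟨a, ha, U, hU, hclose⟩ := a8 z₀ hz hdz hmz hle
  constructor
  · obtain ⟨u', h1, -, h2⟩ := sol_local hF hF0 ha (FV_dt hz hdz) hU m hT1 hT1T
    refine ⟨_, _, h2, ?_⟩
    have e : (fun (x : E3) (i : Fin 3) => m i + (GS m (cf' u' i) 0 x).re) = z₀ := by
      rw [← FV_series hz (m := m) (fun i => (hmz i).symm)]
      funext x i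
      have h0' : ∀ k, u' k 0 = FV z₀ k := fun k => by rw [h1 k 0 le_rfl hT1.le, hU.at_zero]
      unfold GS SF
      simp only [zero_smul, sub_zero, cf', h0']
    exact e
  · intro Ts w q hI hw0 t ht1 ht2 htTs
    have ht0 : 0 ≤ t := by linarith
    exact close_phys hI (m := m) (fun i => by rw [hw0]; exact (hmz i).symm) (hbs θ) (fun i => (hmean θ i).symm)
      (hU.dom' ha) ht0 htTs
      (val_eq hν hF0 ha hU hI hw0 (m := m) (fun i => (hmz i).symm) ht0 (by linarith) htTs)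
      (hclose t ht1 ht2)

end Pool.Agent.K1H11.NS
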