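import Pool.Agent.K1H11.NS4.ProfB
import Pool.Agent.K1H11.NS3.StageF

/-!
# Changing the initial velocities of a family of solutions into another family by fast waves
-/

open MeasureTheory Set Filter Topology
open scoped ENNReal NNReal ContDiff

namespace Pool.Agent.K1H11.NS

open H459R3.NS (ee fc fr cube S SP Per pd D Rap)
open Pool.Agent.H356R3.NS (shellSum critNorm leiLin)

theorem stageB {Θ : Type} [TopologicalSpace Θ] {c : ℝ} (hc : 0 < c) {η : ℝ} {g : ℝ → ℝ} (hg : Cut η g) {A Q : ℝ}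
    (hA : ∀ cc M, wn (gM g cc M) ≤ A) (hQ : ∀ cc M, wn (gM (fun y => g y ^ 2 - 1) cc M) ≤ Q)
    {Fo : Θ → Fam} (hCF : ∀ θ, CF (Fo θ)) {V0 : Θ → K → C3} {G : Θ → Fin 3 → E3 → ℝ} (hG : ∀ i, UC fun θ => G θ i)
    (hdiv : ∀ θ k, ∑ j, (k j : ℂ) * fr (G θ j) k = 0) (h0 : ∀ θ i, fr (G θ i) 0 = 0) {bw : K → ℝ} (rbw : RM bw)
    {w : Θ → Fam} (hw : ∀ θ, SolB c (Fo θ) bw (V0 θ + fun k i => fr (G θ i) k) (w θ))
    {K1 : ℝ} (hK1 : 0 < K1) (hd : ∀ θ, ∑' k, ‖(fun i => fr (G θ i) k : C3)‖ / nk k ≤ K1) {J : ℕ} (hJ : 1 ≤ J)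
    {τ dl : ℝ} (hτ : 0 < τ) (hdl : 0 < dl) (R : ℝ) :
    ∃ (M : ℕ) (B : Θ → Fin 3 → E3 → ℝ), 1 ≤ M ∧ (∀ i, UC fun θ => B θ i) ∧
      (∀ θ x, (∀ cc, g (M * x cc) = 0) → ∀ i, cu (B θ) i x = 0) ∧
      (∀ θ, ∑' k, (if nk k ≤ R then ‖cF (fun i => fr (B θ i)) k‖ / nk k else 0) ≤ (15 * J : ℕ) * τ) ∧
      (∀ θ, ∑' k, ‖cF (fun i => fr (B θ i)) k‖ / nk k ≤
        (15 * J : ℕ) * (4 * Real.sqrt (c / J) * Real.sqrt K1 * A + τ)) ∧
      (∀ θ (r : ℝ), 1 ≤ r → critNorm r (cF fun i => fr (B θ i)) ≤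
        2 * (((15 * J : ℕ) : ℝ≥0∞) ^ (1 / r) *
          (2 * ENNReal.ofReal (4 * Real.sqrt (c / J) * Real.sqrt K1 * A + τ)) +
          (15 * J : ℕ) * (2 * ENNReal.ofReal τ))) ∧
      ∃ b' : K → ℝ, RM b' ∧ ∃ u : Θ → Fam, ∀ θ, SolB c (Fo θ) b' (V0 θ + cF fun i => fr (B θ i)) (u θ) ∧
        LNd dl (u θ - w θ) ≤ ENNReal.ofReal τ := by
  classical
  have hpi := Real.pi_pos
  have hJ1 : (1 : ℝ) ≤ J := by exact_mod_cast hJ
  have hJ0 : (0 : ℝ) < J := by linarith
  have hA0 : 0 ≤ A := (wn_nonneg _).trans (hA 0 0)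
  have hQ0 : 0 ≤ Q := (wn_nonneg _).trans (hQ 0 0)
  set β := Real.sqrt (c / J) with hβdef
  have hβ : 0 < β := Real.sqrt_pos.2 (by positivity)
  have hβ2 : β ^ 2 = c / J := Real.sq_sqrt (by positivity)
  set κ := Real.sqrt K1
  have hκ : 0 < κ := Real.sqrt_pos.2 hK1
  -- the amplitudes
  obtain ⟨bG, hbG, hbG'⟩ := UC.maj3 hG
  obtain ⟨F, hF, hFw, hFs⟩ := amp_family (b := fun θ i k => -fr (G θ i) k) hbG
    (fun θ i k => by rw [norm_neg]; exact hbG' θ i k) (fun i k => ((hG i).cont k).neg)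
    (fun θ i k => by simp only [fr_neg, star_neg])
    (fun θ k => by
      simp only [mul_neg, Finset.sum_neg_distrib, hdiv θ k, neg_zero])
    (fun θ i => by simp only [h0 θ i, neg_zero]) hK1 (fun θ i n => by
      simpa using H459R3.NS.rap_fr ((hG i).sp θ) n) (fun θ => by
      refine le_trans (le_of_eq (tsum_congr fun k => ?_)) (hd θ)
      have e : (fun i => -fr (G θ i) k : C3) = -(fun i => fr (G θ i) k : C3) := rfl
      rw [e, norm_neg])
  set C1 := 4 * β * κ * A with hC1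
  have hC10 : 0 ≤ C1 := by positivity
  set n := 15 * J with hn
  have hn0 : 0 < n := by omega
  have hn1 : (0 : ℝ) < n := by exact_mod_cast hn0
  set τ1 := τ / n
  have hτ1 : 0 < τ1 := by positivity
  have sc2 : 0 < Real.sqrt (2 * c) := Real.sqrt_pos.2 (by positivity)
  set X0 := ∑' k, bw k
  have hXr : 0 ≤ X0 := tsum_nonneg rbw.nn
  have hXX : ∀ θ, XN (w θ) ≤ ENNReal.ofReal X0 := fun θ => (hw θ).XN_le rbw
  set D1 := X0 + n * (C1 / Real.sqrt (2 * c) + τ1) + C1 / Real.sqrt (2 * c) + 1 with hD1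
  have hD0 : 0 < D1 := by positivity
  obtain ⟨δ0, hδ0, hmany⟩ := manyB hc hD0 hτ1 hdl
  -- common majorants of the squares of the amplitudes
  have hFF : ∀ c' a', UC fun θ x => F θ c' a' x * F θ c' a' x := fun c' a' => (hF c' a').mul (hF c' a')
  choose γb hγb hγb' using fun c' a' => (hFF c' a').maj
  -- the number of walls
  set T : Fin 3 → Fin 5 → ℝ := fun c a => ∑' l, pw l ^ 2 * γb c a l
  have hT0 : ∀ c a, 0 ≤ T c a := fun c a =>
    tsum_nonneg fun l => mul_nonneg (pow_pos (pw_pos l) 2).le ((hγb c a).nn l)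
  set TT := ∑ c, ∑ a, T c a
  have hTT : ∀ c a, T c a ≤ TT := fun c a =>
    (Finset.single_le_sum (f := fun a => T c a) (fun a _ => hT0 c a) (Finset.mem_univ a)).trans
      (Finset.single_le_sum (f := fun c => ∑ a, T c a)
        (fun c _ => Finset.sum_nonneg fun a _ => hT0 c a) (Finset.mem_univ c))
  have hTT0 : 0 ≤ TT := Finset.sum_nonneg fun c _ => Finset.sum_nonneg fun a _ => hT0 c a
  obtain ⟨M, hM⟩ := exists_nat_gt (max 1 (12 * Real.pi * Q * TT * β ^ 2 / δ0))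
  have hM1 : (1 : ℝ) ≤ M := (le_max_left _ _).trans hM.le
  have hM1' : 1 ≤ M := by exact_mod_cast hM1
  have hM0 : (0 : ℝ) < M := by linarith
  have hM2 : 12 * Real.pi * Q * TT * β ^ 2 / M ≤ δ0 := by
    have h1 : 12 * Real.pi * Q * TT * β ^ 2 / δ0 ≤ M := (le_max_right _ _).trans hM.le
    rw [div_le_iff₀ hδ0] at h1
    rw [div_le_iff₀ hM0]; linarith
  -- the amplitudes with cut-offs
  have hampU : ∀ c' a', UC fun θ x => F θ c' a' x * gM g c' M x := fun c' a' =>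
    (hF c' a').mul (UC.const (gM_SP hg.smooth hg.per c' M))
  choose fb hfb hfb' using fun c' a' => (hampU c' a').maj
  have hprof := fun θ c' a' => profile2 hc hβ.le hg hA hQ ((hF c' a').sp θ) (eP_le c' a') (eP_zero c' a') hM1'
  set C2 : Fin 3 → Fin 5 → ℝ := fun c' a' => CBm β (fb c' a')
  have hCf : ∀ θ c' a', C2f β (fr fun x => F θ c' a' x * gM g c' M x) (eP c' a') c' ≤ C2 c' a' := fun θ c' a' =>
    C2f_le hβ.le (hfb c' a') (hfb' c' a' θ) (eP_le c' a') c'
  have hC20 : ∀ c a, 0 ≤ C2 c a := by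
    intro c' a'
    have q1 : ∀ l, 0 ≤ 2 * (pw l * fb c' a' l) := fun l => by
      have := pw_pos l
      have := (hfb c' a').nn l
      positivity
    have q2 : ∀ l, 0 ≤ pw l ^ 2 * fb c' a' l := fun l => by
      have := pw_pos l
      have := (hfb c' a').nn l
      positivity
    have z1 : 0 ≤ ∑' l, 2 * (pw l * fb c' a' l) := tsum_nonneg q1
    have z2 : 0 ≤ ∑' l, pw l ^ 2 * fb c' a' l := tsum_nonneg q2
    have z3 : 0 ≤ ∑' l, pw l ^ 2 * (2 * (pw l * fb c' a' l)) := tsum_nonneg fun l =>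
      mul_nonneg (pow_pos (pw_pos l) 2).le (q1 l)
    have z4 : 0 ≤ ∑' l, pw l ^ 2 * conv (fb c' a') (fb c' a') l := tsum_nonneg fun l =>
      mul_nonneg (pow_pos (pw_pos l) 2).le (((hfb c' a').conv (hfb c' a')).nn l)
    have z5 : 0 ≤ ∑' l, fb c' a' l := tsum_nonneg (hfb c' a').nn
    have hC := C0_pos
    simp only [C2, CBm]
    positivity
  set CC := ∑ c, ∑ a, C2 c a
  have hCC : ∀ c a, C2 c a ≤ CC := fun c a =>
    (Finset.single_le_sum (f := fun a => C2 c a) (fun a _ => hC20 c a) (Finset.mem_univ a)).trans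
      (Finset.single_le_sum (f := fun c => ∑ a, C2 c a)
        (fun c _ => Finset.sum_nonneg fun a _ => hC20 c a) (Finset.mem_univ c))
  have hCC0 : 0 ≤ CC := Finset.sum_nonneg fun c _ => Finset.sum_nonneg fun a _ => hC20 c a
  have hC1le : ∀ θ c' a', 2 * β * (wn (F θ c' a') * A) ≤ C1 := by
    intro θ c' a'
    calc 2 * β * (wn (F θ c' a') * A) ≤ 2 * β * (2 * κ * A) := by
          have := hFw θ c' a'
          gcongr
      _ = C1 := by rw [hC1]; ring
  obtain ⟨N0, hN0'⟩ := exists_nat_gt (max (CC / τ) (2 * R))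
  have hN0 : CC / τ < N0 := (le_max_left _ _).trans_lt hN0'
  have hN0R : 2 * R < N0 := (le_max_right _ _).trans_lt hN0'
  -- all the waves
  set W : Θ → ℕ → ℕ → K → C3 := fun θ i => Wv β (fr fun x => F θ (cI i) (aI i) x * gM g (cI i) M x)
    (eP (cI i) (aI i)) (cI i)
  set h : Θ → ℕ → K → C3 := fun θ i =>
    hv c β (fr fun x => F θ (cI i) (aI i) x * F θ (cI i) (aI i) x) (eP (cI i) (aI i))
  have hPrf : ∀ θ, ∀ i < n, Prf c C1 CC δ0 (h θ i) (W θ i) := by
    intro θ i _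
    refine (hprof θ (cI i) (aI i)).1.mono (hC1le _ _ _) ((hCf _ _ _).trans (hCC _ _)) ?_
    refine le_trans ?_ hM2
    have e1 : ∑' l, pw l ^ 2 * ‖fr (fun x => F θ (cI i) (aI i) x * F θ (cI i) (aI i) x) l‖ ≤ T (cI i) (aI i) := by
      have hh : ∀ l, pw l ^ 2 * ‖fr (fun x => F θ (cI i) (aI i) x * F θ (cI i) (aI i) x) l‖ ≤
          pw l ^ 2 * γb (cI i) (aI i) l := fun l =>
        mul_le_mul_of_nonneg_left (hγb' _ _ θ l) (pow_pos (pw_pos l) 2).le
      exact (((hγb _ _).rr 2).of_nonneg_of_le (fun l => mul_nonneg (pow_pos (pw_pos l) 2).le (norm_nonneg _))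
        hh).tsum_le_tsum hh ((hγb _ _).rr 2)
    have : T (cI i) (aI i) ≤ TT := hTT _ _
    calc _ ≤ 12 * Real.pi / M * Q * TT * β ^ 2 := by
          gcongr
          exact e1.trans this
      _ = _ := by ring
  set B1 : Θ → ℕ → ℕ → Fin 3 → E3 → ℝ := fun θ i N => wave β (fun x => F θ (cI i) (aI i) x * gM g (cI i) M x)
    (eP (cI i) (aI i)) (cI i) N
  have hamp : ∀ θ i, SP fun x => F θ (cI i) (aI i) x * gM g (cI i) M x := fun θ i =>
    (hampU _ _).sp θ
  have hB1U : ∀ i N j, UC fun θ => B1 θ i N j := fun i N j => UC.wave (hampU _ _) _ _ _ j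
  have hB1W : ∀ θ i N, cF (fun j => fr (B1 θ i N j)) = W θ i N := fun θ i N => cF_wave (hamp θ i) (eP_zero _ _) _
  have hWb : ∀ i N, ∃ b : K → ℝ, RM b ∧ ∀ θ k, ‖W θ i N k‖ ≤ b k := by
    intro i N
    obtain ⟨b, hb, hb'⟩ := UC.cF_maj (B := fun θ => B1 θ i N) (fun j => hB1U i N j)
    exact ⟨b, hb, fun θ k => by rw [← hB1W]; exact hb' θ k⟩
  choose Wb hWb1 hWb2 using hWb
  obtain ⟨N, n1, n2, b', rb', u, hu⟩ := hmany Θ bw rbw C1 CC δ0 n (N0 + 1)
    (fun i k => β ^ 2 / c * (6 * Real.pi) * (pw k * γb (cI i) (aI i) k)) Wb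
    (fun i => (hγb _ _).pw.mul (by positivity)) hWb1 hC10 hCC0
    (by rw [hD1]; have : 0 ≤ n * (C1 / Real.sqrt (2 * c) + τ1) := by positivity
        linarith) le_rfl X0 hXr (by
      rw [hD1]
      have : 0 ≤ C1 / Real.sqrt (2 * c) := by positivity
      linarith) Fo (fun θ => V0 θ + fun k i => fr (G θ i) k) w h W hCF hw hXX hPrf
    (fun θ i k => hv_le hc (eP_le _ _) (eP_zero _ _) (hγb' _ _ θ) k) (fun θ i N k => hWb2 i N θ k)
  have hNpos : ∀ i < n, 1 ≤ N i := fun i hi => by have := n1 i hi; omega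
  have hNτ : ∀ i < n, CC / N i ≤ τ := by
    intro i hi
    have h1 : (N0 : ℝ) ≤ N i := by exact_mod_cast (by have := n1 i hi; omega : N0 ≤ N i)
    have h2 : (0 : ℝ) < N i := by exact_mod_cast hNpos i hi
    rw [div_le_iff₀ h2]
    rw [div_lt_iff₀ hτ] at hN0
    nlinarith
  set B : Θ → Fin 3 → E3 → ℝ := fun θ j x => ∑ i ∈ Finset.range n, B1 θ i (N i) j x
  have hB1 : ∀ θ i j, SP (B1 θ i (N i) j) := fun θ i j => (hB1U i (N i) j).sp θ
  have hcFB : ∀ θ, cF (fun j => fr (B θ j)) = ∑ i ∈ Finset.range n, W θ i (N i) := by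
    intro θ
    rw [show (fun j => fr (B θ j)) = fun j => fr (fun x => ∑ i ∈ Finset.range n, B1 θ i (N i) j x) from rfl,
      cF_sum _ (fun i => B1 θ i (N i)) fun i _ j => hB1 θ i j]
    exact Finset.sum_congr rfl fun i _ => hB1W θ i (N i)
  have hWsn : ∀ θ, ∀ i < n, SN (W θ i (N i)) := fun θ i hi => ((hPrf θ i hi).Wr (N i)).summ
  have hW4 : ∀ θ, ∀ i < n, ∑' k, ‖W θ i (N i) k‖ / nk k ≤ C1 + τ := by
    intro θ i hi
    refine ((hprof θ (cI i) (aI i)).2.1 (N i) (hNpos i hi)).trans (add_le_add (hC1le _ _ _) ?_)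
    refine le_trans ?_ (hNτ i hi)
    exact div_le_div_of_nonneg_right ((hCf _ _ _).trans (hCC _ _)) (Nat.cast_nonneg _)
  have hW5 : ∀ θ, ∀ i < n, ∑' k, (if nk k < (N i : ℝ) / 2 ∨ 2 * (N i : ℝ) ≤ nk k then
      ‖W θ i (N i) k‖ / nk k else 0) ≤ τ := by
    intro θ i hi
    refine ((hprof θ (cI i) (aI i)).2.2 (N i) (hNpos i hi)).trans ?_
    refine le_trans ?_ (hNτ i hi)
    exact div_le_div_of_nonneg_right ((hCf _ _ _).trans (hCC _ _)) (Nat.cast_nonneg _)
  have hsumh : ∀ θ, ∑ i ∈ Finset.range n, h θ i = -fun k i => fr (G θ i) k := by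
    intro θ
    have e1 := sum_index (fun c' a' => hv c β (fr fun x => F θ c' a' x * F θ c' a' x) (eP c' a')) J
    rw [show (∑ i ∈ Finset.range n, h θ i) = _ from e1]
    funext k
    have e2 : (J • ∑ c', ∑ a', hv c β (fr fun x => F θ c' a' x * F θ c' a' x) (eP c' a')) k =
        (J : ℝ) • (-(β ^ 2 / c)) • ∑ c', ∑ a', fr (fun x => F θ c' a' x * F θ c' a' x) k •
          bt k (ec (eP c' a')) (ec (eP c' a')) := by
      rw [Pi.smul_apply, Finset.sum_apply, ← Nat.cast_smul_eq_nsmul ℝ]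
      congr 1
      rw [Finset.smul_sum]
      refine Finset.sum_congr rfl fun c' _ => ?_
      rw [Finset.sum_apply, Finset.smul_sum]
      rfl
    rw [e2, hFs θ k, smul_smul]
    have e3 : (J : ℝ) * -(β ^ 2 / c) = -1 := by
      rw [hβ2]; field_simp
    rw [e3]
    funext i
    simp
  have hdata : ∀ θ, (V0 θ + fun k i => fr (G θ i) k) + ∑ i ∈ Finset.range n, (h θ i + W θ i (N i)) =
      V0 θ + cF (fun i => fr (B θ i)) := by
    intro θ
    rw [Finset.sum_add_distrib, hsumh, hcFB]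
    abel
  refine ⟨M, B, hM1', fun j => UC.sum _ fun i _ => hB1U i (N i) j, ?_, ?_, ?_, ?_, b', rb', u,
    fun θ => ⟨?_, ?_⟩⟩
  · intro θ x hx i
    refine cu_sum_zero _ (fun i => B1 θ i (N i)) (fun n _ i => hB1 θ n i) (fun m _ j i => ?_) i
    have hz := cut_zero hg ((hF (cI m) (aI m)).sp θ) (cI m) M (hx (cI m))
    exact pd_wave_zero (hamp θ m) _ _ _ hz.1 hz.2 j i
  · intro θ
    rw [hcFB]
    refine low_sum n (fun i => W θ i (N i)) (hWsn θ) N (fun i hi => ?_) (hW5 θ)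
    have h1 : (N0 : ℝ) ≤ N i := by exact_mod_cast (by have := n1 i hi; omega : N0 ≤ N i)
    linarith
  · intro θ
    rw [hcFB]
    exact leilin_sum n (fun i => W θ i (N i)) (hWsn θ) (hW4 θ)
  · intro θ r hr
    rw [hcFB]
    refine crit_bound hr (fun i => W θ i (N i)) (fun i => {j | (N i : ℝ) / 4 < 2 ^ j ∧ (2 : ℝ) ^ j < 2 * N i})
      ?_ ?_ ?_
    · intro i hi
      have h1 := shells_le (W θ i (N i)) (fun _ => True) ∅ (fun _ _ _ _ => trivial)
      simp only [Set.mem_empty_iff_false, if_false, if_true] at h1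
      refine h1.trans (mul_le_mul' le_rfl ?_)
      rw [← ENNReal.ofReal_tsum_of_nonneg (fun k => div_nonneg (norm_nonneg _) (nk_nonneg k))
        (summ_div_nk (hWsn θ i hi))]
      exact ENNReal.ofReal_le_ofReal (hW4 θ i hi)
    · intro i hi
      have h1 := shells_le (W θ i (N i)) (fun k => nk k < (N i : ℝ) / 2 ∨ 2 * (N i : ℝ) ≤ nk k)
        {j | (N i : ℝ) / 4 < 2 ^ j ∧ (2 : ℝ) ^ j < 2 * N i} (fun j hj k hk => by
          have a1 := shell_le hk
          have a2 := shell_lt hk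
          rw [mem_ofPred_eq, not_and_or, not_lt, not_lt] at hj
          rcases hj with hj | hj
          · left
            rw [pow_succ] at a2
            linarith
          · right; linarith)
      refine h1.trans (mul_le_mul' le_rfl ?_)
      have h2 : ∀ k, (if nk k < (N i : ℝ) / 2 ∨ 2 * (N i : ℝ) ≤ nk k then
          ENNReal.ofReal (‖W θ i (N i) k‖ / nk k) else 0) =
          ENNReal.ofReal (if nk k < (N i : ℝ) / 2 ∨ 2 * (N i : ℝ) ≤ nk k then ‖W θ i (N i) k‖ / nk k else 0) := by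
        intro k
        split_ifs <;> simp
      simp_rw [h2]
      rw [← ENNReal.ofReal_tsum_of_nonneg]
      · exact ENNReal.ofReal_le_ofReal (hW5 θ i hi)
      · intro k
        split_ifs
        · exact div_nonneg (norm_nonneg _) (nk_nonneg k)
        · exact le_rfl
      · refine (summ_div_nk (hWsn θ i hi)).of_nonneg_of_le (fun k => ?_) fun k => ?_
        · split_ifs
          · exact div_nonneg (norm_nonneg _) (nk_nonneg k)
          · exact le_rfl
        · split_ifs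
          · exact le_rfl
          · exact div_nonneg (norm_nonneg _) (nk_nonneg k)
    · have key : ∀ i i' j, i < i' → i' < n → (2 : ℝ) ^ j < 2 * N i → (N i' : ℝ) / 4 < 2 ^ j → False := by
        intro i i' j hii hi' h1 h2
        have h3 : (16 : ℝ) * N i ≤ N i' := by exact_mod_cast n2 i i' hii hi'
        have h4 : (1 : ℝ) ≤ N i := by exact_mod_cast hNpos i (by omega)
        linarith
      intro i i' j hi hi' hj hj'
      rw [mem_ofPred_eq] at hj hj'
      rcases lt_trichotomy i i' with hlt | heq | hgt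
      · exact absurd (key i i' j hlt hi' hj.2 hj'.1) id
      · exact heq
      · exact absurd (key i' i j hgt hi hj'.2 hj.1) id
  · have := (hu θ).1
    rwa [hdata θ] at this
  · refine (hu θ).2.trans (ENNReal.ofReal_le_ofReal (le_of_eq ?_))
    simp only [τ1]
    field_simp

end Pool.Agent.K1H11.NS
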