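import Pool.Agent.K1H11.NS4.AbsB
import Pool.Agent.K1H11.NS3.StepF

/-!
# Adding a fast wave, with explicit majorants
-/

open MeasureTheory Set Filter Topology
open scoped ENNReal NNReal

namespace Pool.Agent.K1H11.NS

lemma conv_le {x y x' y' : K → ℝ} (hx : ∀ k, 0 ≤ x k) (hy : ∀ k, 0 ≤ y k) (hxx : ∀ k, x k ≤ x' k)
    (hyy : ∀ k, y k ≤ y' k) (sx : Summable x') (sy : Summable y') (k : K) : conv x y k ≤ conv x' y' k := by
  have hx' : ∀ k, 0 ≤ x' k := fun k => (hx k).trans (hxx k)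
  have hy' : ∀ k, 0 ≤ y' k := fun k => (hy k).trans (hyy k)
  have s' := summable_conv_term hx' hy' sx sy k
  have h : ∀ l, x l * y (k - l) ≤ x' l * y' (k - l) := fun l => mul_le_mul (hxx l) (hyy _) (hy _) (hx' l)
  exact (s'.of_nonneg_of_le (fun l => mul_nonneg (hx l) (hy _)) h).tsum_le_tsum h s'

lemma RM.add {b b' : K → ℝ} (h : RM b) (h' : RM b') : RM fun k => b k + b' k :=
  ⟨fun k => add_nonneg (h.nn k) (h'.nn k), h.rr.add h'.rr⟩

lemma RM.mul {b : K → ℝ} (h : RM b) {r : ℝ} (hr : 0 ≤ r) : RM fun k => r * b k :=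
  ⟨fun k => mul_nonneg hr (h.nn k), h.rr.mul r⟩

lemma RM.conv {b b' : K → ℝ} (h : RM b) (h' : RM b') : RM (conv b b') :=
  ⟨conv_nonneg h.nn h'.nn, RR.conv h.nn h'.nn h.rr h'.rr⟩

lemma RM.nk {b : K → ℝ} (h : RM b) : RM fun k => nk k * b k :=
  ⟨fun k => mul_nonneg (nk_nonneg k) (h.nn k), h.rr.nk h.nn⟩

lemma RM.sq {b : K → ℝ} (h : RM b) : RM fun k => sq k * b k :=
  ⟨fun k => mul_nonneg (sq_nonneg' k) (h.nn k), h.rr.sq h.nn⟩

lemma RM.congr {b b' : K → ℝ} (h : RM b) (e : ∀ k, b k = b' k) : RM b' := by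
  have : b = b' := funext e
  rwa [← this]

/-- `C0 |k| (x * y)` -/
lemma RM.q {x y : K → ℝ} (hx : RM x) (hy : RM y) : RM fun k => C0 * Pool.Agent.K1H11.NS.nk k *
    Pool.Agent.K1H11.NS.conv x y k :=
  ((hx.conv hy).nk.mul C0_pos.le).congr fun k => by ring

/-- the common majorant of the residuals -/
noncomputable def eBm (c : ℝ) (bw : K → ℝ) (L : ℝ) (W h : K → ℝ) (k : K) : ℝ :=
  (1 / L) * (2 * (C0 * nk k * conv bw W k) + (c * (sq k * W k) + L * W k)) +
  (1 / (2 * L)) * ((C0 * nk k * conv W W k + (2 * L) * h k) + c * (sq k * h k) +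
    2 * (C0 * nk k * conv bw h k) +
    2 * (C0 * nk k * conv W h k) +
    C0 * nk k * conv h h k)

lemma eBm_rm {c : ℝ} (hc : 0 < c) {bw W h : K → ℝ} {L : ℝ} (hL : 0 < L) (hb : RM bw) (hW : RM W) (hh : RM h) :
    RM (eBm c bw L W h) := by
  have h1 : (0 : ℝ) ≤ 1 / L := by positivity
  have h2 : (0 : ℝ) ≤ 1 / (2 * L) := by positivity
  exact ((((hb.q hW).mul zero_le_two).add ((hW.sq.mul hc.le).add (hW.mul hL.le))).mul h1).add
    (((((((hW.q hW).add (hh.mul (by positivity : (0 : ℝ) ≤ 2 * L))).add (hh.sq.mul hc.le)).add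
      ((hb.q hh).mul zero_le_two)).add ((hW.q hh).mul zero_le_two)).add (hh.q hh)).mul h2)

lemma eB_le {c : ℝ} (hc : 0 < c) {bw Wb hb : K → ℝ} {L : ℝ} (hL : 0 < L) (rb : RM bw) (rW : RM Wb) (rh : RM hb)
    {W h : K → C3} (hW : ∀ k, ‖W k‖ ≤ Wb k) (hh : ∀ k, ‖h k‖ ≤ hb k) (k : K) :
    eB c bw L W h k ≤ eBm c bw L Wb hb k := by
  have hC := C0_pos
  have hn := nk_nonneg k
  have hsq := sq_nonneg' k
  have n1 : ∀ k, 0 ≤ ‖W k‖ := fun k => norm_nonneg _
  have n2 : ∀ k, 0 ≤ ‖h k‖ := fun k => norm_nonneg _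
  have c1 := conv_le rb.nn n1 (fun k => le_rfl) hW rb.rr.summ rW.rr.summ k
  have c2 := conv_le rb.nn n2 (fun k => le_rfl) hh rb.rr.summ rh.rr.summ k
  have c3 := conv_le n1 n2 hW hh rW.rr.summ rh.rr.summ k
  have c4 := conv_le n2 n2 hh hh rh.rr.summ rh.rr.summ k
  have c5 : |c * sq k - L| * ‖W k‖ ≤ c * (sq k * Wb k) + L * Wb k := by
    have h1 : |c * sq k - L| ≤ c * sq k + L := by
      refine (abs_sub _ _).trans ?_
      rw [abs_of_nonneg (mul_nonneg hc.le hsq), abs_of_pos hL]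
    calc _ ≤ (c * sq k + L) * Wb k := mul_le_mul h1 (hW k) (n1 k) (by positivity)
      _ = _ := by ring
  have c6 : ‖Bf W W k + (2 * L) • h k‖ ≤ C0 * nk k * conv Wb Wb k + (2 * L) * hb k := by
    refine (norm_add_le _ _).trans (add_le_add (norm_Bf_conv rW.rr.summ rW.rr.summ hW hW k) ?_)
    rw [norm_smul, Real.norm_of_nonneg (by positivity)]
    exact mul_le_mul_of_nonneg_left (hh k) (by positivity)
  have c7 : c * sq k * ‖h k‖ ≤ c * (sq k * hb k) := by
    rw [← mul_assoc]; exact mul_le_mul_of_nonneg_left (hh k) (by positivity)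
  unfold eB eBm
  gcongr

lemma SolB.XN_le {c : ℝ} {F : Fam} {b : K → ℝ} (hb : RM b) {V : K → C3} {u : Fam} (h : SolB c F b V u) :
    XN u ≤ ENNReal.ofReal (∑' k, b k) := by
  unfold XN
  have h1 : ∀ t, NW (Wa Wt.one) (at' u t) = ∑' k, ‖u k t‖ₑ := fun t => NW_Wa_zero _
  simp_rw [h1]
  refine (LN_tsum fun k => (h.cf k).enorm.measurable).trans ?_
  rw [ENNReal.ofReal_tsum_of_nonneg hb.nn hb.rr.summ]
  exact ENNReal.tsum_le_tsum h.l2

theorem stepB {c D τ dl : ℝ} (hc : 0 < c) (hD : 0 < D) (hτ : 0 < τ) (hdl : 0 < dl) : ∃ δ0 : ℝ, 0 < δ0 ∧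
    ∀ (bw hb : K → ℝ) (Wb : ℕ → K → ℝ), RM bw → RM hb → (∀ N, RM (Wb N)) →
      ∀ (C1 C2 δ : ℝ), 0 ≤ C1 → 0 ≤ C2 → C1 / Real.sqrt (2 * c) ≤ D → δ ≤ δ0 →
      ∀ᶠ N : ℕ in atTop, ∃ b' : K → ℝ, RM b' ∧
        ∀ (F : Fam) (V : K → C3) (w : Fam) (h : K → C3) (W : ℕ → K → C3), CF F → SolB c F bw V w →
          XN w ≤ ENNReal.ofReal D → Prf c C1 C2 δ h W → (∀ k, ‖h k‖ ≤ hb k) → (∀ N k, ‖W N k‖ ≤ Wb N k) →
          ∃ u : Fam, SolB c F b' (V + h + W N) u ∧
            XN u ≤ XN w + ENNReal.ofReal (C1 / Real.sqrt (2 * c) + τ) ∧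
            LNd dl (u - w) ≤ ENNReal.ofReal τ := by
  have hC := C0_pos
  obtain ⟨η, hη, happ⟩ := approxB (c := c) (D := 2 * D + 1) (τ := τ / 2) hc (by linarith) (half_pos hτ)
  refine ⟨c * η, by positivity, fun bw hb Wb rbw rhb rWb C1 C2 δ hC1n hC2n hC1 hδ => ?_⟩
  have bw0 := rbw.nn
  have bwr := rbw.rr
  set B := ∑' k, bw k
  set H := ∑' k, hb k
  set H1 := ∑' k, nk k * hb k
  have hB0 : 0 ≤ B := tsum_nonneg bw0
  have hH0 : 0 ≤ H := tsum_nonneg rhb.nn
  have hH10 : 0 ≤ H1 := tsum_nonneg fun k => mul_nonneg (nk_nonneg k) (rhb.nn k)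
  have sc2 : 0 < Real.sqrt (2 * c) := Real.sqrt_pos.2 (by positivity)
  have sc4 : 0 < Real.sqrt (4 * c) := Real.sqrt_pos.2 (by positivity)
  have sc1 : 0 < Real.sqrt c := Real.sqrt_pos.2 hc
  set B1 := C2 / Real.sqrt (2 * c) + H / Real.sqrt (4 * c)
  set B2 := (1 / c) * (2 * C0 * B * (C1 + C2) + c * C2) +
    (1 / (2 * c)) * (C2 + c * H1 + 2 * C0 * B * H + 2 * C0 * (C1 + C2) * H + C0 * H * H)
  set B3 := 2 / (c * dl) * ((C1 + C2) / Real.sqrt c) + 2 / (c * dl) * (H / Real.sqrt c)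
  filter_upwards [ev_small B1 (half_pos hτ), ev_small B1 one_pos, ev_small B2 (half_pos hη),
    ev_small B3 (half_pos hτ), eventually_ge_atTop 1] with N e1 e2 e3 e4 hN
  have hN1 : (1 : ℝ) ≤ N := by exact_mod_cast hN
  have hN0 : (0 : ℝ) < N := by linarith
  set L := c * (N : ℝ) ^ 2 with hLdef
  have hL : 0 < L := by positivity
  have hsq0 : 0 ≤ Real.sqrt (1 / (2 * L)) := Real.sqrt_nonneg _
  set b : K → ℝ := fun k => bw k + (1 + Real.sqrt (1 / (2 * L))) * (Wb N k + hb k)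
  have rb : RM b := rbw.add (((rWb N).add rhb).mul (by positivity))
  have hb0 := rb.nn
  obtain ⟨b', rb', happ'⟩ := happ b (eBm c bw L (Wb N) hb) rb (eBm_rm hc hL rbw (rWb N) rhb)
  refine ⟨b', rb', fun F V w h W hCF hw hwX hP hhb hWb => ?_⟩
  set Wn := W N
  have rW := hP.Wr N
  have rh := hP.hr
  have sW : SN Wn := rW.summ
  have sh : SN h := rh.summ
  have hbW := hP.b1 N hN
  set WW := ∑' k, ‖Wn k‖
  have hWW0 : 0 ≤ WW := tsum_nonneg fun _ => norm_nonneg _
  have hwd : Dom w := hw.dom rbw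
  have bwb := hw.bd
  have bwL := hw.l2
  set h' := ∑' k, ‖h k‖
  have hh' : h' ≤ H := sh.tsum_le_tsum hhb rhb.rr.summ
  have hh'0 : 0 ≤ h' := tsum_nonneg fun _ => norm_nonneg _
  have hh1 : ∑' k, nk k * ‖h k‖ ≤ H1 :=
    (rh.nk fun k => norm_nonneg _).summ.tsum_le_tsum (fun k => mul_le_mul_of_nonneg_left (hhb k) (nk_nonneg k))
      rhb.nk.rr.summ
  -- sizes of the exponentials
  have x1 : XN (Ex L Wn) ≤ ENNReal.ofReal (C1 / Real.sqrt (2 * c) + C2 / Real.sqrt (2 * c) / N) := by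
    refine (XN_Ex hL sW).trans (ENNReal.ofReal_le_ofReal ?_)
    rw [hLdef, ← mul_assoc, sqrt_inv_sq (by positivity) hN]
    calc WW * (1 / (Real.sqrt (2 * c) * N)) ≤ (C1 * N + C2) * (1 / (Real.sqrt (2 * c) * N)) := by gcongr
      _ = _ := by field_simp
  have x2 : XN (Ex (2 * L) h) ≤ ENNReal.ofReal (H / Real.sqrt (4 * c) / N) := by
    refine (XN_Ex (by positivity) sh).trans (ENNReal.ofReal_le_ofReal ?_)
    rw [hLdef, ← mul_assoc, ← mul_assoc, show (2 : ℝ) * 2 * c = 4 * c by ring, sqrt_inv_sq (by positivity) hN]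
    calc h' * (1 / (Real.sqrt (4 * c) * N)) ≤ H * (1 / (Real.sqrt (4 * c) * N)) := by gcongr
      _ = _ := by rw [div_div, mul_one_div]
  have cE1 := Ex_cf L Wn
  have cE2 := Ex_cf (2 * L) h
  have cE : CF (Ex L Wn + Ex (2 * L) h) := fun k => (cE1 k).add (cE2 k)
  have xU : XN (UU w L Wn h) ≤ XN w + ENNReal.ofReal (C1 / Real.sqrt (2 * c) + B1 / N) := by
    unfold UU
    refine (XN_add hw.cf cE).trans (add_le_add le_rfl ((XN_add cE1 cE2).trans ((add_le_add x1 x2).trans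
      (le_of_eq ?_))))
    rw [← ENNReal.ofReal_add (by positivity) (by positivity)]
    congr 1
    simp only [B1]
    rw [add_div]; ring
  have xU' : XN (UU w L Wn h) ≤ ENNReal.ofReal (2 * D + 1) := by
    refine xU.trans ((add_le_add hwX le_rfl).trans ?_)
    rw [← ENNReal.ofReal_add hD.le (by positivity)]
    apply ENNReal.ofReal_le_ofReal
    linarith
  have l1 : LNd dl (Ex L Wn) + LNd dl (Ex (2 * L) h) ≤ ENNReal.ofReal (B3 / N) := by
    have g1 : Real.exp (-(L / 2 * dl)) ≤ 2 / (c * dl) / N := by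
      rw [Real.exp_neg]
      have h1 : c * dl * N / 2 ≤ L / 2 * dl := by
        rw [hLdef]
        have : (N : ℝ) ≤ (N : ℝ) ^ 2 := by nlinarith
        have h2 : c * dl * N ≤ c * dl * (N : ℝ) ^ 2 := by gcongr
        linarith
      have h2 : c * dl * N / 2 ≤ Real.exp (L / 2 * dl) := by
        have := Real.add_one_le_exp (L / 2 * dl)
        linarith
      calc (Real.exp (L / 2 * dl))⁻¹ ≤ (c * dl * N / 2)⁻¹ := by
            apply inv_anti₀ (by positivity) h2
        _ = _ := by field_simp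
    have g2 : Real.exp (-(2 * L / 2 * dl)) ≤ 2 / (c * dl) / N := by
      refine le_trans (Real.exp_le_exp.2 ?_) g1
      have : 0 ≤ L * dl := by positivity
      linarith
    have g3 : WW * Real.sqrt (1 / (2 * (L / 2))) ≤ (C1 + C2) / Real.sqrt c := by
      have e : 2 * (L / 2) = c * (N : ℝ) ^ 2 := by rw [hLdef]; ring
      rw [e, sqrt_inv_sq hc hN]
      calc WW * (1 / (Real.sqrt c * N)) ≤ (C1 * N + C2 * N) * (1 / (Real.sqrt c * N)) := by
            gcongr
            refine hbW.trans (add_le_add le_rfl ?_)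
            nlinarith
        _ = _ := by field_simp
    have g4 : h' * Real.sqrt (1 / (2 * (2 * L / 2))) ≤ H / Real.sqrt c := by
      rw [div_eq_mul_inv H]
      apply mul_le_mul hh' _ (Real.sqrt_nonneg _) hH0
      rw [← Real.sqrt_inv, ← one_div]
      apply Real.sqrt_le_sqrt
      apply one_div_le_one_div_of_le hc
      rw [hLdef]
      have : (1 : ℝ) ≤ (N : ℝ) ^ 2 := one_le_pow₀ hN1
      nlinarith
    refine (add_le_add (LNd_Ex hL hdl sW) (LNd_Ex (by positivity) hdl sh)).trans ?_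
    rw [← ENNReal.ofReal_add (by positivity) (by positivity)]
    apply ENNReal.ofReal_le_ofReal
    have p1 : 0 ≤ 2 / (c * dl) / N := by positivity
    calc _ ≤ 2 / (c * dl) / N * ((C1 + C2) / Real.sqrt c) + 2 / (c * dl) / N * (H / Real.sqrt c) := by
          gcongr
      _ = _ := by simp only [B3]; ring
  -- the approximate solution
  have hUb : ∀ k t, ‖UU w L Wn h k t‖ ≤ b k := fun k t => (UU_norm hL.le bwb k t).trans (by
    simp only [b]
    have h1 : ‖Wn k‖ ≤ Wb N k := hWb N k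
    have h2 := hhb k
    have h3 : 0 ≤ Wb N k + hb k := add_nonneg ((rWb N).nn k) (rhb.nn k)
    nlinarith)
  have hUL : ∀ k, LN (fun t => ‖UU w L Wn h k t‖ₑ) ≤ ENNReal.ofReal (b k) := by
    intro k
    have m0 : Measurable fun t => ‖w k t‖ₑ := (hw.cf k).enorm.measurable
    have m1 : Measurable fun t => ‖Ex L Wn k t‖ₑ := (cE1 k).enorm.measurable
    have m2 : Measurable fun t => ‖Ex (2 * L) h k t‖ₑ := (cE2 k).enorm.measurable
    have m12 : Measurable fun t => ‖Ex L Wn k t‖ₑ + ‖Ex (2 * L) h k t‖ₑ := m1.add m2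
    calc LN (fun t => ‖UU w L Wn h k t‖ₑ)
        ≤ LN (fun t => ‖w k t‖ₑ + (‖Ex L Wn k t‖ₑ + ‖Ex (2 * L) h k t‖ₑ)) :=
          LN_mono fun t _ => (enorm_add_le _ _).trans (add_le_add le_rfl (enorm_add_le _ _))
      _ ≤ LN (fun t => ‖w k t‖ₑ) + (LN (fun t => ‖Ex L Wn k t‖ₑ) + LN (fun t => ‖Ex (2 * L) h k t‖ₑ)) :=
          (LN_add_le m0 m12).trans (add_le_add le_rfl (LN_add_le m1 m2))
      _ ≤ ENNReal.ofReal (bw k) + (ENNReal.ofReal (‖Wn k‖ * Real.sqrt (1 / (2 * L))) +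
          ENNReal.ofReal (‖h k‖ * Real.sqrt (1 / (2 * L)))) := by
          refine add_le_add (bwL k) (add_le_add (LN_Ex hL _ _).le ((LN_Ex (by positivity) _ _).le.trans ?_))
          apply ENNReal.ofReal_le_ofReal
          apply mul_le_mul_of_nonneg_left _ (norm_nonneg _)
          apply Real.sqrt_le_sqrt
          apply one_div_le_one_div_of_le (by positivity)
          linarith
      _ ≤ _ := by
          rw [← ENNReal.ofReal_add (by positivity) (by positivity), ← ENNReal.ofReal_add (bw0 k) (by positivity)]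
          apply ENNReal.ofReal_le_ofReal
          simp only [b]
          have h1 : ‖Wn k‖ ≤ Wb N k := hWb N k
          have h2 := hhb k
          have h3 : 0 ≤ Wb N k + hb k := add_nonneg ((rWb N).nn k) (rhb.nn k)
          nlinarith
  obtain ⟨er, er0⟩ := eB_rr hc hL bw0 bwr rW rh
  have hes : ∑' k, eB c bw L Wn h k / nk k ≤ η := by
    refine (eB_sum_le hc hL bw0 bwr rW rh).trans ?_
    have g1 : ∑' k, |c * sq k - L| * ‖Wn k‖ / nk k ≤ c * (C2 * N) := by
      have e : ∀ k, |c * sq k - L| * ‖Wn k‖ / nk k = c * (|sq k - (N : ℝ) ^ 2| * ‖Wn k‖ / nk k) := by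
        intro k
        rw [hLdef, ← mul_sub, abs_mul, abs_of_pos hc]; ring
      simp_rw [e]
      rw [tsum_mul_left]
      exact mul_le_mul_of_nonneg_left (hP.b2 N hN) hc.le
    have g2 := hP.b3 N hN
    have hWW : WW ≤ (C1 + C2) * N := by nlinarith
    have s1 : 2 * C0 * B * WW + ∑' k, |c * sq k - L| * ‖Wn k‖ / nk k ≤
        (2 * C0 * B * (C1 + C2) + c * C2) * N := by
      calc _ ≤ 2 * C0 * B * ((C1 + C2) * N) + c * (C2 * N) := by gcongr
        _ = _ := by ring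
    have s2 : ∑' k, ‖Bf Wn Wn k + (2 * L) • h k‖ / nk k + c * (∑' k, nk k * ‖h k‖) + 2 * C0 * B * h' + 2 * C0 * WW * h'
        + C0 * h' * h' ≤ δ * N ^ 2 +
        (C2 + c * H1 + 2 * C0 * B * H + 2 * C0 * (C1 + C2) * H + C0 * H * H) * N := by
      have q1 : c * H1 ≤ c * H1 * N := le_mul_of_one_le_right (by positivity) hN1
      have q2 : 2 * C0 * B * H ≤ 2 * C0 * B * H * N := le_mul_of_one_le_right (by positivity) hN1
      have q3 : C0 * H * H ≤ C0 * H * H * N := le_mul_of_one_le_right (by positivity) hN1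
      have q4 : 2 * C0 * WW * H ≤ 2 * C0 * ((C1 + C2) * N) * H := by gcongr
      have q1' : c * (∑' k, nk k * ‖h k‖) ≤ c * H1 := by gcongr
      have q2' : 2 * C0 * B * h' ≤ 2 * C0 * B * H := by gcongr
      have q3' : C0 * h' * h' ≤ C0 * H * H := by gcongr
      have q4' : 2 * C0 * WW * h' ≤ 2 * C0 * WW * H := by gcongr
      calc _ ≤ (δ * N ^ 2 + C2 * N) + c * H1 * N + 2 * C0 * B * H * N + 2 * C0 * ((C1 + C2) * N) * H
            + C0 * H * H * N := by linarith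
        _ = _ := by ring
    have hδ2 : δ / (2 * c) ≤ η / 2 := by
      rw [div_le_iff₀ (by positivity)]
      calc δ ≤ c * η := hδ
        _ = _ := by ring
    calc _ ≤ (1 / L) * ((2 * C0 * B * (C1 + C2) + c * C2) * N) + (1 / (2 * L)) * (δ * N ^ 2 +
        (C2 + c * H1 + 2 * C0 * B * H + 2 * C0 * (C1 + C2) * H + C0 * H * H) * N) := by gcongr
      _ = δ / (2 * c) + B2 / N := by
          rw [hLdef]
          simp only [B2]
          field_simp
          ring
      _ ≤ _ := by linarith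
  have hwc := hw.cf
  have hUc : CF (UU w L Wn h) := UU_cf hwc
  have hUd : Dom (UU w L Wn h) := ⟨b, rb.rr.summ, hUb⟩
  have hBc : CF (Bt (UU w L Wn h)) := Bt_cont hUc hUd
  have hLc : CF (LL c w L Wn h) := LL_cf hwc hwd
  have hUs : SymF (UU w L Wn h) := UU_sym hw.sym (hP.Ws N) hP.hs
  obtain ⟨u, hu, huX⟩ := happ' F hCF (V + h + Wn) (UU w L Wn h) (Bt (UU w L Wn h) - LL c w L Wn h)
    (eB c bw L Wn h) hUc hUs (UU_zero hw.z (hP.W0 N) hP.h0) hUb hUL xU'
    (fun k => (hBc k).sub (hLc k)) (fun t => (Bt_sym hUs t).sub (LL_sym hw.sym (hP.Ws N) hP.hs t))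
    (fun t => by
      show Bt (UU w L Wn h) 0 t - LL c w L Wn h 0 t = 0
      rw [LL_zero (hP.W0 N) hP.h0]
      simp [Bt, Bf_zero])
    er0 (eB_le hc hL rbw (rWb N) rhb (hWb N) hhb) (lint_FE_le hc hL bwr.summ bw0 bwb sW sh) hes (fun k t => by
      have e9 : Bt (UU w L Wn h) - F - (Bt (UU w L Wn h) - LL c w L Wn h) = LL c w L Wn h - F := by abel
      rw [e9]
      exact UU_eqF hCF hwc hwd hw.eq k t)
  have hdc : CF (u - UU w L Wn h) := fun k => (hu.cf k).sub (hUc k)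
  have eu : u = UU w L Wn h + (u - UU w L Wn h) := by abel
  refine ⟨u, hu, ?_, ?_⟩
  · rw [eu]
    refine (XN_add hUc hdc).trans ((add_le_add xU huX).trans ?_)
    rw [add_assoc, ← ENNReal.ofReal_add (by positivity) (by positivity)]
    apply add_le_add le_rfl
    apply ENNReal.ofReal_le_ofReal
    linarith
  · have eu' : u - w = (Ex L Wn + Ex (2 * L) h) + (u - UU w L Wn h) := by
      unfold UU; abel
    rw [eu']
    refine (LNd_add dl cE hdc).trans ?_
    refine (add_le_add ((LNd_add dl cE1 cE2).trans l1) ((LNd_le_XN _ _).trans huX)).trans ?_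
    have hB3 : 0 ≤ B3 / N := by positivity
    rw [← ENNReal.ofReal_add hB3 (by positivity)]
    apply ENNReal.ofReal_le_ofReal
    linarith

/-- Adding several fast waves to a family of solutions. -/
theorem manyB {c D τ dl : ℝ} (hc : 0 < c) (hD : 0 < D) (hτ : 0 < τ) (hdl : 0 < dl) : ∃ δ0 : ℝ, 0 < δ0 ∧
    ∀ (Θ : Type) (bw : K → ℝ), RM bw → ∀ (C1 C2 δ : ℝ) (n N0 : ℕ) (hb : ℕ → K → ℝ) (Wb : ℕ → ℕ → K → ℝ),
      (∀ i, RM (hb i)) → (∀ i N, RM (Wb i N)) → 0 ≤ C1 → 0 ≤ C2 → C1 / Real.sqrt (2 * c) ≤ D → δ ≤ δ0 →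
      ∀ X0 : ℝ, 0 ≤ X0 → X0 + n * (C1 / Real.sqrt (2 * c) + τ) ≤ D →
      ∀ (F : Θ → Fam) (V : Θ → K → C3) (w : Θ → Fam) (h : Θ → ℕ → K → C3) (W : Θ → ℕ → ℕ → K → C3),
        (∀ θ, CF (F θ)) → (∀ θ, SolB c (F θ) bw (V θ) (w θ)) → (∀ θ, XN (w θ) ≤ ENNReal.ofReal X0) →
        (∀ θ, ∀ i < n, Prf c C1 C2 δ (h θ i) (W θ i)) → (∀ θ i k, ‖h θ i k‖ ≤ hb i k) →
        (∀ θ i N k, ‖W θ i N k‖ ≤ Wb i N k) →
        ∃ N : ℕ → ℕ, (∀ i < n, N0 ≤ N i) ∧ (∀ i j, i < j → j < n → 16 * N i ≤ N j) ∧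
          ∃ b' : K → ℝ, RM b' ∧ ∃ u : Θ → Fam, ∀ θ,
            SolB c (F θ) b' (V θ + ∑ i ∈ Finset.range n, (h θ i + W θ i (N i))) (u θ) ∧
            LNd dl (u θ - w θ) ≤ ENNReal.ofReal (n * τ) := by
  obtain ⟨δ0, hδ0, hstep⟩ := stepB hc hD hτ hdl
  refine ⟨δ0, hδ0, fun Θ bw rbw C1 C2 δ n N0 hb Wb rhb rWb hC10 hC20 hC1 hδ X0 hX0 hX F V w h W hF hw hwX hP
    hhb hWb => ?_⟩
  have sc2 : 0 < Real.sqrt (2 * c) := Real.sqrt_pos.2 (by positivity)
  have key : ∀ m ≤ n, ∃ N : ℕ → ℕ, (∀ i < m, N0 ≤ N i) ∧ (∀ i j, i < j → j < m → 16 * N i ≤ N j) ∧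
      ∃ b' : K → ℝ, RM b' ∧ ∃ u : Θ → Fam, ∀ θ,
        SolB c (F θ) b' (V θ + ∑ i ∈ Finset.range m, (h θ i + W θ i (N i))) (u θ) ∧
        XN (u θ) ≤ ENNReal.ofReal (X0 + m * (C1 / Real.sqrt (2 * c) + τ)) ∧
        LNd dl (u θ - w θ) ≤ ENNReal.ofReal (m * τ) := by
    intro m
    induction m with
    | zero =>
      intro _
      refine ⟨fun _ => 0, by simp, by simp, bw, rbw, w, fun θ => ⟨by simpa using hw θ, by simpa using hwX θ, ?_⟩⟩
      rw [sub_self]
      refine (LNd_le_XN _ _).trans (le_of_eq ?_)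
      have h0 : ∀ t, NW (Wa Wt.one) (at' (0 : Fam) t) = 0 := fun t => NW_zero _
      simp [XN, LN, h0]
    | succ m ih =>
      intro hm
      obtain ⟨N, n1, n2, b1, rb1, u, hu⟩ := ih (by omega)
      have hXu : ∀ θ, XN (u θ) ≤ ENNReal.ofReal D := by
        intro θ
        refine (hu θ).2.1.trans (ENNReal.ofReal_le_ofReal (le_trans (add_le_add le_rfl ?_) hX))
        apply mul_le_mul_of_nonneg_right _ (by positivity)
        exact_mod_cast (by omega : m ≤ n)
      have hev := hstep b1 (hb m) (Wb m) rb1 (rhb m) (rWb m) C1 C2 δ hC10 hC20 hC1 hδ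
      obtain ⟨Nm, ⟨⟨b2, rb2, hv⟩, h1⟩, h2⟩ :=
        ((hev.and (eventually_ge_atTop N0)).and
          (eventually_ge_atTop (16 * ∑ i ∈ Finset.range m, N i))).exists
      have hup : ∀ i, i ≠ m → Function.update N m Nm i = N i := fun i hi => Function.update_of_ne hi _ _
      have hv' : ∀ θ, ∃ v : Fam, SolB c (F θ) b2 (V θ + ∑ i ∈ Finset.range m, (h θ i + W θ i (N i)) + h θ m +
          W θ m Nm) v ∧ XN v ≤ XN (u θ) + ENNReal.ofReal (C1 / Real.sqrt (2 * c) + τ) ∧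
            LNd dl (v - u θ) ≤ ENNReal.ofReal τ := fun θ =>
        hv (F θ) _ (u θ) (h θ m) (W θ m) (hF θ) (hu θ).1 (hXu θ) (hP θ m (by omega)) (hhb θ m) (hWb θ m)
      choose v hv1 hv2 hv3 using hv'
      refine ⟨Function.update N m Nm, ?_, ?_, b2, rb2, v, fun θ => ⟨?_, ?_, ?_⟩⟩
      · intro i hi
        by_cases him : i = m
        · subst him; simpa using h1
        · rw [hup i him]; exact n1 i (by omega)
      · intro i j hij hj
        by_cases hjm : j = m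
        · subst hjm
          rw [hup i (by omega), Function.update_self]
          have h3 : N i ≤ ∑ i ∈ Finset.range j, N i :=
            Finset.single_le_sum (f := N) (fun _ _ => Nat.zero_le _) (Finset.mem_range.2 hij)
          omega
        · rw [hup i (by omega), hup j hjm]
          exact n2 i j hij (by omega)
      · have e : V θ + ∑ i ∈ Finset.range (m + 1), (h θ i + W θ i (Function.update N m Nm i))
            = V θ + ∑ i ∈ Finset.range m, (h θ i + W θ i (N i)) + h θ m + W θ m Nm := by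
          rw [Finset.sum_range_succ, Function.update_self]
          have : ∑ i ∈ Finset.range m, (h θ i + W θ i (Function.update N m Nm i))
              = ∑ i ∈ Finset.range m, (h θ i + W θ i (N i)) := by
            refine Finset.sum_congr rfl fun i hi => ?_
            rw [hup i (by have := Finset.mem_range.1 hi; omega)]
          rw [this]
          abel
        rw [e]
        exact hv1 θ
      · refine (hv2 θ).trans ((add_le_add (hu θ).2.1 le_rfl).trans ?_)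
        rw [← ENNReal.ofReal_add (by positivity) (by positivity)]
        apply ENNReal.ofReal_le_ofReal
        push_cast
        apply le_of_eq; ring
      · have e : v θ - w θ = (v θ - u θ) + (u θ - w θ) := by abel
        rw [e]
        have c1 : CF (v θ - u θ) := fun k => ((hv1 θ).cf k).sub ((hu θ).1.cf k)
        have c2 : CF (u θ - w θ) := fun k => ((hu θ).1.cf k).sub ((hw θ).cf k)
        refine (LNd_add dl c1 c2).trans ((add_le_add (hv3 θ) (hu θ).2.2).trans ?_)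
        rw [← ENNReal.ofReal_add (by positivity) (by positivity)]
        apply ENNReal.ofReal_le_ofReal
        push_cast
        apply le_of_eq; ring
  obtain ⟨N, n1, n2, b', rb', u, hu⟩ := key n le_rfl
  exact ⟨N, n1, n2, b', rb', u, fun θ => ⟨(hu θ).1, (hu θ).2.2⟩⟩

end Pool.Agent.K1H11.NS
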