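import Pool.Agent.K1H11.NS4.StepB
import Pool.Agent.K1H11.NS2.Stage

/-!
# Continuous families of smooth periodic functions with common majorants
-/

open MeasureTheory Set Filter Topology
open scoped ENNReal NNReal ContDiff

namespace Pool.Agent.K1H11.NS

open H459R3.NS (ee fc fr cube S SP Per pd D Rap)

/-- continuous families of smooth periodic functions with a common rapidly decreasing majorant -/
structure UC {Θ : Type} [TopologicalSpace Θ] (f : Θ → E3 → ℝ) : Prop where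
  sp : ∀ θ, SP (f θ)
  maj : ∃ b : K → ℝ, RM b ∧ ∀ θ k, ‖fr (f θ) k‖ ≤ b k
  cont : ∀ k, Continuous fun θ => fr (f θ) k

lemma RM_fr {f : E3 → ℝ} (hf : SP f) : RM fun k => ‖fr f k‖ := ⟨fun _ => norm_nonneg _, rr_fr hf⟩

section
variable {Θ : Type} [TopologicalSpace Θ] {f g : Θ → E3 → ℝ}

lemma UC.const {f : E3 → ℝ} (hf : SP f) : UC (fun _ : Θ => f) :=
  ⟨fun _ => hf, ⟨_, RM_fr hf, fun _ _ => le_rfl⟩, fun _ => continuous_const⟩

lemma UC.add (hf : UC f) (hg : UC g) : UC fun θ x => f θ x + g θ x := by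
  obtain ⟨b, hb, hb'⟩ := hf.maj
  obtain ⟨d, hd, hd'⟩ := hg.maj
  refine ⟨fun θ => (hf.sp θ).add (hg.sp θ), ⟨_, hb.add hd, fun θ k => ?_⟩, fun k => ?_⟩
  · rw [fr_add (hf.sp θ) (hg.sp θ)]
    exact (norm_add_le _ _).trans (add_le_add (hb' θ k) (hd' θ k))
  · simp_rw [fun θ => fr_add (hf.sp θ) (hg.sp θ) k]
    exact (hf.cont k).add (hg.cont k)

lemma UC.scal (hf : UC f) {lam : Θ → ℝ} (hc : Continuous lam) {C : ℝ} (hb : ∀ θ, |lam θ| ≤ C) :
    UC fun θ x => lam θ * f θ x := by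
  by_cases hne : Nonempty Θ
  · obtain ⟨θ0⟩ := hne
    have hC : 0 ≤ C := (abs_nonneg _).trans (hb θ0)
    obtain ⟨b, hb1, hb'⟩ := hf.maj
    refine ⟨fun θ => SP.cmul (hf.sp θ) _, ⟨_, hb1.mul hC, fun θ k => ?_⟩, fun k => ?_⟩
    · rw [fr_cmul, norm_mul, Complex.norm_real, Real.norm_eq_abs]
      exact mul_le_mul (hb θ) (hb' θ k) (norm_nonneg _) hC
    · simp_rw [fr_cmul]
      exact (Complex.continuous_ofReal.comp hc).mul (hf.cont k)
  · obtain ⟨b, hb1, hb'⟩ := hf.maj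
    refine ⟨fun θ => SP.cmul (hf.sp θ) _, ⟨b, hb1, fun θ k => (hne ⟨θ⟩).elim⟩, fun k => ?_⟩
    simp_rw [fr_cmul]
    exact (Complex.continuous_ofReal.comp hc).mul (hf.cont k)

lemma UC.cmul (hf : UC f) (c : ℝ) : UC fun θ x => c * f θ x :=
  hf.scal (lam := fun _ => c) continuous_const (C := |c|) fun _ => le_rfl

lemma UC.mul (hf : UC f) (hg : UC g) : UC fun θ x => f θ x * g θ x := by
  obtain ⟨b, hb, hb'⟩ := hf.maj
  obtain ⟨d, hd, hd'⟩ := hg.maj
  have hterm : ∀ θ k l, ‖fr (f θ) l * fr (g θ) (k - l)‖ ≤ b l * d (k - l) := fun θ k l => by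
    rw [norm_mul]
    exact mul_le_mul (hb' θ l) (hd' θ _) (norm_nonneg _) (hb.nn l)
  have hs : ∀ k, Summable fun l => b l * d (k - l) := fun k =>
    summable_conv_term hb.nn hd.nn hb.rr.summ hd.rr.summ k
  refine ⟨fun θ => (hf.sp θ).mul (hg.sp θ), ⟨conv b d, hb.conv hd, fun θ k => ?_⟩, fun k => ?_⟩
  · rw [fr_mul (hf.sp θ) (hg.sp θ)]
    exact tsum_of_norm_bounded (hs k).hasSum (hterm θ k)
  · simp_rw [fun θ => fr_mul (hf.sp θ) (hg.sp θ) k]
    exact continuous_tsum (fun l => (hf.cont l).mul (hg.cont _)) (hs k) fun l θ => hterm θ k l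

lemma UC.congr (hf : UC f) (h : ∀ θ x, f θ x = g θ x) : UC g := by
  have : f = g := funext fun θ => funext fun x => h θ x
  rwa [← this]

lemma UC.sum {ι : Type*} (s : Finset ι) {f : ι → Θ → E3 → ℝ} (hf : ∀ i ∈ s, UC (f i)) :
    UC fun θ x => ∑ i ∈ s, f i θ x := by
  classical
  induction s using Finset.induction_on with
  | empty => exact (UC.const (SP.const 0)).congr fun θ x => by simp
  | insert i s hi ih =>
    refine ((hf i (Finset.mem_insert_self i s)).add (ih fun j hj => hf j (Finset.mem_insert_of_mem hj))).congr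
      fun θ x => ?_
    rw [Finset.sum_insert hi]

lemma UC.sub (hf : UC f) (hg : UC g) : UC fun θ x => f θ x - g θ x :=
  (hf.add (hg.cmul (-1))).congr fun θ x => by ring

lemma UC.maj3 {B : Θ → Fin 3 → E3 → ℝ} (hB : ∀ i, UC fun θ => B θ i) : ∃ b : K → ℝ, RM b ∧
    ∀ θ i k, ‖fr (B θ i) k‖ ≤ b k := by
  choose b hb hb' using fun i => (hB i).maj
  refine ⟨fun k => b 0 k + b 1 k + b 2 k, ((hb 0).add (hb 1)).add (hb 2), fun θ i k => ?_⟩
  have h0 := (hb 0).nn k
  have h1 := (hb 1).nn k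
  have h2 := (hb 2).nn k
  have h := hb' i θ k
  fin_cases i
  · simp only [Fin.zero_eta] at h ⊢; linarith
  · simp only [Fin.mk_one] at h ⊢; linarith
  · simp only [Fin.reduceFinMk] at h ⊢; linarith

/-- the common majorant of the curl -/
lemma UC.cF_maj {B : Θ → Fin 3 → E3 → ℝ} (hB : ∀ i, UC fun θ => B θ i) : ∃ b : K → ℝ, RM b ∧
    ∀ θ k, ‖cF (fun i => fr (B θ i)) k‖ ≤ b k := by
  obtain ⟨b, hb, hb'⟩ := UC.maj3 hB
  have hpi := Real.pi_pos
  refine ⟨_, (hb.nk).mul (by positivity : (0 : ℝ) ≤ 4 * Real.pi * 3), fun θ k => ?_⟩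
  refine (norm_cF_le _ k).trans ?_
  have h1 : ∑ i, ‖fr (B θ i) k‖ ≤ 3 * b k := by
    rw [Fin.sum_univ_three]
    linarith [hb' θ 0 k, hb' θ 1 k, hb' θ 2 k]
  have hn := nk_nonneg k
  calc _ ≤ 4 * Real.pi * nk k * (3 * b k) := by gcongr
    _ = _ := by ring

lemma UC.cu {B : Θ → Fin 3 → E3 → ℝ} (hB : ∀ i, UC fun θ => B θ i) (i : Fin 3) : UC fun θ => cu (B θ) i := by
  obtain ⟨b, hb, hb'⟩ := UC.cF_maj hB
  refine ⟨fun θ => cu_SP (fun i => (hB i).sp θ) i, ⟨b, hb, fun θ k => ?_⟩, fun k => ?_⟩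
  · rw [fr_cu (fun i => (hB i).sp θ)]
    exact (norm_le_pi_norm _ i).trans (hb' θ k)
  · simp_rw [fun θ => fr_cu (fun i => (hB i).sp θ) i k]
    unfold cF D
    exact (continuous_const.mul ((hB _).cont k)).sub (continuous_const.mul ((hB _).cont k))

lemma UC.wave {β : ℝ} (hf : UC f) (e : Fin 3 → ℝ) (cc : Fin 3) (N : ℕ) (i : Fin 3) :
    UC fun θ => wave β (f θ) e cc N i :=
  ((hf.mul (UC.const (sn_SP cc N))).cmul _).congr fun θ x => rfl

end

/-! ### The amplitudes -/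

/-- normalised stress -/
noncomputable def sA (κ : ℝ) (R : Fin 3 → Fin 3 → E3 → ℝ) (i j : Fin 3) (x : E3) : ℝ := (1 / (4 * κ ^ 2)) * R i j x

/-- diagonal part -/
noncomputable def XA (κ : ℝ) (R : Fin 3 → Fin 3 → E3 → ℝ) (i : Fin 3) (x : E3) : ℝ :=
  sA κ R i i x + (-(1 / 2)) * (sA κ R i (i + 1) x * sA κ R i (i + 1) x + sA κ R i (i + 2) x * sA κ R i (i + 2) x)

theorem amp_core {b : Fin 3 → K → ℂ} (hb : ∀ i, Rap (b i))
    (hdiv : ∀ k, ∑ j, (k j : ℂ) * b j k = 0) (h0 : ∀ i, b i 0 = 0) {K1 : ℝ} (hK1 : 0 < K1)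
    (hd : ∑' k, ‖(fun i => b i k : C3)‖ / nk k ≤ K1) {R : Fin 3 → Fin 3 → E3 → ℝ} (hR : ∀ i j, SP (R i j))
    (hRf : ∀ i j, fr (R i j) = rc b i j) :
    (∀ c a, SP (GP (Real.sqrt K1) (sA (Real.sqrt K1) R) (XA (Real.sqrt K1) R) c a)) ∧
      (∀ c a, wn (GP (Real.sqrt K1) (sA (Real.sqrt K1) R) (XA (Real.sqrt K1) R) c a) ≤ 2 * Real.sqrt K1) ∧
      ∀ k, ∑ c, ∑ a, fr (fun x => GP (Real.sqrt K1) (sA (Real.sqrt K1) R) (XA (Real.sqrt K1) R) c a x *
        GP (Real.sqrt K1) (sA (Real.sqrt K1) R) (XA (Real.sqrt K1) R) c a x) k • bt k (ec (eP c a)) (ec (eP c a)) =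
        -(fun i => b i k : C3) := by
  have hRS : ∀ i j x, (R i j x : ℂ) = S (rc b i j) x := fun i j x => by
    rw [← hRf, H459R3.NS.S_fr (hR i j)]
  have hRc : ∀ i j, R i j = R j i := by
    intro i j
    funext x
    have : (R i j x : ℂ) = (R j i x : ℂ) := by rw [hRS, hRS, rc_comm]
    exact_mod_cast this
  set κ := Real.sqrt K1 with hκ
  have hκ0 : 0 < κ := Real.sqrt_pos.2 hK1
  have hκ2 : κ ^ 2 = K1 := Real.sq_sqrt hK1.le
  have hBs : Summable fun k => ‖(fun i => b i k : C3)‖ / nk k := by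
    have hs : Summable fun k => ∑ i, ‖b i k‖ := summable_sum fun i _ => (hb i).summable.norm
    refine hs.of_nonneg_of_le (fun k => div_nonneg (norm_nonneg _) (nk_nonneg k)) fun k => ?_
    have h1 : 0 ≤ ∑ i, ‖b i k‖ := Finset.sum_nonneg fun _ _ => norm_nonneg _
    have h2 : ‖(fun i => b i k : C3)‖ ≤ ∑ i, ‖b i k‖ := by
      rw [pi_norm_le_iff_of_nonneg h1]
      intro i
      exact Finset.single_le_sum (f := fun i => ‖b i k‖) (fun _ _ => norm_nonneg _) (Finset.mem_univ i)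
    by_cases hk : k = 0
    · subst hk; rw [nk_zero, div_zero]; exact h1
    · exact (div_le_self (norm_nonneg _) (one_le_nk hk)).trans h2
  have hRw : ∀ i j, wn (R i j) ≤ κ ^ 2 := by
    intro i j
    rw [hκ2]
    refine le_trans ?_ hd
    unfold wn
    rw [hRf]
    exact Summable.tsum_le_tsum (norm_rc_le b i j) (rap_rc hb i j).summable.norm hBs
  set s : Fin 3 → Fin 3 → E3 → ℝ := sA κ R with hsdef
  have hs : ∀ i j, SP (s i j) := fun i j => SP.cmul (hR i j) _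
  have hsv : ∀ i j x, s i j x = (1 / (4 * κ ^ 2)) * R i j x := fun i j x => rfl
  have hsw : ∀ i j, wn (s i j) ≤ 1 / 4 := by
    intro i j
    have e : wn (s i j) = wn (fun x => (1 / (4 * κ ^ 2)) * R i j x) := rfl
    rw [e, wn_cmul, abs_of_pos (by positivity)]
    calc 1 / (4 * κ ^ 2) * wn (R i j) ≤ 1 / (4 * κ ^ 2) * κ ^ 2 := by
          gcongr; exact hRw i j
      _ = _ := by field_simp
  set X : Fin 3 → E3 → ℝ := XA κ R with hXdef
  have hXv : ∀ i x, X i x = s i i x +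
    (-(1 / 2)) * (s i (i + 1) x * s i (i + 1) x + s i (i + 2) x * s i (i + 2) x) := fun i x => rfl
  have hsq : ∀ i, SP fun x => s i (i + 1) x * s i (i + 1) x + s i (i + 2) x * s i (i + 2) x := fun i =>
    ((hs _ _).mul (hs _ _)).add ((hs _ _).mul (hs _ _))
  have hX : ∀ i, SP (X i) := fun i => (hs i i).add (SP.cmul (hsq i) _)
  have hXw : ∀ i, wn (X i) ≤ 1 := by
    intro i
    have h1 := wn_add (hs i i) (SP.cmul (hsq i) (-(1 / 2)))
    refine h1.trans ?_
    have h2 : wn (fun x => s i (i + 1) x * s i (i + 1) x + s i (i + 2) x * s i (i + 2) x) ≤ 1 / 8 := by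
      refine (wn_add ((hs _ _).mul (hs _ _)) ((hs _ _).mul (hs _ _))).trans ?_
      have h3 : ∀ j, wn (fun x => s i j x * s i j x) ≤ 1 / 16 := by
        intro j
        refine (wn_mul (hs i j) (hs i j)).trans ?_
        have := hsw i j
        have := wn_nonneg (s i j)
        nlinarith
      have := h3 (i + 1)
      have := h3 (i + 2)
      linarith
    have h4 : |(-(1 / 2) : ℝ)| = 1 / 2 := by rw [abs_neg, abs_of_pos (by norm_num)]
    have h5 : wn (fun x => -(1 / 2) * (s i (i + 1) x * s i (i + 1) x + s i (i + 2) x * s i (i + 2) x)) =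
        1 / 2 * wn (fun x => s i (i + 1) x * s i (i + 1) x + s i (i + 2) x * s i (i + 2) x) := by
      rw [wn_cmul (f := fun x => s i (i + 1) x * s i (i + 1) x + s i (i + 2) x * s i (i + 2) x), h4]
    rw [h5]
    have := hsw i i
    linarith
  refine ⟨GP_SP κ hs hX, GP_wn hκ0.le hs hX (fun i j => (hsw i j).trans (by norm_num)) hXw, ?_⟩
  intro k
  set lam : E3 → ℝ := fun x => κ ^ 2 * (4 + ∑ i, (1 - X i x) ^ 2) with hlam
  have hlamSP : SP lam := by
    have h1 : ∀ i, SP fun x => (1 - X i x) ^ 2 := by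
      intro i
      have : (fun x => (1 - X i x) ^ 2) = fun x => (1 - X i x) * (1 - X i x) := by
        funext x; ring
      rw [this]
      exact (SP.sub (SP.const 1) (hX i)).mul (SP.sub (SP.const 1) (hX i))
    exact SP.cmul ((SP.const 4).add (SP.sum fun i _ => h1 i)) _
  have hid := dec_id κ s X R (fun i j => by funext x; rw [hsv, hsv, hRc i j]) (fun i j x _ => by
      rw [hsv]; field_simp) (fun i x => by
      rw [hXv]
      simp only [hsv]
      field_simp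
      ring)
  have hGP := GP_SP κ hs hX
  have hfr : ∀ j m, ∑ c, ∑ a, ((eP c a j * eP c a m : ℝ) : ℂ) *
      fr (fun x => GP κ s X c a x * GP κ s X c a x) k = rc b j m k + (if j = m then fr lam k else 0) := by
    intro j m
    have e1 : fr (fun x => ∑ c, ∑ a, (eP c a j * eP c a m) * (GP κ s X c a x * GP κ s X c a x)) k =
        ∑ c, ∑ a, ((eP c a j * eP c a m : ℝ) : ℂ) * fr (fun x => GP κ s X c a x * GP κ s X c a x) k := by
      rw [fr_finsum Finset.univ (fun c x => ∑ a, (eP c a j * eP c a m) * (GP κ s X c a x * GP κ s X c a x))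
        (fun c _ => SP.sum fun a _ => SP.cmul ((hGP c a).mul (hGP c a)) _)]
      refine Finset.sum_congr rfl fun c _ => ?_
      rw [fr_finsum Finset.univ (fun a x => (eP c a j * eP c a m) * (GP κ s X c a x * GP κ s X c a x))
        (fun a _ => SP.cmul ((hGP c a).mul (hGP c a)) _)]
      refine Finset.sum_congr rfl fun a _ => ?_
      rw [fr_cmul]
    rw [← e1]
    have e2 : (fun x => ∑ c, ∑ a, (eP c a j * eP c a m) * (GP κ s X c a x * GP κ s X c a x)) =
        fun x => R j m x + (if j = m then lam x else 0) := funext fun x => hid j m x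
    rw [e2]
    by_cases hjm : j = m
    · simp only [if_pos hjm]
      rw [fr_add (hR j m) hlamSP, hRf]
    · simp only [if_neg hjm, add_zero]
      rw [hRf]
  funext i
  by_cases hk : k = 0
  · subst hk
    simp [h0, bt_freq_zero]
  have e3 : (∑ c, ∑ a, fr (fun x => GP κ s X c a x * GP κ s X c a x) k • bt k (ec (eP c a)) (ec (eP c a))) i =
      ∑ j, ∑ m, coef k i j m * ∑ c, ∑ a, ((eP c a j * eP c a m : ℝ) : ℂ) *
        fr (fun x => GP κ s X c a x * GP κ s X c a x) k := by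
    simp only [Finset.sum_apply, Pi.smul_apply, smul_eq_mul, bt, ec, Finset.mul_sum]
    have hT : ∀ T : Fin 3 → Fin 5 → Fin 3 → Fin 3 → ℂ, ∑ c, ∑ a, ∑ j, ∑ m, T c a j m =
        ∑ j, ∑ m, ∑ c, ∑ a, T c a j m := by
      intro T
      calc ∑ c, ∑ a, ∑ j, ∑ m, T c a j m = ∑ c, ∑ j, ∑ a, ∑ m, T c a j m :=
            Finset.sum_congr rfl fun c _ => Finset.sum_comm
        _ = ∑ j, ∑ c, ∑ a, ∑ m, T c a j m := Finset.sum_comm
        _ = ∑ j, ∑ c, ∑ m, ∑ a, T c a j m :=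
            Finset.sum_congr rfl fun j _ => Finset.sum_congr rfl fun c _ => Finset.sum_comm
        _ = _ := Finset.sum_congr rfl fun j _ => Finset.sum_comm
    have : ∀ c : Fin 3, ∀ a : Fin 5, ∑ j, ∑ m, fr (fun x => GP κ s X c a x * GP κ s X c a x) k *
        (coef k i j m * ((eP c a j : ℂ) * (eP c a m : ℂ))) =
        ∑ j, ∑ m, coef k i j m * (((eP c a j * eP c a m : ℝ) : ℂ) *
          fr (fun x => GP κ s X c a x * GP κ s X c a x) k) := fun c a =>
      Finset.sum_congr rfl fun j _ => Finset.sum_congr rfl fun m _ => by push_cast; ring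
    simp_rw [this]
    exact hT _
  rw [e3]
  simp_rw [hfr, mul_add, Finset.sum_add_distrib]
  rw [coef_rc hk (hdiv k) i]
  have e4 : ∑ j, ∑ m, coef k i j m * (if j = m then fr lam k else 0) = (∑ j, coef k i j j) * fr lam k := by
    rw [Finset.sum_mul]
    refine Finset.sum_congr rfl fun j _ => ?_
    simp
  rw [e4, coef_id hk, zero_mul, add_zero]
  rfl

section
variable {Θ : Type} [TopologicalSpace Θ]

lemma UC.GP {κ : ℝ} {s : Θ → Fin 3 → Fin 3 → E3 → ℝ} {X : Θ → Fin 3 → E3 → ℝ}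
    (hs : ∀ i j, UC fun θ => s θ i j) (hX : ∀ i, UC fun θ => X θ i) (c : Fin 3) (a : Fin 5) :
    UC fun θ => GP κ (s θ) (X θ) c a := by
  have h1 : ∀ f : Θ → E3 → ℝ, UC f → UC fun θ x => κ * (1 + f θ x) := fun f hf =>
    UC.cmul ((UC.const (SP.const 1)).add hf) κ
  have h2 : ∀ f : Θ → E3 → ℝ, UC f → UC fun θ x => κ * (1 + (-1) * f θ x) := fun f hf => h1 _ (UC.cmul hf (-1))
  by_cases a0 : a = 0
  · exact (h1 _ (hs (c + 1) (c + 2))).congr fun θ x => by simp only [Pool.Agent.K1H11.NS.GP, if_pos a0]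
  by_cases a1 : a = 1
  · exact (h2 _ (hs (c + 1) (c + 2))).congr fun θ x => by
      simp only [Pool.Agent.K1H11.NS.GP, if_neg a0, if_pos a1]
  by_cases a2 : a = 2
  · exact (h1 _ (hX (c + 1))).congr fun θ x => by
      simp only [Pool.Agent.K1H11.NS.GP, if_neg a0, if_neg a1, if_pos a2]
  by_cases a3 : a = 3
  · exact (h2 _ (hX (c + 2))).congr fun θ x => by
      simp only [Pool.Agent.K1H11.NS.GP, if_neg a0, if_neg a1, if_neg a2, if_pos a3]
  · exact (h2 _ (hX c)).congr fun θ x => by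
      simp only [Pool.Agent.K1H11.NS.GP, if_neg a0, if_neg a1, if_neg a2, if_neg a3]

/-- The amplitudes for a family. -/
theorem amp_family {b : Θ → Fin 3 → K → ℂ} {bb : K → ℝ} (hbb : RM bb)
    (hb : ∀ θ i k, ‖b θ i k‖ ≤ bb k) (hbc : ∀ i k, Continuous fun θ => b θ i k)
    (hr : ∀ θ i k, b θ i (-k) = star (b θ i k))
    (hdiv : ∀ θ k, ∑ j, (k j : ℂ) * b θ j k = 0) (h0 : ∀ θ i, b θ i 0 = 0) {K1 : ℝ} (hK1 : 0 < K1)
    (hrap : ∀ θ i, Rap (b θ i))
    (hd : ∀ θ, ∑' k, ‖(fun i => b θ i k : C3)‖ / nk k ≤ K1) :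
    ∃ F : Θ → Fin 3 → Fin 5 → E3 → ℝ, (∀ c a, UC fun θ => F θ c a) ∧
      (∀ θ c a, wn (F θ c a) ≤ 2 * Real.sqrt K1) ∧
      ∀ θ k, ∑ c, ∑ a, fr (fun x => F θ c a x * F θ c a x) k • bt k (ec (eP c a)) (ec (eP c a)) =
        -(fun i => b θ i k : C3) := by
  have hex : ∀ θ i j, ∃ B : E3 → ℝ, SP B ∧ (∀ x, (B x : ℂ) = S (rc (b θ) i j) x) ∧ fr B = rc (b θ) i j :=
    fun θ i j => exists_SP (rap_rc (hrap θ) i j) (rc_sym (hr θ) i j)
  choose R hR hRS hRf using hex
  have hRU : ∀ i j, UC fun θ => R θ i j := by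
    intro i j
    refine ⟨fun θ => hR θ i j, ⟨bb, hbb, fun θ k => ?_⟩, fun k => ?_⟩
    · rw [hRf]
      refine (norm_rc_le (b θ) i j k).trans ?_
      have h1 : ‖(fun i => b θ i k : C3)‖ ≤ bb k := by
        rw [pi_norm_le_iff_of_nonneg (hbb.nn k)]
        exact fun i => hb θ i k
      by_cases hk : k = 0
      · subst hk; rw [nk_zero, div_zero]; exact hbb.nn 0
      · exact (div_le_self (norm_nonneg _) (one_le_nk hk)).trans h1
    · simp_rw [hRf]
      unfold rc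
      exact (continuous_const.mul ((continuous_const.mul (hbc i k)).add
        (continuous_const.mul (hbc j k)))).div_const _
  have hsU : ∀ i j, UC fun θ => sA (Real.sqrt K1) (R θ) i j := fun i j => (hRU i j).cmul _
  have hXU : ∀ i, UC fun θ => XA (Real.sqrt K1) (R θ) i := fun i =>
    (hsU i i).add ((((hsU i (i + 1)).mul (hsU i (i + 1))).add ((hsU i (i + 2)).mul (hsU i (i + 2)))).cmul _)
  have hcore := fun θ => amp_core (hrap θ) (hdiv θ) (h0 θ) hK1 (hd θ) (hR θ) (hRf θ)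
  exact ⟨fun θ => GP (Real.sqrt K1) (sA (Real.sqrt K1) (R θ)) (XA (Real.sqrt K1) (R θ)),
    fun c a => UC.GP hsU hXU c a, fun θ => (hcore θ).2.1, fun θ => (hcore θ).2.2⟩

end

end Pool.Agent.K1H11.NS
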